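import Mathlib
import Pool.Agent.Helper34.SQ.GoalsG

set_option autoImplicit false

namespace Pool.Agent.Helper84.SQ

open Finset Pool.Agent.Helper34.SQ

theorem t_ch (hSWAP : S_SWAP) (hRM2 : S_RM2) (hJT : S_JT) :
    Pool.Agent.Helper34.SQ.S_CH := by
  intro n l hl c β m h hfin htype hh hβ hE x hx p0
  by_contra hp0
  have hl0 : NeZero l := ⟨by omega⟩
  -- (1)
  have h1 : ∀ t : ℕ, ∃ C : ℤ, C ≠ 0 ∧ ∀ x : Fin n → ℤ, β t x =
      C * β 0 (fun p => rtc l c t (x p)) := by
    intro t
    induction t with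
    | zero => exact ⟨1, one_ne_zero, fun x => by simp [rtc]⟩
    | succ t ih =>
      obtain ⟨C, hC, hCx⟩ := ih
      have hs := hSWAP n l hl (c + (t : ZMod l)) (m t) (β t) (htype t) (hE t) (h t) (hh t)
      refine ⟨((h t).factorial * (-1) ^ (m t (c + (t : ZMod l) + 1)).toNat : ℤ) * C, ?_, ?_⟩
      · refine mul_ne_zero (mul_ne_zero ?_ ?_) hC
        · exact_mod_cast (Nat.factorial_pos _).ne'
        · exact pow_ne_zero _ (by norm_num)
      · intro x
        rw [hβ t, hs x, hCx]
        simp only [rtc]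
        ring
  -- (2)
  have h2 : ∀ (t : ℕ) (x : Fin n → ℤ), ∑ p with ((x p : ℤ) : ZMod l) = c + (t : ZMod l),
      β 0 (fun q => rtc l c t ((x + Pi.single p 1 : Fin n → ℤ) q)) = 0 := by
    intro t x
    obtain ⟨C, hC, hCx⟩ := h1 t
    have h0 := congrFun (hE t) x
    simp only [Ec, Pi.zero_apply] at h0
    have : C * ∑ p with ((x p : ℤ) : ZMod l) = c + (t : ZMod l),
      β 0 (fun q => rtc l c t ((x + Pi.single p 1 : Fin n → ℤ) q)) = 0 := by
      rw [Finset.mul_sum, ← h0]
      refine Finset.sum_congr rfl fun p _ => ?_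
      rw [hCx]
    exact (mul_eq_zero.1 this).resolve_left hC
  -- (3) choice of `j`
  obtain ⟨N, hN⟩ : ∃ N : ℕ, ∀ x' : Fin n → ℤ, β 0 x' ≠ 0 → x p0 - x' p0 ≤ (N : ℤ) := by
    have hf : ((fun x' : Fin n → ℤ => x p0 - x' p0) '' (Function.support (β 0))).Finite :=
      hfin.image _
    obtain ⟨M, hM⟩ := hf.bddAbove
    refine ⟨M.toNat, fun x' hx' => ?_⟩
    have := hM ⟨x', hx', rfl⟩
    exact this.trans (Int.self_le_toNat M)
  set d : ℕ := (((x p0 : ℤ) : ZMod l) - c).val with hd
  set j : ℕ := d + l * (N + 1) with hj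
  have hjc : (j : ZMod l) = ((x p0 : ℤ) : ZMod l) - c := by
    rw [hj]
    push_cast
    rw [hd, ZMod.natCast_zmod_val]
    simp
  have hjN : (N : ℤ) < (j : ℤ) := by
    have : N + 1 ≤ l * (N + 1) := Nat.le_mul_of_pos_left _ (by omega)
    have : N < j := by omega
    exact_mod_cast this
  have hnd : ¬ l ∣ j := by
    intro hdv
    rw [(ZMod.natCast_eq_zero_iff j l).2 hdv] at hjc
    exact hp0 (sub_eq_zero.1 hjc.symm)
  obtain ⟨t, ht⟩ := hJT l hl j hnd
  obtain ⟨hbij, hclos, hiff⟩ := hRM2 l hl c t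
  set y : Fin n → ℤ := x - Pi.single p0 (j : ℤ) with hy
  choose g hg using hbij.surjective
  set x0 : Fin n → ℤ := fun p => g (y p) with hx0
  have hx0y : ∀ p, rtc l c t (x0 p) = y p := fun p => hg (y p)
  have h3 := h2 t x0
  have hmem : ∀ p, ((x0 p : ℤ) : ZMod l) = c + (t : ZMod l) ↔ ((y p : ℤ) : ZMod l) = c := by
    intro p
    rw [← hx0y p]
    exact (hiff (x0 p)).symm
  have hterm : ∀ p, ((x0 p : ℤ) : ZMod l) = c + (t : ZMod l) →
      (fun q => rtc l c t ((x0 + Pi.single p 1 : Fin n → ℤ) q)) = y + Pi.single p (j : ℤ) := by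
    intro p hp
    funext q
    simp only [Pi.add_apply, Pi.single_apply]
    by_cases hqp : q = p
    · subst hqp
      have h4 := hclos (x0 q) hp
      have h5 := hx0y q
      rw [h4.1] at h5
      have h6 : ((t : ℤ) + 1 + ((t / (l - 1) : ℕ) : ℤ)) = (j : ℤ) := by exact_mod_cast ht
      simp only [if_true]
      rw [h4.2, ← h5]
      linarith
    · simp only [hqp, if_false, add_zero]
      exact hx0y q
  rw [Finset.sum_eq_single p0] at h3
  · have hp0m : ((x0 p0 : ℤ) : ZMod l) = c + (t : ZMod l) := by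
      rw [hmem, hy]
      simp only [Pi.sub_apply, Pi.single_eq_same]
      push_cast
      rw [hjc]
      ring
    rw [hterm p0 hp0m, hy] at h3
    apply hx
    simpa using h3
  · intro p hp hne
    rw [mem_filter] at hp
    rw [hterm p hp.2]
    by_contra hcon
    have h7 := hN _ hcon
    simp only [hy, Pi.add_apply, Pi.sub_apply, Pi.single_eq_same] at h7
    rw [Pi.single_eq_of_ne (Ne.symm hne)] at h7
    linarith
  · intro hp
    exfalso
    apply hp
    rw [mem_filter]
    refine ⟨mem_univ _, ?_⟩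
    rw [hmem, hy]
    simp only [Pi.sub_apply, Pi.single_eq_same]
    push_cast
    rw [hjc]
    ring

end Pool.Agent.Helper84.SQ
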