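import Pool.Agent.Helper34.SQ.GoalsM

set_option autoImplicit false
set_option linter.unusedSectionVars false

namespace Pool.Agent.Helper84.SQ

noncomputable section

open Finset Matrix Pool.Agent.Helper19.SQ Pool.Agent.Helper34.SQ

section gen

variable {A : Type} [Ring A] [Algebra ℂ A] {ι : Type} [Fintype ι] [DecidableEq ι] {l : ℕ}

theorem pow_mono_sub {I J : Submodule ℂ A} (h : I ≤ J) (k : ℕ) : I ^ k ≤ J ^ k := by
  induction k with
  | zero => simp
  | succ k ih =>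
    rw [pow_succ, pow_succ]
    exact mul_le_mul' ih h

theorem finp_pow (hIDL : S_IDL) (C : Core A ι l) (c : ZMod l) (m : ZMod l → ℤ)
    (I : Submodule ℂ A) (k : ℕ) (hk : 1 ≤ k) (h : ℕ) :
    (Fin' C c m h I) ^ k ≤ Fin' C c m h (I ^ k) := by
  induction h with
  | zero => exact le_rfl
  | succ h ih =>
    obtain ⟨_, _, h3, _, h5, _⟩ := hIDL A ι l C c (m - (h : ℤ) • al c)
    exact (h5 (Fin' C c m h I) k hk).trans (h3 _ _ ih)

theorem eps_mem_pow (C : Core A ι l) (I : Submodule ℂ A) (e : A) (he : e * e = e)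
    (hI : ∀ i j, C.ε e i j ∈ I) (k : ℕ) (hk : 1 ≤ k) : ∀ i j, C.ε e i j ∈ I ^ k := by
  induction k, hk using Nat.le_induction with
  | base => intro i j; rw [pow_one]; exact hI i j
  | succ k hk ih =>
    intro i j
    rw [← he, map_mul, Matrix.mul_apply, pow_succ]
    exact Submodule.sum_mem _ fun r _ => Submodule.mul_mem_mul (ih i r) (hI r j)

end gen

section ggs

variable {N l : ℕ} {q : ℂ}

theorem GG_anti {hl : l ≠ 0} {s : ℕ → ℂˣ} {C : Core (A N l q) (Fin (N + 1)) l}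
    {m : ZMod l → ℤ} {I J : Submodule ℂ (A N l q)} {β : (Fin (N + 1) → ℤ) → ℤ} (h : I ≤ J)
    (hG : GG hl s C m J β) : GG hl s C m I β := by
  obtain ⟨M, i1, i2, i3, i4, Θ, h1, h2, h3, h4⟩ := hG
  exact ⟨M, i1, i2, i3, i4, Θ, h1, h2, fun a ha x => h3 a (h ha) x, h4⟩

theorem GG_iter (hG1 : S_G1) [NeZero l] (hl : l ≠ 0) (s : ℕ → ℂˣ) (D : Dl N l q)
    (C : Core (A N l q) (Fin (N + 1)) l) (hS : Sett N l q hl s D C)
    (c : ZMod l) (m : ZMod l → ℤ) (I : Submodule ℂ (A N l q))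
    (β : (Fin (N + 1) → ℤ) → ℤ) (hG : GG hl s C m I β) (h : ℕ) :
    GG hl s C (m - (h : ℤ) • al c) (Fin' C c m h I) ((Fc l c)^[h] β) := by
  induction h with
  | zero =>
    simpa [Fin'] using hG
  | succ h ih =>
    have h1 := hG1 N l q hl s D C hS c _ _ _ ih
    rw [Function.iterate_succ_apply']
    have h2 : m - ((h + 1 : ℕ) : ℤ) • al c = m - (h : ℤ) • al c - al c := by
      funext x
      simp only [Pi.sub_apply, Pi.smul_apply, smul_eq_mul]
      push_cast
      ring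
    rw [h2]
    exact h1

/-- the state at time `t`. -/
def stt (C : Core (A N l q) (Fin (N + 1)) l) (c : ZMod l) (m : ZMod l → ℤ)
    (τ : A N l q →ₗ[ℂ] ℂ) : ℕ → (ZMod l → ℤ) × (A N l q →ₗ[ℂ] ℂ)
  | 0 => (m, τ)
  | t + 1 =>
    ((stt C c m τ t).1 - ((((stt C c m τ t).1 (c + (t : ZMod l)) -
        (stt C c m τ t).1 (c + (t : ZMod l) + 1)).toNat : ℕ) : ℤ) • al (c + (t : ZMod l)),
      Ftn C (c + (t : ZMod l)) (stt C c m τ t).1 ((stt C c m τ t).1 (c + (t : ZMod l)) -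
        (stt C c m τ t).1 (c + (t : ZMod l) + 1)).toNat (stt C c m τ t).2)

theorem swap_sub {l : ℕ} (hl2 : 2 ≤ l) (c : ZMod l) (m : ZMod l → ℤ) (h : ℤ)
    (hh : h = m c - m (c + 1)) : m - h • al c = m ∘ Equiv.swap c (c + 1) := by
  have h10 : (1 : ZMod l) ≠ 0 := by
    have : Fact (1 < l) := ⟨hl2⟩
    exact one_ne_zero
  have hne : c ≠ c + 1 := by
    intro h'
    exact h10 (by simpa using h'.symm)
  funext x
  simp only [Pi.sub_apply, Pi.smul_apply, smul_eq_mul, al, Function.comp]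
  by_cases h1 : x = c
  · subst h1
    rw [Equiv.swap_apply_left]
    simp only [if_true, if_neg hne, sub_zero, mul_one]
    rw [hh]; ring
  · by_cases h2 : x = c + 1
    · subst h2
      rw [Equiv.swap_apply_right]
      simp only [if_true, if_neg h1]
      rw [hh]; ring
    · rw [Equiv.swap_apply_of_ne_of_ne h1 h2]
      simp [h1, h2]

end ggs

theorem t_main12 (hIDL : S_IDL) (hSTEP : S_STEP) (hCH : S_CH) (hGSUP : S_GSUP) (hG1 : S_G1)
    (hG2 : S_G2) (hG0 : S_G0) : Pool.Agent.Helper34.SQ.S_MAIN12 := by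
  intro N l _ q hl s D C hS ζ m hTr τ hτ hτ0
  have hl2 : 2 ≤ l := by have := hS.par.h3; omega
  obtain ⟨c, hc⟩ := Finite.exists_max m
  -- the sequence
  set st := stt C c m τ with hst
  let mm : ℕ → ZMod l → ℤ := fun t => (st t).1
  let tt : ℕ → (A N l q →ₗ[ℂ] ℂ) := fun t => (st t).2
  let hh : ℕ → ℕ := fun t => (mm t (c + (t : ZMod l)) - mm t (c + (t : ZMod l) + 1)).toNat
  have hm0 : mm 0 = m := rfl
  have ht0 : tt 0 = τ := rfl
  have hms : ∀ t, mm (t + 1) = mm t - ((hh t : ℕ) : ℤ) • al (c + (t : ZMod l)) := fun t => rfl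
  have hts : ∀ t, tt (t + 1) = Ftn C (c + (t : ZMod l)) (mm t) (hh t) (tt t) := fun t => rfl
  have hinv : ∀ t : ℕ, (∀ x, mm t x ≤ mm t (c + (t : ZMod l))) ∧
      (∑ x, mm t x ^ 2 = ∑ x, m x ^ 2) ∧ IsTrz C ζ (mm t) (tt t) := by
    intro t
    induction t with
    | zero =>
      refine ⟨?_, rfl, hτ⟩
      intro x
      simpa [hm0] using hc x
    | succ t ih =>
      obtain ⟨h1, h2, h3⟩ := ih
      have hhn : ((hh t : ℕ) : ℤ) = mm t (c + (t : ZMod l)) - mm t (c + (t : ZMod l) + 1) := by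
        refine Int.toNat_of_nonneg ?_
        have := h1 (c + (t : ZMod l) + 1)
        linarith
      have hsw : mm (t + 1) = mm t ∘ Equiv.swap (c + (t : ZMod l)) (c + (t : ZMod l) + 1) := by
        rw [hms]
        exact swap_sub hl2 _ _ _ hhn
      have hstep := hSTEP (A N l q) (Fin (N + 1)) l hl2 C ζ (c + (t : ZMod l)) (mm t) (hh t) hhn
        (fun m' hm' => hTr m' (by rw [h2] at hm'; exact hm')) (tt t) h3
      refine ⟨?_, ?_, ?_⟩
      · intro x
        rw [hsw]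
        simp only [Function.comp]
        push_cast
        rw [← add_assoc, Equiv.swap_apply_right]
        exact h1 _
      · rw [← h2, hsw]
        exact Equiv.sum_comp (Equiv.swap (c + (t : ZMod l)) (c + (t : ZMod l) + 1))
          (fun x => mm t x ^ 2)
      · rw [hts, hms]
        exact hstep.2.1
  have hhn : ∀ t, ((hh t : ℕ) : ℤ) = mm t (c + (t : ZMod l)) - mm t (c + (t : ZMod l) + 1) := by
    intro t
    refine Int.toNat_of_nonneg ?_
    have := (hinv t).1 (c + (t : ZMod l) + 1)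
    linarith
  have hstep := fun t : ℕ => hSTEP (A N l q) (Fin (N + 1)) l hl2 C ζ (c + (t : ZMod l))
    (mm t) (hh t) (hhn t) (fun m' hm' => hTr m' (by rw [(hinv t).2.1] at hm'; exact hm'))
    (tt t) (hinv t).2.2
  -- `I_0`
  obtain ⟨_, _, _, _, _, _, _, _, h9, h10, _⟩ := hIDL (A N l q) (Fin (N + 1)) l C c m
  have hone : (1 : A N l q) ∉ It τ := by
    intro h1
    apply hτ0
    ext y
    have := (mem_It τ 1).1 h1 y
    rw [one_mul] at this
    rw [this]; rfl
  have hphi : ∀ a ∈ It τ, tor N l q hl s a ∈ It τ := by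
    intro a ha
    rw [← hS.c0.φ a, mem_It]
    intro y
    obtain ⟨z, rfl⟩ := C.φ.surjective y
    rw [← map_mul, hτ.eq, (mem_It τ a).1 ha z, mul_zero]
  obtain ⟨β0, hβ0, hGG0⟩ := hG0 N l q hl s D C hS m (It τ) (h9 ζ τ hτ) hone hphi (h10 ζ τ hτ)
  -- the functions `β_t`
  let β : ℕ → (Fin (N + 1) → ℤ) → ℤ := fun t =>
    Nat.rec β0 (fun t b => (Fc l (c + (t : ZMod l)))^[hh t] b) t
  have hβs : ∀ t : ℕ, β (t + 1) = (Fc l (c + (t : ZMod l)))^[hh t] (β t) := fun t => rfl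
  have hGG : ∀ t : ℕ, ∃ k, 1 ≤ k ∧ GG hl s C (mm t) ((It (tt t)) ^ k) (β t) := by
    intro t
    induction t with
    | zero => exact ⟨1, le_rfl, by rw [pow_one]; exact hGG0⟩
    | succ t ih =>
      obtain ⟨k, hk, hG⟩ := ih
      refine ⟨(hh t).factorial * k, Nat.mul_pos (Nat.factorial_pos _) hk, ?_⟩
      have h1 := GG_iter hG1 hl s D C hS (c + (t : ZMod l)) (mm t) _ _ hG (hh t)
      rw [hβs, hms]
      refine GG_anti ?_ h1
      rw [pow_mul]
      refine (pow_mono_sub ?_ k).trans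
        (finp_pow hIDL C (c + (t : ZMod l)) (mm t) (It (tt t)) k hk (hh t))
      rw [hts]
      exact (hstep t).2.2
  have hE : ∀ t : ℕ, Ec l (c + (t : ZMod l)) (β t) = 0 := by
    intro t
    obtain ⟨k, hk, hG⟩ := hGG t
    refine hG2 N l q hl s D C hS (c + (t : ZMod l)) (mm t) _ _ hG ?_
    exact eps_mem_pow C _ _ (C.e_idem _) (hstep t).1 k hk
  have hsup : ∀ t, (Function.support (β t)).Finite ∧ ∀ x, β t x ≠ 0 →
      Pool.Agent.Helper34.SQ.ty l x = mm t := by
    intro t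
    obtain ⟨k, _, hG⟩ := hGG t
    exact hGSUP N l q hl s D C hS _ _ _ hG
  have hch := hCH (N + 1) l hl2 c β mm hh (hsup 0).1 (fun t => (hsup t).2) hhn hβs hE
  obtain ⟨x, hx⟩ := Function.ne_iff.1 hβ0
  have hx0 : β 0 x ≠ 0 := hx
  refine ⟨c, ?_⟩
  have hty := (hsup 0).2 x hx0
  rw [hm0] at hty
  have hxc := hch x hx0
  rw [← hty]
  funext y
  simp only [Pool.Agent.Helper34.SQ.ty]
  by_cases hy : y = c
  · subst hy
    rw [if_pos rfl, Finset.filter_true_of_mem (fun p _ => hxc p)]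
    simp
  · rw [if_neg hy, Finset.filter_false_of_mem]
    · simp
    · intro p _ hp
      exact hy (by rw [← hp, hxc p])

end

end Pool.Agent.Helper84.SQ
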