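import Mathlib
import Pool.Agent.Helper34.SQ.GoalsG

set_option autoImplicit false

namespace Pool.Agent.Helper84.SQ

open Finset Pool.Agent.Helper34.SQ

/-- double counting of the pairs `p ∈ S`. -/
theorem sum_pairs {ι : Type} [DecidableEq ι] (Q : Finset ι) (m : ℕ) (g : Finset ι → ι → ℤ) :
    ∑ S ∈ powersetCard (m + 1) Q, ∑ p ∈ S, g S p =
      ∑ S ∈ powersetCard m Q, ∑ p ∈ Q \ S, g (insert p S) p := by
  rw [Finset.sum_sigma', Finset.sum_sigma']
  refine Finset.sum_bij' (fun x _ => ⟨x.1.erase x.2, x.2⟩) (fun x _ => ⟨insert x.2 x.1, x.2⟩)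
    ?_ ?_ ?_ ?_ ?_
  · rintro ⟨S, p⟩ h
    simp only [mem_sigma, mem_powersetCard, mem_sdiff] at h ⊢
    obtain ⟨⟨h1, h2⟩, h3⟩ := h
    refine ⟨⟨(erase_subset _ _).trans h1, ?_⟩, h1 h3, notMem_erase _ _⟩
    rw [card_erase_of_mem h3, h2]; rfl
  · rintro ⟨S, p⟩ h
    simp only [mem_sigma, mem_powersetCard, mem_sdiff] at h ⊢
    obtain ⟨⟨h1, h2⟩, h3, h4⟩ := h
    refine ⟨⟨insert_subset h3 h1, ?_⟩, mem_insert_self _ _⟩
    rw [card_insert_of_notMem h4, h2]
  · rintro ⟨S, p⟩ h
    simp only [mem_sigma, mem_powersetCard] at h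
    simp only [insert_erase h.2]
  · rintro ⟨S, p⟩ h
    simp only [mem_sigma, mem_powersetCard, mem_sdiff] at h
    simp only [erase_insert h.2.2]
  · rintro ⟨S, p⟩ h
    simp only [mem_sigma, mem_powersetCard] at h
    simp only [insert_erase h.2]

theorem sum_erase_pairs {ι : Type} [DecidableEq ι] (Q : Finset ι) (m : ℕ) (f : Finset ι → ℤ) :
    ∑ S ∈ powersetCard (m + 1) Q, ∑ p ∈ S, f (S.erase p) =
      ((#Q : ℤ) - m) * ∑ S ∈ powersetCard m Q, f S := by
  rw [sum_pairs Q m (fun S p => f (S.erase p)), Finset.mul_sum]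
  refine Finset.sum_congr rfl fun S hS => ?_
  rw [mem_powersetCard] at hS
  have : ∀ p ∈ Q \ S, f ((insert p S).erase p) = f S := by
    intro p hp
    rw [erase_insert (mem_sdiff.1 hp).2]
  rw [Finset.sum_congr rfl this, sum_const, card_sdiff_of_subset hS.1, hS.2, nsmul_eq_mul]
  have hle : m ≤ #Q := hS.2 ▸ card_le_card hS.1
  push_cast [Nat.cast_sub hle]
  ring

theorem sum_insert_pairs {ι : Type} [DecidableEq ι] (Q : Finset ι) (m : ℕ) (f : Finset ι → ℤ) :
    ∑ S ∈ powersetCard m Q, ∑ p ∈ Q \ S, f (insert p S) =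
      ((m : ℤ) + 1) * ∑ S ∈ powersetCard (m + 1) Q, f S := by
  rw [← sum_pairs Q m (fun S _ => f S), Finset.mul_sum]
  refine Finset.sum_congr rfl fun S hS => ?_
  rw [mem_powersetCard] at hS
  rw [sum_const, hS.2, nsmul_eq_mul]
  push_cast
  ring

theorem t_swb : Pool.Agent.Helper34.SQ.S_SWB := by
  intro n l hl c β hE x a h hP hQ
  set P : Finset (Fin n) := {p | ((x p : ℤ) : ZMod l) = c} with hPdef
  set Q : Finset (Fin n) := {p | ((x p : ℤ) : ZMod l) = c + 1} with hQdef
  have h10 : (1 : ZMod l) ≠ 0 := by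
    have : Fact (1 < l) := ⟨hl⟩
    exact one_ne_zero
  have hmP : ∀ p, p ∈ P ↔ ((x p : ℤ) : ZMod l) = c := by intro p; simp [hPdef]
  have hmQ : ∀ p, p ∈ Q ↔ ((x p : ℤ) : ZMod l) = c + 1 := by intro p; simp [hQdef]
  have hPQ : ∀ p, p ∈ P → p ∉ Q := by
    intro p h1 h2
    rw [hmP] at h1
    rw [hmQ, h1] at h2
    exact h10 (by simpa using h2.symm)
  -- the key relation
  have key : ∀ S, S ⊆ Q → ∀ T, T ⊆ P →
      ∑ p ∈ S, β (x - ind (S.erase p) + ind T) +
        ∑ p ∈ P \ T, β (x - ind S + ind (insert p T)) = 0 := by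
    intro S hS T hT
    have h0 := congrFun hE (x - ind S + ind T)
    simp only [Ec, Pi.zero_apply] at h0
    have hdis : Disjoint S (P \ T) := by
      rw [Finset.disjoint_left]
      intro p h1 h2
      exact hPQ p (mem_sdiff.1 h2).1 (hS h1)
    have hfil : ({p | (((x - ind S + ind T) p : ℤ) : ZMod l) = c} : Finset (Fin n)) =
        S ∪ (P \ T) := by
      ext p
      simp only [mem_filter, mem_univ, true_and, mem_union, mem_sdiff, Pi.add_apply,
        Pi.sub_apply, ind]
      by_cases hpS : p ∈ S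
      · have hpT : p ∉ T := fun h' => hPQ p (hT h') (hS hpS)
        have := (hmQ p).1 (hS hpS)
        simp [hpS, hpT, this]
      · by_cases hpT : p ∈ T
        · have hpP := hT hpT
          have := (hmP p).1 hpP
          simp [hpS, hpT, this, h10]
        · simp [hpS, hpT, hmP]
    rw [hfil, sum_union hdis] at h0
    rw [← h0]
    congr 1
    · refine Finset.sum_congr rfl fun p hp => ?_
      congr 1
      funext q
      simp only [Pi.add_apply, Pi.sub_apply, ind, Pi.single_apply, mem_erase]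
      by_cases hqp : q = p
      · subst hqp
        simp [hp]
        ring
      · simp [hqp]
    · refine Finset.sum_congr rfl fun p hp => ?_
      congr 1
      funext q
      have hpT := (mem_sdiff.1 hp).2
      simp only [Pi.add_apply, Pi.sub_apply, ind, Pi.single_apply, mem_insert]
      by_cases hqp : q = p
      · subst hqp
        simp [hpT]
      · simp [hqp]
  let B : ℕ → ℤ := fun k => ∑ S ∈ powersetCard (h + k) Q, ∑ T ∈ powersetCard k P,
    β (x - ind S + ind T)
  have hrec : ∀ k, ((a : ℤ) - k) * B k + ((k : ℤ) + 1) * B (k + 1) = 0 := by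
    intro k
    have hsum : ∑ S ∈ powersetCard (h + k + 1) Q, ∑ T ∈ powersetCard k P,
        (∑ p ∈ S, β (x - ind (S.erase p) + ind T) +
        ∑ p ∈ P \ T, β (x - ind S + ind (insert p T))) = 0 := by
      refine Finset.sum_eq_zero fun S hS => Finset.sum_eq_zero fun T hT => ?_
      exact key S (mem_powersetCard.1 hS).1 T (mem_powersetCard.1 hT).1
    simp only [Finset.sum_add_distrib] at hsum
    have e1 : ∑ S ∈ powersetCard (h + k + 1) Q, ∑ T ∈ powersetCard k P,
        ∑ p ∈ S, β (x - ind (S.erase p) + ind T) = ((a : ℤ) - k) * B k := by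
      have : ∀ S, ∑ T ∈ powersetCard k P, ∑ p ∈ S, β (x - ind (S.erase p) + ind T) =
          ∑ p ∈ S, (fun S' => ∑ T ∈ powersetCard k P, β (x - ind S' + ind T)) (S.erase p) := by
        intro S
        rw [Finset.sum_comm]
      simp only [this]
      rw [sum_erase_pairs Q (h + k) (fun S' => ∑ T ∈ powersetCard k P, β (x - ind S' + ind T)),
        hQ]
      push_cast
      ring_nf
      rfl
    have e2 : ∑ S ∈ powersetCard (h + k + 1) Q, ∑ T ∈ powersetCard k P,
        ∑ p ∈ P \ T, β (x - ind S + ind (insert p T)) = ((k : ℤ) + 1) * B (k + 1) := by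
      show _ = ((k : ℤ) + 1) * ∑ S ∈ powersetCard (h + k + 1) Q, ∑ T ∈ powersetCard (k + 1) P,
        β (x - ind S + ind T)
      rw [Finset.mul_sum]
      refine Finset.sum_congr rfl fun S _ => ?_
      exact sum_insert_pairs P k (fun T => β (x - ind S + ind T))
    rw [e1, e2] at hsum
    exact hsum
  have hB : ∀ k, B k = (-1) ^ k * (a.choose k : ℤ) * B 0 := by
    intro k
    induction k with
    | zero => simp
    | succ k ih =>
      have h1 := hrec k
      rw [ih] at h1
      have hch : ((a.choose (k + 1) : ℕ) : ℤ) * ((k : ℤ) + 1) = (a.choose k : ℤ) * ((a : ℤ) - k) := by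
        rcases le_or_gt k a with hk | hk
        · have := Nat.choose_succ_right_eq a k
          have h2 : ((a.choose (k + 1) * (k + 1) : ℕ) : ℤ) = ((a.choose k * (a - k) : ℕ) : ℤ) := by
            rw [this]
          push_cast [Nat.cast_sub hk] at h2
          exact h2
        · rw [Nat.choose_eq_zero_of_lt hk, Nat.choose_eq_zero_of_lt (by omega)]
          simp
      have hk1 : ((k : ℤ) + 1) ≠ 0 := by positivity
      apply mul_left_cancel₀ hk1
      have h3 : ((k : ℤ) + 1) * B (k + 1) = -(((a : ℤ) - k) * ((-1) ^ k * (a.choose k : ℤ) * B 0)) := by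
        linarith
      rw [h3, pow_succ]
      linear_combination (-1) * (-1) ^ k * B 0 * hch * (-1)
  have hBa := hB a
  rw [Nat.choose_self] at hBa
  have hB0 : B 0 = ∑ S ∈ powersetCard h Q, β (x - ind S) := by
    show ∑ S ∈ powersetCard (h + 0) Q, ∑ T ∈ powersetCard 0 P, β (x - ind S + ind T) = _
    simp only [add_zero, powersetCard_zero, sum_singleton]
    refine Finset.sum_congr rfl fun S _ => ?_
    congr 1
    funext q
    simp [ind]
  have hBa' : B a = β (x - ind Q + ind P) := by
    show ∑ S ∈ powersetCard (h + a) Q, ∑ T ∈ powersetCard a P, β (x - ind S + ind T) = _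
    rw [show h + a = #Q by omega, ← hP, powersetCard_self, powersetCard_self]
    simp
  rw [hBa', hB0] at hBa
  rw [hBa]
  have : ((-1 : ℤ) ^ a) * (-1) ^ a = 1 := by
    rw [← pow_add, ← two_mul, pow_mul]; simp
  push_cast
  linear_combination (-(∑ S ∈ powersetCard h Q, β (x - ind S))) * this

end Pool.Agent.Helper84.SQ
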