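import Pool.Agent.Helper19.SQ.GoalsQ2
import Pool.Agent.Helper19.SQ.GoalsH

set_option autoImplicit false

namespace Pool.Agent.Helper84.SQ

noncomputable section

open Pool.Agent.Helper19.SQ

section gen

variable {B : Type} [Ring B] [Algebra ℂ B]

theorem gen_left (q c α α' : ℂ) (a X x k k' : B) (hX : X * x = x * X)
    (hD : a * x - x * a = c • (k - k')) (hk : k * X = α • (X * k))
    (hk' : k' * X = α' • (X * k')) :
    (a * X - q⁻¹ • (X * a)) * x - x * (a * X - q⁻¹ • (X * a)) =
      c • ((α - q⁻¹) • (X * k) - (α' - q⁻¹) • (X * k')) := by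
  have h1 : a * (X * x) = a * (x * X) := by rw [hX]
  have h2 : x * (X * a) = X * (x * a) := by rw [← mul_assoc, ← hX, mul_assoc]
  have e1 : (a * x - x * a) * X - q⁻¹ • (X * (a * x - x * a)) =
      c • ((α - q⁻¹) • (X * k) - (α' - q⁻¹) • (X * k')) := by
    rw [hD, smul_mul_assoc, mul_smul_comm, sub_mul, mul_sub, hk, hk']
    module
  rw [← e1]
  simp only [sub_mul, mul_sub, smul_mul_assoc, mul_smul_comm, mul_assoc]
  rw [h1, h2]
  module

theorem gen_right (q c α α' : ℂ) (a X x k k' : B) (hX : X * x = x * X)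
    (hD : a * x - x * a = c • (k - k')) (hk : k * X = α • (X * k))
    (hk' : k' * X = α' • (X * k')) :
    (X * a - q⁻¹ • (a * X)) * x - x * (X * a - q⁻¹ • (a * X)) =
      c • ((1 - q⁻¹ * α) • (X * k) - (1 - q⁻¹ * α') • (X * k')) := by
  have h1 : a * (X * x) = a * (x * X) := by rw [hX]
  have h2 : x * (X * a) = X * (x * a) := by rw [← mul_assoc, ← hX, mul_assoc]
  have e1 : X * (a * x - x * a) - q⁻¹ • ((a * x - x * a) * X) =
      c • ((1 - q⁻¹ * α) • (X * k) - (1 - q⁻¹ * α') • (X * k')) := by
    rw [hD, smul_mul_assoc, mul_smul_comm, sub_mul, mul_sub, hk, hk']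
    module
  rw [← e1]
  simp only [sub_mul, mul_sub, smul_mul_assoc, mul_smul_comm, mul_assoc]
  rw [h1, h2]
  module

theorem inn_left (q c : ℂ) (hq : q ≠ 0) (g X x Y k : B) (hg : g * x = x * g)
    (hX : X * x - x * X = c • (Y * k)) (hgY : g * Y = Y * g) (hkg : k * g = q • (g * k)) :
    (g * X - q⁻¹ • (X * g)) * x = x * (g * X - q⁻¹ • (X * g)) := by
  rw [← sub_eq_zero]
  have h1 : X * (g * x) = X * (x * g) := by rw [hg]
  have h2 : x * (g * X) = g * (x * X) := by rw [← mul_assoc, ← hg, mul_assoc]
  have e1 : g * (X * x - x * X) - q⁻¹ • ((X * x - x * X) * g) = 0 := by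
    rw [hX, smul_mul_assoc, mul_smul_comm, mul_assoc Y k g, hkg, mul_smul_comm, ← mul_assoc,
      ← mul_assoc, hgY]
    rw [smul_comm q⁻¹ c, smul_smul q⁻¹ q, inv_mul_cancel₀ hq, one_smul, sub_self]
  rw [← e1]
  simp only [sub_mul, mul_sub, smul_mul_assoc, mul_smul_comm, mul_assoc]
  rw [h1, h2]
  module

theorem inn_right (q c : ℂ) (g X x Y k : B) (hg : g * x = x * g)
    (hX : X * x - x * X = c • (Y * k)) (hgY : g * Y = Y * g) (hkg : k * g = q⁻¹ • (g * k)) :
    (X * g - q⁻¹ • (g * X)) * x = x * (X * g - q⁻¹ • (g * X)) := by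
  rw [← sub_eq_zero]
  have h1 : X * (g * x) = X * (x * g) := by rw [hg]
  have h2 : x * (g * X) = g * (x * X) := by rw [← mul_assoc, ← hg, mul_assoc]
  have e1 : (X * x - x * X) * g - q⁻¹ • (g * (X * x - x * X)) = 0 := by
    rw [hX, smul_mul_assoc, mul_smul_comm, mul_assoc Y k g, hkg, mul_smul_comm, ← mul_assoc,
      ← mul_assoc, hgY]
    rw [smul_comm q⁻¹ c, sub_self]
  rw [← e1]
  simp only [sub_mul, mul_sub, smul_mul_assoc, mul_smul_comm, mul_assoc]
  rw [h1, h2]
  module

/-- a root vector commutes with `x` if its generators do. -/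
theorem rvA_comm (q : ℂ) (E : ℕ → B) (x : B) (d : ℕ) : ∀ i : ℕ,
    (∀ t, i ≤ t → t ≤ i + d → E t * x = x * E t) → rvA q E d i * x = x * rvA q E d i := by
  induction d with
  | zero => intro i h; exact h i le_rfl le_rfl
  | succ d ih =>
    intro i h
    have h1 := ih (i + 1) (fun t h1 h2 => h t (by omega) (by omega))
    have h2 := h i le_rfl (by omega)
    have c1 : Commute (rvA q E d (i + 1)) x := h1
    have c2 : Commute (E i) x := h2
    have : Commute (rvA q E (d + 1) i) x := by
      simp only [rvA]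
      exact (c2.mul_left c1).sub_left ((c1.mul_left c2).smul_left _)
    exact this

theorem rvoA_comm (q : ℂ) (E : ℕ → B) (x : B) (d : ℕ) : ∀ i : ℕ,
    (∀ t, i ≤ t → t ≤ i + d → E t * x = x * E t) → rvoA q E d i * x = x * rvoA q E d i := by
  induction d with
  | zero => intro i h; exact h i le_rfl le_rfl
  | succ d ih =>
    intro i h
    have h1 := ih (i + 1) (fun t h1 h2 => h t (by omega) (by omega))
    have h2 := h i le_rfl (by omega)
    have c1 : Commute (rvoA q E d (i + 1)) x := h1
    have c2 : Commute (E i) x := h2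
    have : Commute (rvoA q E (d + 1) i) x := by
      simp only [rvoA]
      exact (c1.mul_left c2).sub_left ((c2.mul_left c1).smul_left _)
    exact this

theorem rv_comm (q : ℂ) (E : ℕ → B) (x : B) (i j : ℕ) (hij : i < j)
    (h : ∀ t, i ≤ t → t < j → E t * x = x * E t) : rv q E i j * x = x * rv q E i j :=
  rvA_comm q E x _ i fun t h1 h2 => h t h1 (by omega)

theorem rvo_comm (q : ℂ) (E : ℕ → B) (x : B) (i j : ℕ) (hij : i < j)
    (h : ∀ t, i ≤ t → t < j → E t * x = x * E t) : rvo q E i j * x = x * rvo q E i j :=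
  rvoA_comm q E x _ i fun t h1 h2 => h t h1 (by omega)

theorem rv_base (q : ℂ) (E : ℕ → B) (i : ℕ) : rv q E i (i + 1) = E i := by
  simp [rv, rvA]

theorem rvo_base (q : ℂ) (E : ℕ → B) (i : ℕ) : rvo q E i (i + 1) = E i := by
  simp [rvo, rvoA]

theorem rv_rec (q : ℂ) (E : ℕ → B) (i j : ℕ) (h : i + 2 ≤ j) :
    rv q E i j = E i * rv q E (i + 1) j - q⁻¹ • (rv q E (i + 1) j * E i) := by
  have : j - i - 1 = (j - (i + 1) - 1) + 1 := by omega
  simp only [rv]
  rw [this, rvA]

theorem rvo_rec (q : ℂ) (E : ℕ → B) (i j : ℕ) (h : i + 2 ≤ j) :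
    rvo q E i j = rvo q E (i + 1) j * E i - q⁻¹ • (E i * rvo q E (i + 1) j) := by
  have : j - i - 1 = (j - (i + 1) - 1) + 1 := by omega
  simp only [rvo]
  rw [this, rvoA]

theorem kk_mul (q : ℂ) (hq : q ≠ 0) (l : ℕ) (K : ℕ → B) (R : B) (p r : ℕ) (u v : ℤ)
    (h1 : K p * R = q ^ u • (R * K p)) (h2 : ki l K r * R = q ^ v • (R * ki l K r)) (w : ℂ)
    (hw : w = q ^ (u + v)) :
    kk l K p r * R = w • (R * kk l K p r) := by
  rw [kk, mul_assoc, h2, mul_smul_comm, ← mul_assoc, h1, smul_mul_assoc, smul_smul, hw,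
    zpow_add₀ hq, mul_assoc, mul_comm (q ^ v)]

end gen

section par

variable {N l : ℕ} {q : ℂ}

theorem par_q0 (h : Par N l q) : q ≠ 0 := by
  have h3 := h.h3
  exact h.prim.ne_zero (by omega)

theorem par_q2 (h : Par N l q) : q ^ 2 ≠ -1 := by
  intro h1
  have h4 : q ^ 4 = 1 := by
    rw [show (4 : ℕ) = 2 * 2 by norm_num, pow_mul, h1]; norm_num
  have h5 := h.prim.dvd_of_pow_eq_one 4 h4
  have h3 := h.h3
  have ho := h.odd
  have hle : l ≤ 4 := Nat.le_of_dvd (by norm_num) h5
  interval_cases l
  · norm_num at h5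
  · exact absurd ho (by decide)

theorem par_qq (h : Par N l q) : q - q⁻¹ ≠ 0 := by
  intro h1
  have h0 := par_q0 h
  have h2 : q ^ 2 = 1 := by
    have h3 : q = q⁻¹ := sub_eq_zero.1 h1
    calc q ^ 2 = q * q := by ring
      _ = q * q⁻¹ := by rw [← h3]
      _ = 1 := mul_inv_cancel₀ h0
  have h5 := h.prim.dvd_of_pow_eq_one 2 h2
  have h3 := h.h3
  have := Nat.le_of_dvd (by norm_num) h5
  omega

theorem par_sc (h : Par N l q) : (q - q⁻¹)⁻¹ * (1 - q⁻¹ * q⁻¹) = q⁻¹ := by
  have hq := par_q0 h
  have e : 1 - q⁻¹ * q⁻¹ = (q - q⁻¹) * q⁻¹ := by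
    rw [sub_mul, mul_inv_cancel₀ hq]
  rw [e, ← mul_assoc, inv_mul_cancel₀ (par_qq h), one_mul]

end par

theorem sCM1 (hROOT : S_ROOT) (hKG : S_KG) (hKI : S_KI) :
    Pool.Agent.Helper19.SQ.S_CM1 := by
  intro B _ _ N l q E F K hP hG
  have hq := par_q0 hP
  have hqq := par_qq hP
  have hl1 : 1 ≤ l := by have := hP.h3; omega
  have hR := hROOT B q E hq (par_q2 hP) hG.sE
  obtain ⟨_, _, hki, _⟩ := hKI B l K hl1 hG.K_comm hG.K_pow
  have hKG' := hKG B N l q E F K hl1 hq hG
  have hEF : ∀ i, i < N → E i * F i - F i * E i =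
      (q - q⁻¹)⁻¹ • (kk l K i (i + 1) - kk l K (i + 1) i) := by
    intro i hi
    rw [hG.EF i hi]
    congr 2
    exact (hki (i + 1) i).symm
  -- (b)
  have hb : ∀ i j, i + 2 ≤ j → j ≤ N → rv q E i j * F i - F i * rv q E i j
      = -(rv q E (i + 1) j * kk l K (i + 1) i) := by
    intro i j hij hj
    have hX : rv q E (i + 1) j * F i = F i * rv q E (i + 1) j :=
      rv_comm q E (F i) (i + 1) j (by omega) fun t h1 _ => hG.EF_ne t i (by omega)
    have hk : kk l K i (i + 1) * rv q E (i + 1) j
        = q⁻¹ • (rv q E (i + 1) j * kk l K i (i + 1)) := by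
      refine kk_mul q hq l K _ i (i + 1) _ _ (hKG' i (i + 1) j (by omega)).1.1
        (hKG' (i + 1) (i + 1) j (by omega)).1.2 _ ?_
      have : ew i (i + 1) j + -ew (i + 1) (i + 1) j = -1 := by
        simp only [ew]; split_ifs <;> omega
      rw [this, zpow_neg_one]
    have hk' : kk l K (i + 1) i * rv q E (i + 1) j
        = q • (rv q E (i + 1) j * kk l K (i + 1) i) := by
      refine kk_mul q hq l K _ (i + 1) i _ _ (hKG' (i + 1) (i + 1) j (by omega)).1.1
        (hKG' i (i + 1) j (by omega)).1.2 _ ?_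
      have : ew (i + 1) (i + 1) j + -ew i (i + 1) j = 1 := by
        simp only [ew]; split_ifs <;> omega
      rw [this, zpow_one]
    rw [rv_rec q E i j hij, gen_left q _ _ _ _ _ _ _ _ hX (hEF i (by omega)) hk hk', sub_self,
      zero_smul, zero_sub, smul_neg, smul_smul, inv_mul_cancel₀ hqq, one_smul]
  refine ⟨?_, hb, ?_⟩
  · -- (a)
    have key : ∀ n i j k, k = i + 1 + n → k + 1 < j → j ≤ N →
        rv q E i j * F k = F k * rv q E i j := by
      intro n
      induction n with
      | zero =>
        intro i j k hk hkj hj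
        have hk' : k = i + 1 := by omega
        subst hk'
        rw [rv_rec q E i j (by omega)]
        refine inn_left q (-1) hq (E i) (rv q E (i + 1) j) (F (i + 1)) (rv q E (i + 2) j)
          (kk l K (i + 2) (i + 1)) (hG.EF_ne i (i + 1) (by omega)) ?_ ?_ ?_
        · rw [hb (i + 1) j (by omega) hj, neg_one_smul]
        · exact hR.R2 i (i + 2) j (by omega) (Or.inl (by omega))
        · rw [← rv_base q E i]
          refine kk_mul q hq l K _ (i + 2) (i + 1) _ _ (hKG' (i + 2) i (i + 1) (by omega)).1.1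
            (hKG' (i + 1) i (i + 1) (by omega)).1.2 _ ?_
          have : ew (i + 2) i (i + 1) + -ew (i + 1) i (i + 1) = 1 := by
            simp only [ew]; split_ifs <;> omega
          rw [this, zpow_one]
      | succ n ih =>
        intro i j k hk hkj hj
        have h1 := ih (i + 1) j k (by omega) hkj hj
        have h2 := hG.EF_ne i k (by omega)
        have c1 : Commute (rv q E (i + 1) j) (F k) := h1
        have c2 : Commute (E i) (F k) := h2
        rw [rv_rec q E i j (by omega)]
        exact (c2.mul_left c1).sub_left ((c1.mul_left c2).smul_left _)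
    intro i j k hij hj hki' hkj
    rcases lt_or_gt_of_ne hki' with h | h
    · exact rv_comm q E (F k) i j hij fun t h1 _ => hG.EF_ne t k (by omega)
    · rcases lt_or_gt_of_ne hkj with h' | h'
      · exact key (k - (i + 1)) i j k (by omega) h' hj
      · exact rv_comm q E (F k) i j hij fun t _ h2 => hG.EF_ne t k (by omega)
  · -- (c)
    intro i j hij hj
    have hX : rv q E i j * F j = F j * rv q E i j :=
      rv_comm q E (F j) i j hij fun t _ h2 => hG.EF_ne t j (by omega)
    have hk : kk l K j (j + 1) * rv q E i j = q⁻¹ • (rv q E i j * kk l K j (j + 1)) := by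
      refine kk_mul q hq l K _ j (j + 1) _ _ (hKG' j i j hij).1.1 (hKG' (j + 1) i j hij).1.2 _ ?_
      have : ew j i j + -ew (j + 1) i j = -1 := by
        simp only [ew]; split_ifs <;> omega
      rw [this, zpow_neg_one]
    have hk' : kk l K (j + 1) j * rv q E i j = q • (rv q E i j * kk l K (j + 1) j) := by
      refine kk_mul q hq l K _ (j + 1) j _ _ (hKG' (j + 1) i j hij).1.1 (hKG' j i j hij).1.2 _ ?_
      have : ew (j + 1) i j + -ew j i j = 1 := by
        simp only [ew]; split_ifs <;> omega
      rw [this, zpow_one]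
    rw [hR.R3 i j hij, gen_right q _ _ _ _ _ _ _ _ hX (hEF j (by omega)) hk hk',
      inv_mul_cancel₀ hq, sub_self, zero_smul, sub_zero, smul_smul, par_sc hP]

theorem sCM2 (hROOT : S_ROOT) (hRO : S_RO) (hKG : S_KG) (hKI : S_KI) :
    Pool.Agent.Helper19.SQ.S_CM2 := by
  intro B _ _ N l q E F K hP hG
  have hq := par_q0 hP
  have hqq := par_qq hP
  have hl1 : 1 ≤ l := by have := hP.h3; omega
  have hR := hROOT B q F hq (par_q2 hP) hG.sF
  obtain ⟨hO1, hO2, _, _, _⟩ := hRO B q F hq (par_q2 hP) hG.sF
  obtain ⟨_, _, hki, _⟩ := hKI B l K hl1 hG.K_comm hG.K_pow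
  have hKG' := hKG B N l q E F K hl1 hq hG
  have hFE : ∀ i, i < N → F i * E i - E i * F i =
      (-(q - q⁻¹)⁻¹) • (kk l K i (i + 1) - kk l K (i + 1) i) := by
    intro i hi
    rw [← neg_sub, hG.EF i hi, neg_smul]
    congr 3
    exact (hki (i + 1) i).symm
  have hne : ∀ i k, i ≠ k → F i * E k = E k * F i := fun i k h => (hG.EF_ne k i h.symm).symm
  refine ⟨?_, ?_⟩
  · have hb : ∀ i j, i + 2 ≤ j → j ≤ N → rv q F i j * E i - E i * rv q F i j
        = -(rv q F (i + 1) j * kk l K i (i + 1)) := by
      intro i j hij hj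
      have hX : rv q F (i + 1) j * E i = E i * rv q F (i + 1) j :=
        rv_comm q F (E i) (i + 1) j (by omega) fun t h1 _ => hne t i (by omega)
      have hk : kk l K i (i + 1) * rv q F (i + 1) j
          = q • (rv q F (i + 1) j * kk l K i (i + 1)) := by
        refine kk_mul q hq l K _ i (i + 1) _ _ (hKG' i (i + 1) j (by omega)).2.1.1
          (hKG' (i + 1) (i + 1) j (by omega)).2.1.2 _ ?_
        have : -ew i (i + 1) j + ew (i + 1) (i + 1) j = 1 := by
          simp only [ew]; split_ifs <;> omega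
        rw [this, zpow_one]
      have hk' : kk l K (i + 1) i * rv q F (i + 1) j
          = q⁻¹ • (rv q F (i + 1) j * kk l K (i + 1) i) := by
        refine kk_mul q hq l K _ (i + 1) i _ _ (hKG' (i + 1) (i + 1) j (by omega)).2.1.1
          (hKG' i (i + 1) j (by omega)).2.1.2 _ ?_
        have : -ew (i + 1) (i + 1) j + ew i (i + 1) j = -1 := by
          simp only [ew]; split_ifs <;> omega
        rw [this, zpow_neg_one]
      rw [rv_rec q F i j hij, gen_left q _ _ _ _ _ _ _ _ hX (hFE i (by omega)) hk hk', sub_self,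
        zero_smul, sub_zero, smul_smul, neg_mul, inv_mul_cancel₀ hqq, neg_one_smul]
    have key : ∀ n i j k, k = i + 1 + n → k + 1 < j → j ≤ N →
        rv q F i j * E k = E k * rv q F i j := by
      intro n
      induction n with
      | zero =>
        intro i j k hk hkj hj
        have hk' : k = i + 1 := by omega
        subst hk'
        rw [rv_rec q F i j (by omega)]
        refine inn_left q (-1) hq (F i) (rv q F (i + 1) j) (E (i + 1)) (rv q F (i + 2) j)
          (kk l K (i + 1) (i + 2)) (hne i (i + 1) (by omega)) ?_ ?_ ?_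
        · rw [hb (i + 1) j (by omega) hj, neg_one_smul]
        · exact hR.R2 i (i + 2) j (by omega) (Or.inl (by omega))
        · rw [← rv_base q F i]
          refine kk_mul q hq l K _ (i + 1) (i + 2) _ _ (hKG' (i + 1) i (i + 1) (by omega)).2.1.1
            (hKG' (i + 2) i (i + 1) (by omega)).2.1.2 _ ?_
          have : -ew (i + 1) i (i + 1) + ew (i + 2) i (i + 1) = 1 := by
            simp only [ew]; split_ifs <;> omega
          rw [this, zpow_one]
      | succ n ih =>
        intro i j k hk hkj hj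
        have h1 := ih (i + 1) j k (by omega) hkj hj
        have h2 := hne i k (by omega)
        have c1 : Commute (rv q F (i + 1) j) (E k) := h1
        have c2 : Commute (F i) (E k) := h2
        rw [rv_rec q F i j (by omega)]
        exact (c2.mul_left c1).sub_left ((c1.mul_left c2).smul_left _)
    refine ⟨?_, ?_, ?_⟩
    · intro i j k hij hj hki' hkj
      symm
      rcases lt_or_gt_of_ne hki' with h | h
      · exact rv_comm q F (E k) i j hij fun t h1 _ => hne t k (by omega)
      · rcases lt_or_gt_of_ne hkj with h' | h'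
        · exact key (k - (i + 1)) i j k (by omega) h' hj
        · exact rv_comm q F (E k) i j hij fun t _ h2 => hne t k (by omega)
    · intro i j hij hj
      rw [← neg_sub, hb i j hij hj, neg_neg]
    · intro i j hij hj
      have hX : rv q F i j * E j = E j * rv q F i j :=
        rv_comm q F (E j) i j hij fun t _ h2 => hne t j (by omega)
      have hk : kk l K j (j + 1) * rv q F i j = q • (rv q F i j * kk l K j (j + 1)) := by
        refine kk_mul q hq l K _ j (j + 1) _ _ (hKG' j i j hij).2.1.1
          (hKG' (j + 1) i j hij).2.1.2 _ ?_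
        have : -ew j i j + ew (j + 1) i j = 1 := by
          simp only [ew]; split_ifs <;> omega
        rw [this, zpow_one]
      have hk' : kk l K (j + 1) j * rv q F i j = q⁻¹ • (rv q F i j * kk l K (j + 1) j) := by
        refine kk_mul q hq l K _ (j + 1) j _ _ (hKG' (j + 1) i j hij).2.1.1
          (hKG' j i j hij).2.1.2 _ ?_
        have : -ew (j + 1) i j + ew j i j = -1 := by
          simp only [ew]; split_ifs <;> omega
        rw [this, zpow_neg_one]
      rw [← neg_sub, hR.R3 i j hij, gen_right q _ _ _ _ _ _ _ _ hX (hFE j (by omega)) hk hk',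
        inv_mul_cancel₀ hq, sub_self, zero_smul, zero_sub, smul_neg, neg_neg, smul_smul,
        neg_mul, par_sc hP, neg_smul]
  · have hb : ∀ i j, i + 2 ≤ j → j ≤ N → rvo q F i j * E i - E i * rvo q F i j
        = q⁻¹ • (rvo q F (i + 1) j * kk l K (i + 1) i) := by
      intro i j hij hj
      have hX : rvo q F (i + 1) j * E i = E i * rvo q F (i + 1) j :=
        rvo_comm q F (E i) (i + 1) j (by omega) fun t h1 _ => hne t i (by omega)
      have hk : kk l K i (i + 1) * rvo q F (i + 1) j
          = q • (rvo q F (i + 1) j * kk l K i (i + 1)) := by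
        refine kk_mul q hq l K _ i (i + 1) _ _ (hKG' i (i + 1) j (by omega)).2.2.1
          (hKG' (i + 1) (i + 1) j (by omega)).2.2.2 _ ?_
        have : -ew i (i + 1) j + ew (i + 1) (i + 1) j = 1 := by
          simp only [ew]; split_ifs <;> omega
        rw [this, zpow_one]
      have hk' : kk l K (i + 1) i * rvo q F (i + 1) j
          = q⁻¹ • (rvo q F (i + 1) j * kk l K (i + 1) i) := by
        refine kk_mul q hq l K _ (i + 1) i _ _ (hKG' (i + 1) (i + 1) j (by omega)).2.2.1
          (hKG' i (i + 1) j (by omega)).2.2.2 _ ?_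
        have : -ew (i + 1) (i + 1) j + ew i (i + 1) j = -1 := by
          simp only [ew]; split_ifs <;> omega
        rw [this, zpow_neg_one]
      rw [rvo_rec q F i j hij, gen_right q _ _ _ _ _ _ _ _ hX (hFE i (by omega)) hk hk',
        inv_mul_cancel₀ hq, sub_self, zero_smul, zero_sub, smul_neg, smul_smul, neg_mul,
        par_sc hP, neg_smul, neg_neg]
    have key : ∀ n i j k, k = i + 1 + n → k + 1 < j → j ≤ N →
        rvo q F i j * E k = E k * rvo q F i j := by
      intro n
      induction n with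
      | zero =>
        intro i j k hk hkj hj
        have hk' : k = i + 1 := by omega
        subst hk'
        rw [rvo_rec q F i j (by omega)]
        refine inn_right q q⁻¹ (F i) (rvo q F (i + 1) j) (E (i + 1)) (rvo q F (i + 2) j)
          (kk l K (i + 2) (i + 1)) (hne i (i + 1) (by omega)) ?_ ?_ ?_
        · rw [hb (i + 1) j (by omega) hj]
        · exact hO1 (i + 2) j i (by omega) (Or.inl (by omega))
        · rw [← rvo_base q F i]
          refine kk_mul q hq l K _ (i + 2) (i + 1) _ _ (hKG' (i + 2) i (i + 1) (by omega)).2.2.1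
            (hKG' (i + 1) i (i + 1) (by omega)).2.2.2 _ ?_
          have : -ew (i + 2) i (i + 1) + ew (i + 1) i (i + 1) = -1 := by
            simp only [ew]; split_ifs <;> omega
          rw [this, zpow_neg_one]
      | succ n ih =>
        intro i j k hk hkj hj
        have h1 := ih (i + 1) j k (by omega) hkj hj
        have h2 := hne i k (by omega)
        have c1 : Commute (rvo q F (i + 1) j) (E k) := h1
        have c2 : Commute (F i) (E k) := h2
        rw [rvo_rec q F i j (by omega)]
        exact (c1.mul_left c2).sub_left ((c2.mul_left c1).smul_left _)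
    refine ⟨?_, ?_, ?_⟩
    · intro i j k hij hj hki' hkj
      symm
      rcases lt_or_gt_of_ne hki' with h | h
      · exact rvo_comm q F (E k) i j hij fun t h1 _ => hne t k (by omega)
      · rcases lt_or_gt_of_ne hkj with h' | h'
        · exact key (k - (i + 1)) i j k (by omega) h' hj
        · exact rvo_comm q F (E k) i j hij fun t _ h2 => hne t k (by omega)
    · intro i j hij hj
      rw [← neg_sub, hb i j hij hj]
    · intro i j hij hj
      have hX : rvo q F i j * E j = E j * rvo q F i j :=
        rvo_comm q F (E j) i j hij fun t _ h2 => hne t j (by omega)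
      have hk : kk l K j (j + 1) * rvo q F i j = q • (rvo q F i j * kk l K j (j + 1)) := by
        refine kk_mul q hq l K _ j (j + 1) _ _ (hKG' j i j hij).2.2.1
          (hKG' (j + 1) i j hij).2.2.2 _ ?_
        have : -ew j i j + ew (j + 1) i j = 1 := by
          simp only [ew]; split_ifs <;> omega
        rw [this, zpow_one]
      have hk' : kk l K (j + 1) j * rvo q F i j = q⁻¹ • (rvo q F i j * kk l K (j + 1) j) := by
        refine kk_mul q hq l K _ (j + 1) j _ _ (hKG' (j + 1) i j hij).2.2.1
          (hKG' j i j hij).2.2.2 _ ?_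
        have : -ew (j + 1) i j + ew j i j = -1 := by
          simp only [ew]; split_ifs <;> omega
        rw [this, zpow_neg_one]
      rw [← neg_sub, hO2 i j hij, gen_left q _ _ _ _ _ _ _ _ hX (hFE j (by omega)) hk hk',
        sub_self, zero_smul, sub_zero, smul_smul, neg_mul, inv_mul_cancel₀ hqq, neg_one_smul,
        neg_neg]

end

end Pool.Agent.Helper84.SQ
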