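import Pool.Agent.Helper84.SQ.Alg
import Pool.Agent.Helper73.FR.PTC

/-!
# Separable indefinite quadratic integer programs: goals, part C (polynomial time)

Tools: `Pool/Agent/Helper81/Comp*.lean` (`PolyTime.list_map`, `PolyTime.foldl_bd`,
`PolyTime.foldl_inv`, `PolyTime.iterate_bd`, `PolyTime.find?`, `PolyTime.all`, …),
`Pool/Agent/Helper59/Bin.lean` (binary numbers), `Pool.Agent.Helper92.FR.Num` (`Qn`),
`Pool.Agent.Helper73.FR.PTC` (`cut`, `cen`, `cini`, `dot`) and
`Pool.Agent.Helper93.FR.PTS` (`Inv`, `inv_cut`, `inv_iter`, `inv_sz`: the sizes of the states of the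
cutting plane method, for an arbitrary cut). A composition of `PolyTime` functions is `PolyTime`,
whatever the sizes; bounds are only needed for `foldl` and `iterate`.
-/

namespace Pool.Agent.Helper84.SQ

open Pool.Agent.Helper81.CC Pool.Agent.Bin
open Pool.Agent.Helper92.FR (Qn Cst dot cut cini cen)
open Pool.Agent.Helper45.SQP (Inst TUInst Correct Code Output)

variable {α : Type} [ToData α]

@[fun_prop] theorem PT_zadd {f g : α → Zn} (hf : PolyTime f) (hg : PolyTime g) :
    PolyTime (fun a => Zn.add (f a) (g a)) := by unfold Zn.add; fun_prop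
@[fun_prop] theorem PT_zneg {f : α → Zn} (hf : PolyTime f) :
    PolyTime (fun a => Zn.neg (f a)) := by unfold Zn.neg; fun_prop
@[fun_prop] theorem PT_zmul {f g : α → Zn} (hf : PolyTime f) (hg : PolyTime g) :
    PolyTime (fun a => Zn.mul (f a) (g a)) := by unfold Zn.mul; fun_prop
@[fun_prop] theorem PT_zle {f g : α → Zn} (hf : PolyTime f) (hg : PolyTime g) :
    PolyTime (fun a => Zn.le (f a) (g a)) := by unfold Zn.le; fun_prop
@[fun_prop] theorem PT_zsum {f : α → List Zn} (hf : PolyTime f) :
    PolyTime (fun a => Zn.sum (f a)) := by unfold Zn.sum; fun_prop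
@[fun_prop] theorem PT_zq {f : α → Zn} (hf : PolyTime f) :
    PolyTime (fun a => Zn.q (f a)) := by unfold Zn.q; fun_prop
@[fun_prop] theorem PT_flz {f : α → Qn} (hf : PolyTime f) :
    PolyTime (fun a => flz (f a)) := by unfold flz; fun_prop
@[fun_prop] theorem PT_rnd {f : α → Qn} (hf : PolyTime f) :
    PolyTime (fun a => rnd (f a)) := by unfold rnd; fun_prop
@[fun_prop] theorem PT_slp {c : α → BN × Zn} {x : α → Qn} (hc : PolyTime c) (hx : PolyTime x) :
    PolyTime (fun a => slp (c a) (x a)) := by unfold slp; fun_prop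
@[fun_prop] theorem PT_off {c : α → BN × Zn} {x : α → Qn} (hc : PolyTime c) (hx : PolyTime x) :
    PolyTime (fun a => off (c a) (x a)) := by unfold off; fun_prop
@[fun_prop] theorem PT_fh {F : α → Obj} {x : α → List Qn} (hF : PolyTime F) (hx : PolyTime x) :
    PolyTime (fun a => fh (F a) (x a)) := by unfold fh; fun_prop
@[fun_prop] theorem PT_grd {F : α → Obj} {x : α → List Qn} (hF : PolyTime F) (hx : PolyTime x) :
    PolyTime (fun a => grd (F a) (x a)) := by unfold grd; fun_prop
@[fun_prop] theorem PT_okr {D : α → ℕ} {x : α → List Qn} {r : α → Row} (hD : PolyTime D)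
    (hx : PolyTime x) (hr : PolyTime r) : PolyTime (fun a => okr (D a) (x a) (r a)) := by
  unfold okr; fun_prop
@[fun_prop] theorem PT_orc {D : α → ℕ} {R : α → List Row} {F : α → Obj} {x : α → List Qn}
    (hD : PolyTime D) (hR : PolyTime R) (hF : PolyTime F) (hx : PolyTime x) :
    PolyTime (fun a => orc (D a) (R a) (F a) (x a)) := by
  unfold orc; fun_prop
@[fun_prop] theorem PT_pD {N : α → ℕ} (hN : PolyTime N) : PolyTime (fun a => pD (N a)) := by
  unfold pD; fun_prop
@[fun_prop] theorem PT_pT {N : α → ℕ} (hN : PolyTime N) : PolyTime (fun a => pT (N a)) := by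
  unfold pT; fun_prop

/-- PTA. The states and the best centroid. Proof: as `Pool.Agent.Helper93.FR.pts`: `iterate_bd` with
the invariant `Inv` of that file. -/
def PtaStmt : Prop := ∀ (α : Type) [ToData α] (N d k : α → ℕ) (R : α → List Row) (F : α → Obj),
  PolyTime N → PolyTime d → PolyTime k → PolyTime R → PolyTime F →
  PolyTime (fun a => stt (N a) (d a) (R a) (F a) (k a)) ∧
  PolyTime (fun a => bst (N a) (d a) (R a) (F a)) ∧
  PolyTime (fun a => optv (N a) (d a) (R a) (F a))

/-- PTB. The solver. Proof (may assume PTA): `foldl_inv` (or `foldl_bd`); the entries of both lists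
of a state are entries of the lists of the first state or zero, and the lengths do not change. -/
def PtbStmt : Prop := ∀ (α : Type) [ToData α] (N d i : α → ℕ) (R : α → List Row) (F : α → Obj),
  PolyTime N → PolyTime d → PolyTime i → PolyTime R → PolyTime F →
  PolyTime (fun a => solve (N a) (d a) (R a) (F a)) ∧
  PolyTime (fun a => cmin (N a) (d a) (R a) (i a)) ∧
  PolyTime (fun a => cmax (N a) (d a) (R a) (i a))

/-- PTC. The slices (for fixed `K` and `p`). Proof (may assume PTB): compositions, induction on
`p`. -/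
def PtcStmt : Prop := ∀ (p K : ℕ) (α : Type) [ToData α] (N d i : α → ℕ) (V : α → List ℕ)
  (R : α → List Row) (F : α → Obj) (G : α → List (Zn × Zn)),
  PolyTime N → PolyTime d → PolyTime i → PolyTime V → PolyTime R → PolyTime F → PolyTime G →
  PolyTime (fun a => split (N a) (d a) K (i a) (R a)) ∧
  PolyTime (fun a => leaves (N a) (d a) K (V a) (R a) p) ∧
  PolyTime (fun a => appr (N a) (d a) K p (V a) (R a) (F a) (G a))

/-- PTD. The algorithm on codes. Proof (may assume PTC): compositions. -/
def PtdStmt : Prop := ∀ p K : ℕ, PolyTime (fun c : Code => outC (alg p K c))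

/-- PTE. The algorithm on instances. Proof (may assume PTD). The value of `icode z` is
`intCode (Zn.val z)`, so `(out o).code = outC o`. The encoding of an instance is
`encOf Code I.code`, and the encoding of an output `encOf _ o.code`; see `satInst_scomp` and
`scomp_isUnb` of `Pool.Agent.Helper45.SQP.Hard` for the technique (`PolyTime.scomp`,
`SComp.computable`). -/
def PteStmt : Prop := ∀ p K : ℕ,
  PolyTimeComputable (fun I : TUInst p => I.1.enc) Output.enc
    (fun I => out (alg p K I.1.code))

end Pool.Agent.Helper84.SQ
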