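import Pool.Agent.Helper84.SQ.Alg

/-!
# At most one concave variable: the report of unboundedness

`unb1` looks for a ray along which only linear variables change and the objective decreases, `unb2`
for a point with a very negative objective in one of the two slices `x_v = ± 2 ^ (6 E)`,
`E = 12 s ^ 2`, of a very large box.
-/

namespace Pool.Agent.Helper84.SQ

open Pool.Agent.Helper81.CC Pool.Agent.Bin
open Pool.Agent.Helper92.FR (Qn Cst dot cut cini cen)
open Pool.Agent.Helper45.SQP (Code)

/-- The exponent `E`. -/
def eE (s : ℕ) : ℕ := 12 * s ^ 2

/-- The homogeneous system, with `r_j = 0` for the nonlinear variables and `|r_j| ≤ 1` for the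
others. -/
def homC (c : Code) : List Row := (rowsC c).map (fun r => (r.1, Zn.zero)) ++ boxR c.2.length
  (c.2.map fun e => if (e.2.1.1 || e.2.1.2) = true then Zn.zero else Zn.neg Zn.one,
    c.2.map fun e => if (e.2.1.1 || e.2.1.2) = true then Zn.zero else Zn.one)

/-- The linear part of the objective. -/
def linC (c : Code) : Obj := c.2.map fun e => (⟨0⟩, zof e.1)

/-- The linear part of the objective, as a list of integers. -/
def linG (c : Code) : List (Zn × Zn) := c.2.map fun e => (Zn.zero, zof e.1)

/-- Is there a decreasing ray of the linear variables? -/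
def unb1 (c : Code) : Bool :=
  ((solve (szC c + 2) c.2.length (homC c) (linC c)).map fun x =>
    !Zn.le Zn.zero (gv (linG c) x)).getD false

/-- The slice `x_v = t` of the box of the size `2 ^ (8 E)`. -/
def slcC (c : Code) (v : ℕ) (t : Zn) : List Row :=
  (rowsC c ++ boxR c.2.length (List.replicate c.2.length (⟨0⟩, BN.pow2 (8 * eE (szC c))),
    List.replicate c.2.length (BN.pow2 (8 * eE (szC c)), ⟨0⟩))) ++ fixR c.2.length v t

/-- Is there a point with a very negative objective in the slice? -/
def tstC (c : Code) (v : ℕ) (t : Zn) : Bool :=
  ((solve (8 * eE (szC c) + 2) c.2.length (slcC c v t) (fobC c)).map fun x =>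
    !Zn.le (⟨0⟩, BN.pow2 (3 * eE (szC c))) (gv (gobC c) x)).getD false

/-- Is there a point with a very negative objective in one of the two slices? -/
def unb2 (c : Code) : Bool := (vinC c).any fun v =>
  tstC c v (BN.pow2 (6 * eE (szC c)), ⟨0⟩) || tstC c v (⟨0⟩, BN.pow2 (6 * eE (szC c)))

/-- The complete algorithm for at most one concave variable. -/
def alg1 (K : ℕ) (c : Code) : Option (Option (List Zn)) :=
  (alg 1 K c).map fun x => if (unb1 c || unb2 c) = true then none else some x

/-- The code of the output. -/
def outC1 (o : Option (Option (List Zn))) : Option (Option (List (Bool × List Bool))) :=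
  o.map fun p => p.map fun l => l.map icode

/-- The output. -/
def out1 (o : Option (Option (List Zn))) : Pool.Agent.Helper45.SQP.Output :=
  match o with
  | none => .infeasible
  | some none => .unbounded
  | some (some l) => .point (l.map Zn.val)

end Pool.Agent.Helper84.SQ
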