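import Pool.Agent.Helper84.SQ.GoalsB
import Pool.Agent.Helper84.SQ.GoalsC
import Pool.Agent.Helper84.SQ.Alg1

/-!
# Separable indefinite quadratic integer programs: goals, part D (one concave variable)

The report of unboundedness for at most one concave variable. All goals are independent: any goal
may assume any other goal (also of the parts A, B, C) as a hypothesis.
-/

namespace Pool.Agent.Helper84.SQ

open Pool.Agent.Helper81.CC Pool.Agent.Bin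
open Pool.Agent.Helper92.FR (Qn Cst dot cut cini cen lv)
open Pool.Agent.Helper45.SQP (Inst TUInst Correct Code Output)

noncomputable section

/-- The real points of `W x ≤ w`. -/
def FeaR {m n : ℕ} (W : Matrix (Fin m) (Fin n) ℤ) (w : Fin m → ℤ) : Set (Fin n → ℝ) :=
  {x | ∀ i, ∑ j, (W i j : ℝ) * x j ≤ w i}

/-- The convex part of the objective. -/
def gR {n : ℕ} (q h : Fin n → ℤ) (x : Fin n → ℝ) : ℝ := ∑ j, ((q j : ℝ) * x j ^ 2 + h j * x j)

/-- The data are bounded in terms of `s`. -/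
structure Sm {m n : ℕ} (s : ℕ) (W : Matrix (Fin m) (Fin n) ℤ) (w : Fin m → ℤ) (q h : Fin n → ℤ) :
    Prop where
  s2 : 2 ≤ s
  ms : m ≤ s
  ns : n ≤ s
  W1 : ∀ i j, |W i j| ≤ 1
  ws : ∀ i, |w i| ≤ 2 ^ s
  q0 : ∀ j, 0 ≤ q j
  qs : ∀ j, q j ≤ 2 ^ s
  hs : ∀ j, |h j| ≤ 2 ^ s

/-- There is no decreasing ray of the linear variables which fixes `x_v`. -/
def NB {m n : ℕ} (W : Matrix (Fin m) (Fin n) ℤ) (q h : Fin n → ℤ) (v : Fin n) : Prop :=
  ∀ r : Fin n → ℝ, (∀ i, ∑ j, (W i j : ℝ) * r j ≤ 0) → r v = 0 → (∀ j, q j ≠ 0 → r j = 0) →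
    0 ≤ ∑ j, (h j : ℝ) * r j

/-- The point `(X + τ Y) / D`. -/
def pt {n : ℕ} (D : ℕ) (X Y : Fin n → ℤ) (τ : ℤ) : Fin n → ℝ :=
  fun j => ((X j : ℝ) + τ * Y j) / D

/-- LIN. Cramer's rule with bounds. Proof. Let `B` be a nonsingular square submatrix of `S` of the
maximal size `r`, with the rows `I` and the columns `J`, `D = |det B|`, and `P` the matrix with
`± adj B` at the places `J × I` and zeros elsewhere, so that `B (P c)_J = D c_I`. If `c = S z` then the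
rows of `S` outside `I` are combinations of the rows in `I` (over `ℚ`), and the same combination
relates the entries of `c`, so `S (P c) = D c` holds for all rows (the columns outside `J` are not
used). All minors of order at most `k` are at most `k! H^k ≤ (k H)^k`. (If `S = 0` take `D = 1`,
`P = 0`.) -/
def LinStmt : Prop := ∀ (a b k H : ℕ) (S : Matrix (Fin a) (Fin b) ℤ), a ≤ k → b ≤ k → 1 ≤ H →
  (∀ i j, |S i j| ≤ (H : ℤ)) → ∃ (D : ℕ) (P : Matrix (Fin b) (Fin a) ℤ), 1 ≤ D ∧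
    D ≤ (k * H) ^ k ∧ (∀ i j, |P i j| ≤ (((k * H) ^ k : ℕ) : ℤ)) ∧
    ∀ (z : Fin b → ℝ) (i : Fin a), ∑ j, (S i j : ℝ) * ∑ l, (P j l : ℝ) * (∑ j', (S l j' : ℝ) * z j') =
      D * ∑ j', (S i j' : ℝ) * z j'

/-- FWR. A convex separable quadratic function attains its minimum on a polyhedron without decreasing
rays of the linear variables (Frank and Wolfe). Proof. Let `g` be the function and `μ_k` a strictly
decreasing sequence with the limit `inf g` (possibly `-∞`; if the infimum is attained nothing is to be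
proved), and `x_k` the point of the smallest euclidean norm of the nonempty closed set
`{x ∈ P : g x ≤ μ_k}`. If a subsequence of the `x_k` is bounded, a limit point attains the infimum.
Otherwise `‖x_k‖ → ∞`, and for a subsequence `x_k / ‖x_k‖ → u`, `‖u‖ = 1`. Then `W u ≤ 0`; dividing
`g x_k ≤ μ_0` by `‖x_k‖^2` gives `∑ q u^2 ≤ 0`, so `u_j = 0` if `q_j ≠ 0`; as `∑ q x^2 ≥ 0`,
`h · x_k ≤ μ_0`, so `h · u ≤ 0`, hence `h · u = 0` by the hypothesis. So `g (x_k - u) = g x_k`. For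
large `k`, `x_k - u ∈ P`: for rows with `W_i u = 0` clear; if `W_i u < 0` then `W_i x_k → -∞`. And
`‖x_k - u‖^2 = ‖x_k‖^2 - 2 u · x_k + 1 < ‖x_k‖^2` for large `k` since `u · x_k / ‖x_k‖ → 1`. This
contradicts the choice of `x_k`. -/
def FwrStmt : Prop := ∀ (m n : ℕ) (W : Matrix (Fin m) (Fin n) ℝ) (w : Fin m → ℝ)
  (q h : Fin n → ℝ), (∀ j, 0 ≤ q j) →
  (∀ r : Fin n → ℝ, (∀ i, ∑ j, W i j * r j ≤ 0) → (∀ j, q j ≠ 0 → r j = 0) →
    0 ≤ ∑ j, h j * r j) →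
  (∃ x : Fin n → ℝ, ∀ i, ∑ j, W i j * x j ≤ w i) →
  ∃ x : Fin n → ℝ, (∀ i, ∑ j, W i j * x j ≤ w i) ∧ ∀ y : Fin n → ℝ,
    (∀ i, ∑ j, W i j * y j ≤ w i) →
    ∑ j, (q j * x j ^ 2 + h j * x j) ≤ ∑ j, (q j * y j ^ 2 + h j * y j)

/-- FAC. The minimal face. Proof (may assume FWR). Among the minimisers of `g` on
`P = {W x ≤ w}` (FWR) choose `x` with the largest number of tight rows; let `J` be the set of the
tight rows. (1) `x` minimises `g` over `A = {y : W_J y = w_J}`: for `y ∈ A` the point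
`x + s (y - x)` is in `P` for small `s > 0`, so `g x ≤ g (x + s (y-x)) ≤ (1-s) g x + s g y`. (2) Let
`W_J u = 0` and `u_j = 0` for `q_j ≠ 0`. Then `g (x + s u) = g x + s h · u`, so `h · u = 0` by (1). If
`W_i u ≠ 0` for some `i`, then move from `x` in the direction `u` or `-u` until the first row outside
`J` becomes tight: again a minimiser in `P`, with more tight rows; a contradiction. (3) By (1) the
gradient `2 q_j x_j + h_j` is orthogonal to all `u` with `W_J u = 0`, so it is a combination of the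
rows in `J`. -/
def FacStmt : Prop := ∀ (m n : ℕ) (W : Matrix (Fin m) (Fin n) ℝ) (w : Fin m → ℝ)
  (q h : Fin n → ℝ), (∀ j, 0 ≤ q j) →
  (∀ r : Fin n → ℝ, (∀ i, ∑ j, W i j * r j ≤ 0) → (∀ j, q j ≠ 0 → r j = 0) →
    0 ≤ ∑ j, h j * r j) →
  (∃ x : Fin n → ℝ, ∀ i, ∑ j, W i j * x j ≤ w i) →
  ∃ x : Fin n → ℝ, (∀ i, ∑ j, W i j * x j ≤ w i) ∧
    (∀ y : Fin n → ℝ, (∀ i, ∑ j, W i j * y j ≤ w i) →
      ∑ j, (q j * x j ^ 2 + h j * x j) ≤ ∑ j, (q j * y j ^ 2 + h j * y j)) ∧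
    (∀ u : Fin n → ℝ, (∀ i, ∑ j, W i j * x j = w i → ∑ j, W i j * u j = 0) →
      (∀ j, q j ≠ 0 → u j = 0) → ∀ i, ∑ j, W i j * u j = 0) ∧
    ∃ lam : Fin m → ℝ, (∀ i, ∑ j, W i j * x j ≠ w i → lam i = 0) ∧
      ∀ j, 2 * q j * x j + h j = ∑ i, lam i * W i j

/-- KKF. The minimiser in a slice far away. Proof (may assume FAC, LIN). Apply FAC to the system `W`
with the two rows `x_v ≤ στ`, `-x_v ≤ -στ`; let `x*` be the minimiser and `J` the set of the rows of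
`W` which are tight at `x*`. Consider the linear system for `z = (x, λ, ν)`, `λ ∈ ℝ^J`:
`2 q_j x_j - ∑_{i ∈ J} λ_i W_{ij} - ν [j = v] = -h_j` (all `j`), `W_i x = w_i` (`i ∈ J`), `x_v = στ`,
i.e. `S z = b0 + τ b1` with `b0 = (-h, w_J, 0)`, `b1 = (0, 0, σ)`. It is square of the order
`n + |J| + 1 ≤ k = 2s + 1`, with entries at most `H = 2^(s+1)`, and by FAC it is solvable. Let `D`, `P` be
as in LIN; `k H ≤ 2^(2s+2)`, so `(k H)^k ≤ 2^((2s+2)(2s+1))`, and `(2s+2)(2s+1) ≤ (15/2) s^2` (`s ≥ 2`). The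
entries of `P b0`, `P b1` are at most `k 2^s 2^((15/2)s^2) ≤ 2^(10 s^2)`. A vector `c` is in the image of
`S` iff `(S P - D) c = 0`; since `(S P - D) b0 + τ (S P - D) b1 = 0`, these are integer vectors and the
entries of `(S P - D) b0` are less than `2^(12 s^2) ≤ τ`, both terms vanish:
`S (P b0) = D b0`, `S (P b1) = D b1`. Let `X`, `Y` be the `x`-parts of `P b0` and `P b1`. Then `X_v = 0`,
`Y_v = σ D`, and `x = (X + τ Y)/D` satisfies `W_J x = w_J`, `x_v = στ` and the equations for the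
gradient, so it minimises the convex function `g` over the affine space `A` of these equations, as
`x*` does. With `u = x - x*`: `g (x* + s u)` is constant for `s ∈ [0,1]`, so `∑ q u^2 = 0`, and `W u = 0`
by FAC (`u` satisfies the hypotheses). So `x` is feasible with `g x = g x*`. -/
def KkfStmt : Prop := ∀ (m n s : ℕ) (W : Matrix (Fin m) (Fin n) ℤ) (w : Fin m → ℤ)
  (q h : Fin n → ℤ) (v : Fin n) (σ τ : ℤ), Sm s W w q h → q v = 0 → (σ = 1 ∨ σ = -1) →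
  2 ^ eE s ≤ τ → NB W q h v → (∃ x ∈ FeaR W w, x v = σ * τ) →
  ∃ (D : ℕ) (X Y : Fin n → ℤ), 1 ≤ D ∧ D ≤ 2 ^ eE s ∧ (∀ j, |X j| ≤ 2 ^ eE s) ∧
    (∀ j, |Y j| ≤ 2 ^ eE s) ∧ X v = 0 ∧ Y v = σ * D ∧ pt D X Y τ ∈ FeaR W w ∧
    ∀ x ∈ FeaR W w, x v = σ * τ → gR q h (pt D X Y τ) ≤ gR q h x

/-- TAI. Feasibility of the line far away. Proof. Let `Δ = 2^E`, `E = eE s`; `n Δ + 2^s Δ < 2^(2E)`.
For a row `i`, `a = ∑ W_ij X_j` and `b = ∑ W_ij Y_j` are integers of absolute value at most `n Δ`. If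
`b ≥ 1` then `(a + τ b)/D ≥ (τ - nΔ)/Δ > 2^s ≥ w_i`, a contradiction. If `b = 0` the value does not
depend on `τ`. If `b ≤ -1` then `(a + τ' b)/D ≤ (nΔ - τ')/D ≤ -2^s ≤ w_i`. -/
def TaiStmt : Prop := ∀ (m n s : ℕ) (W : Matrix (Fin m) (Fin n) ℤ) (w : Fin m → ℤ)
  (q h : Fin n → ℤ) (D : ℕ) (X Y : Fin n → ℤ) (τ τ' : ℤ), Sm s W w q h → 1 ≤ D →
  D ≤ 2 ^ eE s → (∀ j, |X j| ≤ 2 ^ eE s) → (∀ j, |Y j| ≤ 2 ^ eE s) →
  2 ^ (2 * eE s) ≤ τ → 2 ^ (2 * eE s) ≤ τ' → pt D X Y τ ∈ FeaR W w → pt D X Y τ' ∈ FeaR W w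

/-- QUD. The objective on the line far away. Proof. `D^2 (gR (pt τ) - κ τ^2) = a τ^2 + b τ + c` with
the integers `a = ∑ q Y^2 - κ D^2`, `b = ∑ 2 q X Y + D ∑ h Y`, `c = ∑ q X^2 + D ∑ h X`, and
`|b|, |c| ≤ 3 n 2^s Δ^2 ≤ 2^(2s+2+2E)`, `2 |b| ≤ 2^(3E)`, `|c| ≤ 2^(3E)`. If `a ≥ 1`, or `a = 0` and `b ≥ 0`,
then the value at `τ ≥ 2^(5E)` is at least `-|c|/D^2 ≥ -2^(3E)`. Otherwise `a ≤ -1`, or `a = 0` and
`b ≤ -1`, and the value at every `τ' ≥ 2^(5E)` is at most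
`(|c| - τ')/D^2 ≤ (2^(3E) - τ')/2^(2E)`. -/
def QudStmt : Prop := ∀ (m n s : ℕ) (W : Matrix (Fin m) (Fin n) ℤ) (w : Fin m → ℤ)
  (q h : Fin n → ℤ) (κ : ℤ) (D : ℕ) (X Y : Fin n → ℤ) (τ τ' : ℤ), Sm s W w q h →
  0 ≤ κ → κ ≤ 2 ^ s → 1 ≤ D →
  D ≤ 2 ^ eE s → (∀ j, |X j| ≤ 2 ^ eE s) → (∀ j, |Y j| ≤ 2 ^ eE s) →
  2 ^ (5 * eE s) ≤ τ → 2 ^ (5 * eE s) ≤ τ' →
  gR q h (pt D X Y τ) - κ * (τ : ℝ) ^ 2 < -2 ^ (3 * eE s) →
  gR q h (pt D X Y τ') - κ * (τ' : ℝ) ^ 2 ≤ (2 ^ (3 * eE s) - τ') / 2 ^ (2 * eE s)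

/-- RRD. Rounding of a real point. Proof (may assume RND, TUR, PLW): RND with `δ = 0`, the rows of `W`
and the two rows of `x_v = t`, and `c_j = sl (x_j)`. By PLW (3)
`q_j y_j^2 + h_j y_j = pl (x_j) + sl (x_j) (y_j - x_j)`, so `gR y ≤ ∑ pl (x_j)`, and
`pl (x_j) = q_j x_j^2 + h_j x_j + q_j θ (1 - θ)`, `θ` the fractional part of `x_j`. -/
def RrdStmt : Prop := ∀ (m n : ℕ) (W : Matrix (Fin m) (Fin n) ℤ) (w : Fin m → ℤ)
  (q h : Fin n → ℤ) (v : Fin n) (t : ℤ), W.IsTotallyUnimodular → (∀ j, 0 ≤ q j) →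
  ∀ x ∈ FeaR W w, x v = t → ∃ y ∈ Fea W w, y v = t ∧ (∀ j, |(y j : ℝ) - x j| ≤ 1) ∧
    gR q h (fun j => (y j : ℝ)) ≤ gR q h x + ∑ j, (q j : ℝ)

/-- UNA. A very negative value in a slice implies unboundedness. Proof (may assume KKF, TAI, QUD,
RRD). Let `E = eE s`, `τ = 2^(6E)`, `pt D X Y` the line of KKF for `τ`. Then
`gR (pt τ) - κ τ^2 ≤ gR x - κ τ^2 < -2^(3E)`, so by QUD and TAI for all integers `τ' ≥ τ` the point
`pt τ'` is in `FeaR` and `gR (pt τ') - κ τ'^2 ≤ (2^(3E) - τ')/2^(2E)`. Its coordinate `v` is `σ τ'`; by RRD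
there is an integer point `y` with `y_v = σ τ'` and `gR y ≤ gR (pt τ') + ∑ q`. Let `τ' → ∞`. -/
def UnaStmt : Prop := ∀ (m n s : ℕ) (W : Matrix (Fin m) (Fin n) ℤ) (w : Fin m → ℤ)
  (q h : Fin n → ℤ) (v : Fin n) (σ κ : ℤ), W.IsTotallyUnimodular → Sm s W w q h → q v = 0 →
  (σ = 1 ∨ σ = -1) → 0 ≤ κ → κ ≤ 2 ^ s → NB W q h v →
  (∃ x ∈ Fea W w, x v = σ * 2 ^ (6 * eE s) ∧
    gR q h (fun j => (x j : ℝ)) - κ * (x v : ℝ) ^ 2 < -2 ^ (3 * eE s)) →
  ∀ M : ℝ, ∃ y ∈ Fea W w, gR q h (fun j => (y j : ℝ)) - κ * (y v : ℝ) ^ 2 < M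

/-- UNB. Unboundedness implies a very negative value in a slice. Proof (may assume FWR, KKF, TAI,
QUD, RRD). Let `N = 2^(6E)`. For each integer `t` with `|t| ≤ N` the function `gR` is bounded below on
the points of `FeaR` with `x_v = t` (FWR with the rows of `x_v = t`, and `NB`). So for `M` small
enough (`M ≤ -2^(3E)`) a point `y ∈ Fea` with `gR y - κ y_v^2 < M` has `|y_v| > N`; let
`y_v = σ τ`, `τ > N`. With the line of KKF for `τ`: `gR (pt τ) - κ τ^2 < -2^(3E)`. By TAI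
`pt N ∈ FeaR`, and by QUD `gR (pt N) - κ N^2 ≤ (2^(3E) - 2^(6E))/2^(2E) = 2^E - 2^(4E)`. By RRD there is
`y' ∈ Fea` with `y'_v = σ N` and `gR y' - κ N^2 ≤ 2^E - 2^(4E) + s 2^s < -2^(3E)`, and
`|y'_j| ≤ 2^E + 2^(6E) 2^E + 1 ≤ 2^(8E)`. -/
def UnbStmt : Prop := ∀ (m n s : ℕ) (W : Matrix (Fin m) (Fin n) ℤ) (w : Fin m → ℤ)
  (q h : Fin n → ℤ) (v : Fin n) (κ : ℤ), W.IsTotallyUnimodular → Sm s W w q h → q v = 0 →
  0 ≤ κ → κ ≤ 2 ^ s → NB W q h v →
  (∀ M : ℝ, ∃ y ∈ Fea W w, gR q h (fun j => (y j : ℝ)) - κ * (y v : ℝ) ^ 2 < M) →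
  ∃ x ∈ Fea W w, (x v = 2 ^ (6 * eE s) ∨ x v = -2 ^ (6 * eE s)) ∧ (∀ j, |x j| ≤ 2 ^ (8 * eE s)) ∧
    gR q h (fun j => (x j : ℝ)) - κ * (x v : ℝ) ^ 2 < -2 ^ (3 * eE s)

/-- UTA. The test `unb1`. Proof (may assume SLV, BXO, TUR, RND). The system `homC` is `Ok` (for the
parameter `szC + 2 ≥ 2` and the objective `linC`), its solutions are the integer `r` with
`W r ≤ 0`, `r_j = 0` for `j ∈ C ∪ V` and `|r_j| ≤ 1` for the other `j`; it has the solution `0`, so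
`solve` returns a minimiser of `h · r`. If there is a real `r` with `W r ≤ 0`, `r_j = 0` on `C ∪ V` and
`h · r < 0`, scale it to `|r_j| ≤ 1`; by RND (`δ = 0`, `c = h`, the matrix of `homC`) there is an
integer solution with `h · r < 0`. -/
def UtaStmt : Prop := ∀ I : Inst, I.W.IsTotallyUnimodular →
  (unb1 I.code = true → ∃ r : Fin I.n → ℤ, (∀ i, ∑ j, I.W i j * r j ≤ 0) ∧
    (∀ j ∈ I.C ∪ I.V, r j = 0) ∧ ∑ j, I.h j * r j < 0) ∧
  (unb1 I.code = false → ∀ r : Fin I.n → ℝ, (∀ i, ∑ j, (I.W i j : ℝ) * r j ≤ 0) →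
    (∀ j ∈ I.C ∪ I.V, r j = 0) → 0 ≤ ∑ j, (I.h j : ℝ) * r j)

/-- UTB. The test `unb2`. Proof (may assume SLV, BXO, TUR, CDB). The systems `slcC` are `Ok` for the
parameter `8E + 2` (`E = eE (szC I.code)`), since `|x_j| ≤ 2^(8E) + 1` for the relaxed system. On
`x_v = t` the objective `I.f` differs from the convex part only by a constant (`v` is the only
element of `V`), so the point that `solve` returns minimises `I.f` on the slice. -/
def UtbStmt : Prop := ∀ I : Inst, I.W.IsTotallyUnimodular → I.V.card ≤ 1 →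
  (unb2 I.code = true ↔ ∃ v ∈ I.V, ∃ x ∈ I.feasible,
    (x v = 2 ^ (6 * eE (szC I.code)) ∨ x v = -2 ^ (6 * eE (szC I.code))) ∧
    (∀ j, |x j| ≤ 2 ^ (8 * eE (szC I.code))) ∧ I.f x < -2 ^ (3 * eE (szC I.code)))

/-- ALN. Infeasibility. Proof (may assume APR, CDA, CDB, TRC): as in COR. -/
def AlnStmt : Prop := ∀ (p K : ℕ), 4 ≤ K → ∀ I : TUInst p,
  (alg p K I.1.code = none ↔ I.1.feasible = ∅)

/-- COX. The algorithm for at most one concave variable is correct. Proof (may assume COR, ALN, UTA,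
UTB, UNA, UNB, FWR, CDA, CDB). Let `I` be feasible (otherwise ALN). If `unb1` then `I.f` decreases along
the ray of UTA: unbounded. If not, let first `V = ∅`: then `unb2 = false`, `I.f` is convex, and by
FWR it is bounded below on the real points of `W x ≤ w` (the second part of UTA). So the answer is
that of COR. If `V = {v}`, let `q_j` be the coefficients for `j ∈ C` and `0` otherwise, `κ = I.q v`;
`Sm` holds with `s = szC I.code` (it is at least `n + m ≥ 2`, and bounds the lengths of all data) and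
`NB` by UTA; `I.f x = gR x - κ x_v^2`. By UTB, UNA, UNB `unb2` is true iff `I` is unbounded below. If it
is, the report is correct, otherwise COR applies. -/
def CoxStmt : Prop := ∀ (p K : ℕ), p ≤ 1 → 4 ≤ K → ∀ I : TUInst p,
  Correct (20 / K) I.1 (out1 (alg1 K I.1.code))

/-- PTX. Polynomial time. Proof (may assume PTB, PTC): compositions, and as in PTE. -/
def PtxStmt : Prop := ∀ p K : ℕ,
  PolyTimeComputable (fun I : TUInst p => I.1.enc) Output.enc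
    (fun I => out1 (alg1 K I.1.code))

end

end Pool.Agent.Helper84.SQ
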