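import Mathlib

/-!
# Separable indefinite quadratic integer programs: goals, part A (mathematics)

All goals are independent: any goal may assume any other goal as a hypothesis.
`Fea W w` is the set of the integer points of `W x ≤ w`, `gq κ h` the quadratic function
`∑ κ_j x_j ^ 2 + h_j x_j` with arbitrary real coefficients.
-/

namespace Pool.Agent.Helper84.SQ

/-- The integer points of `W x ≤ w`. -/
def Fea {m n : ℕ} (W : Matrix (Fin m) (Fin n) ℤ) (w : Fin m → ℤ) : Set (Fin n → ℤ) :=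
  {x | ∀ i, ∑ j, W i j * x j ≤ w i}

/-- A separable quadratic function. -/
def gq {n : ℕ} (κ h : Fin n → ℝ) (x : Fin n → ℤ) : ℝ := ∑ j, (κ j * (x j : ℝ) ^ 2 + h j * x j)

/-- RND. Rounding. Proof. Let `Q` be the set of the real `x` with `W x ≤ w + δ` and
`⌊z_j⌋ ≤ x_j ≤ ⌊z_j⌋ + 1`: a compact convex set which contains `z`. The minimisers of `c · x` over
`Q` are a nonempty compact exposed face, which has an extreme point `x`
(`IsCompact.extremePoints_nonempty`), which is an extreme point of `Q`. Let `A` be the matrix with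
the rows of `W`, `I` and `-I`; it is totally unimodular (Mathlib: `Matrix.IsTotallyUnimodular`
lemmas for adding unit rows, `fromRows_one…`). The rows of `A` which are tight at `x` span `ℝ^n`
(otherwise there is `v ≠ 0` orthogonal to all of them and `x ± t v ∈ Q` for small `t`). So there is a
nonsingular `n × n` submatrix `B` of `A` of tight rows, `det B = ±1`, and `B x = b + δ e` with `b`
integral and `e ∈ {0,1}^n`. Let `y = B⁻¹ b`, an integer vector; `x - y = δ B⁻¹ e`, and the entries of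
`B⁻¹` are `±` minors of `A`, so in `{0,1,-1}`, and `|x_j - y_j| ≤ n δ`. For a row `a` of `W`:
`a · y ≤ a · x + n · n δ ≤ w + δ + n² δ < w + 1`, so `a · y ≤ w`. The bounds of the box are integers
and `n δ < 1`, so `y` satisfies them too. Finally `c · y ≤ c · x + n δ ∑ |c_j|` and
`c · x ≤ c · z`. -/
def RndStmt : Prop := ∀ (m n : ℕ) (W : Matrix (Fin m) (Fin n) ℤ) (w : Fin m → ℤ)
  (c z : Fin n → ℝ) (δ : ℝ), W.IsTotallyUnimodular → 0 ≤ δ → ((n : ℝ) ^ 2 + 1) * δ < 1 →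
  (∀ i, ∑ j, (W i j : ℝ) * z j ≤ w i + δ) →
  ∃ y ∈ Fea W w, (∀ j, ⌊z j⌋ ≤ y j ∧ y j ≤ ⌊z j⌋ + 1) ∧
    ∑ j, c j * (y j : ℝ) ≤ ∑ j, c j * z j + n * δ * ∑ j, |c j|

/-- TUR. Repeating, negating and adding rows. If `W` is totally unimodular, then every matrix each
of whose rows is a row of `W`, minus a row of `W`, a unit vector, minus a unit vector or zero, is
totally unimodular. Proof: a square submatrix with two rows equal up to sign, or with a zero row,
has determinant zero; otherwise it is, up to signs of rows, a submatrix of `[W; I]`. (Mathlib: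
`Matrix.IsTotallyUnimodular.reindex`, `.submatrix`, `fromRows_one…`, `fromRows_unitlike`;
`Matrix.isTotallyUnimodular_iff` allows arbitrary, also noninjective, choices of the rows.) -/
def TurStmt : Prop := ∀ (m n m' : ℕ) (W : Matrix (Fin m) (Fin n) ℤ)
  (A : Matrix (Fin m') (Fin n) ℤ), W.IsTotallyUnimodular →
  (∀ i, (∃ i', A i = W i') ∨ (∃ i', A i = -W i') ∨ (∃ j, A i = Pi.single j 1) ∨
    (∃ j, A i = Pi.single j (-1)) ∨ A i = 0) → A.IsTotallyUnimodular

/-- IDP. Integer decomposition. Proof (may assume RND, TUR). Claim, by induction on `N ≥ 1`: if `z`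
is an integer vector with `z_{i0} = s N` and `p_i ≤ q_i` are integers with
`N p_i ≤ (W z)_i ≤ N q_i` for all rows, then there are integer vectors `g_1, …, g_N` with sum `z`,
`(g_k)_{i0} = s` and `p ≤ W g_k ≤ q`. For `N = 1` take `z`. For `N > 1` the system
`p ≤ W g ≤ q`, `W z - (N-1) q ≤ W g ≤ W z - (N-1) p`, `g_{i0} = s` has the real solution `z / N` (for
instance `W z / N ≤ W z - (N-1) p` iff `(N-1) p ≤ (N-1) W z / N`), its matrix is totally unimodular
(TUR) and its right hand sides are integers, so by RND with `δ = 0` it has an integer solution `g`;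
apply the induction hypothesis to `z - g` and `N - 1`.
Apply the claim with `z = b - a`, `p_i = ⌊(W z)_i / N⌋`, `q_i = ⌈(W z)_i / N⌉`. If `(W z)_i ≥ 0` then
all `(W g_k)_i ≥ 0`, so `(W (a + ∑_{k ∈ S} g_k))_i ≤ (W b)_i ≤ w_i`; if `(W z)_i ≤ 0` then all
`(W g_k)_i ≤ 0` and the left side is at most `(W a)_i ≤ w_i`. -/
def IdpStmt : Prop := ∀ (m n N : ℕ) (W : Matrix (Fin m) (Fin n) ℤ) (w : Fin m → ℤ)
  (a b : Fin n → ℤ) (i0 : Fin n) (s : ℤ), W.IsTotallyUnimodular → 1 ≤ N → (s = 1 ∨ s = -1) →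
  a ∈ Fea W w → b ∈ Fea W w → b i0 = a i0 + s * N →
  ∃ g : Fin N → Fin n → ℤ, (∀ k, g k i0 = s) ∧ (∀ j, ∑ k, g k j = b j - a j) ∧
    ∀ S : Finset (Fin N), (fun j => a j + ∑ k ∈ S, g k j) ∈ Fea W w

/-- STP. One step. Proof (may assume IDP). Let `g_k` be as in IDP, and
`φ S = f (a + ∑_{k ∈ S} g_k) - f a` for sets `S` of indices, so `|φ S| ≤ Rg`. Since `f` is quadratic,
`φ S = ∑_{k ∈ S} F_k + ∑_{j<k, j,k ∈ S} C_{jk}` with `F_k = f (a + g_k) - f a` and
`C_{jk} = 2 ∑_l κ_l g_{j,l} g_{k,l}`. The mean of `φ S` over all subsets is `½ ∑ F + ¼ ∑ C`, and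
`φ univ = ∑ F + ∑ C`; so `∑_k F_k = 4 · mean - φ univ ≤ 5 Rg`, and some `F_k ≤ 5 Rg / N`. -/
def StpStmt : Prop := ∀ (m n N : ℕ) (W : Matrix (Fin m) (Fin n) ℤ) (w : Fin m → ℤ)
  (a b : Fin n → ℤ) (i0 : Fin n) (s : ℤ) (κ h : Fin n → ℝ) (Rg : ℝ),
  W.IsTotallyUnimodular → 1 ≤ N → (s = 1 ∨ s = -1) →
  a ∈ Fea W w → b ∈ Fea W w → b i0 = a i0 + s * N →
  (∀ x ∈ Fea W w, ∀ y ∈ Fea W w, gq κ h x - gq κ h y ≤ Rg) →
  ∃ a' ∈ Fea W w, a' i0 = a i0 + s ∧ gq κ h a' ≤ gq κ h a + 5 * Rg / N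

/-- GRD. The grid. Proof (may assume STP). Let `t_k = l + ⌊k (u-l) / K⌋`, so `t_0 = l`, `t_K = u`,
and `t_{k+1} - t_k < (u-l)/K + 1`. If `u = l` take `k = 0` and `a' = a`. Let `t = a_{i0}` and first
`2 (t - l) ≤ u - l`. Let `k` be minimal with `t ≤ t_k`. If `t = t_k` take `a' = a`. Otherwise
`k ≥ 1`, `t_{k-1} < t < t_k`, and `s = t_k - t ≤ t_k - t_{k-1} - 1 < (u-l)/K ≤ (u-l)/4`. Apply STP `s`
times, with `b` a point with `b_{i0} = u`: at each step `N = u - t'` with `t' < t + s`, so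
`N > (u-l)/2 - (u-l)/4 = (u-l)/4`, and the total cost is at most
`s · 5 Rg / ((u-l)/4) ≤ 20 Rg / K` (`Rg ≥ 0`). If `2 (t - l) > u - l` move down in the same way to the
largest `t_k ≤ t`, with `b_{i0} = l` and the sign `-1`. -/
def GrdStmt : Prop := ∀ (m n K : ℕ) (W : Matrix (Fin m) (Fin n) ℤ) (w : Fin m → ℤ) (i0 : Fin n)
  (κ h : Fin n → ℝ) (Rg : ℝ) (l u : ℤ), W.IsTotallyUnimodular → 4 ≤ K →
  (∃ x ∈ Fea W w, x i0 = l) → (∃ x ∈ Fea W w, x i0 = u) →
  (∀ x ∈ Fea W w, l ≤ x i0 ∧ x i0 ≤ u) →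
  (∀ x ∈ Fea W w, ∀ y ∈ Fea W w, gq κ h x - gq κ h y ≤ Rg) →
  ∀ a ∈ Fea W w, ∃ k ≤ K, ∃ a' ∈ Fea W w, a' i0 = l + (k : ℤ) * (u - l) / (K : ℤ) ∧
    gq κ h a' ≤ gq κ h a + 20 * Rg / K

/-- TRC. Truncation. Proof (may assume RND, TUR). Let `s_j = ±1` with `s_j x_j = |x_j|`. Among all
`y ∈ Fea W w` with `0 ≤ s_j y_j ≤ |x_j|` for all `j` and `W (x - y) ≤ 0` (for instance `x`) choose one
with the smallest `∑ |y_j|`. Let `T` be the set of the rows with `(W y)_i = w_i`, `Z` the set of the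
`j` with `y_j = 0`, and `P` the polyhedron of the real `v` with `W v ≤ w`, `(W v)_i = w_i` for
`i ∈ T`, `s_j v_j ≥ 0` for all `j`, `v_j = 0` for `j ∈ Z`; `y ∈ P`.
(1) The recession cone of `P` is `0`: let `g ≠ 0` be real with `W g ≤ 0`, `(W g)_i = 0` for `i ∈ T`,
`s_j g_j ≥ 0`, `g_j = 0` for `j ∈ Z`. For small `t > 0` the vector `t g` satisfies
`W y - w ≤ W (t g) ≤ 0` and `0 ≤ s_j t g_j ≤ |y_j|`. By RND (`δ = 0`, the objective
`c_j = -s_j`, the system with all these rows, TUR) there is an integer `g'` with the same bounds and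
`∑ s_j g'_j ≥ ∑ s_j t g_j > 0`. Then `y - g'` is feasible, between `0` and `x`,
`W (x - y + g') ≤ 0`, and its sum of absolute values is smaller, a contradiction.
(2) So `P` is bounded, hence compact. For each `j` the function `s_j v_j` has its maximum on `P` at an
extreme point `v` of `P`, and as in RND `v = B⁻¹ b`, where `B` consists of `n` independent tight rows of
`P`, `B⁻¹` has entries in `{0,1,-1}`, and `b` has entries `w_i` (each `i` at most once) and `0`, so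
`|y_j| ≤ |v_j| ≤ ∑ |w_i|`. -/
def TrcStmt : Prop := ∀ (m n : ℕ) (W : Matrix (Fin m) (Fin n) ℤ) (w : Fin m → ℤ),
  W.IsTotallyUnimodular → ∀ x ∈ Fea W w, ∃ y ∈ Fea W w, (∀ j, |y j| ≤ ∑ i, |w i|) ∧
    ∀ i, ∑ j, W i j * (x j - y j) ≤ 0

end Pool.Agent.Helper84.SQ
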