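import Pool.Agent.Helper84.SQ.Vals
import Pool.Agent.Helper84.SQ.GoalsA

/-!
# Separable indefinite quadratic integer programs: goals, part B (correctness of the algorithm)

All goals are independent: any goal may assume any other goal (also of part A, and the goals
`CpaStmt`, `CpvStmt`, `CutStmt` of `Pool.Agent.Helper92.FR.GoalsB`) as a hypothesis.

Note that `Sol d R = Fea (MR d R) (fun i => Zn.val (R.get i).2)`.
-/

namespace Pool.Agent.Helper84.SQ

open Pool.Agent.Helper81.CC Pool.Agent.Bin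
open Pool.Agent.Helper92.FR (Qn Cst dot cut cini cen lv)
open Pool.Agent.Helper45.SQP (Inst TUInst Correct Code)

noncomputable section

/-- PLW. The piecewise linear interpolation in one variable. Proof. Write `m = ⌊x⌋`, `n = ⌊y⌋`. (1)
`pl y - pl x - sl x (y - x) = q (n - m) (2 y - n - m - 1)`: for `n ≥ m + 1` both factors are `≥ 0`
(`2y ≥ 2n`), for `n ≤ m - 1` both are `≤ 0` (`2y < 2n + 2`). (2) and (3): computation, for `k = m` and
`k = m + 1`. (4) `|⌊x⌋| ≤ 2^N`, so `|sl| ≤ 2^N (2^(N+1) + 1) + 2^N ≤ 2^(2N+2)`. -/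
def PlwStmt : Prop := ∀ (q h : ℤ) (x : ℝ), 0 ≤ q →
  (∀ y, pl q h x + sl q h x * (y - x) ≤ pl q h y) ∧
  (∀ k : ℤ, pl q h k = q * (k : ℝ) ^ 2 + h * k) ∧
  (∀ k : ℤ, ⌊x⌋ ≤ k → k ≤ ⌊x⌋ + 1 → (q : ℝ) * (k : ℝ) ^ 2 + h * k = pl q h x + sl q h x * (k - x)) ∧
  ∀ N : ℕ, q ≤ 2 ^ N → |h| ≤ 2 ^ N → |x| ≤ 2 ^ N → |sl q h x| ≤ 2 ^ (2 * N + 3)

/-- FHV. Values of the elementary functions. Proof: unfold; `val_flz`, `Qn.val_sum`,
`Zn.val_q`, … (see `Pool.Agent.Helper84.SQ.Vals`; for `dot` see also `Val0Stmt` of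
`Pool.Agent.Helper92.FR.GoalsB`, proved in `Pool.Agent.Helper24.FR.VAL0`). -/
def FhvStmt : Prop := ∀ (d : ℕ) (F : Obj) (x : List Qn), F.length = d → x.length = d →
  Qn.val (fh F x) = plF d F (lv d x) ∧ (grd F x).length = d ∧
  (∀ j, lv d (grd F x) j = sl (qF d F j) (hF d F j) (lv d x j)) ∧
  ∀ (D : ℕ) (r : Row), r.1.length = d →
    (okr D x r = true ↔ ∑ j, (lz d r.1 j : ℝ) * lv d x j ≤ Zn.val r.2 + 1 / 2 ^ D) ∧
    (r.1.map Zn.q).length = d ∧ ∀ j, lv d (r.1.map Zn.q) j = lz d r.1 j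

/-- OPA. The cutting planes find a good point. Proof (may assume FHV, PLW, CPA, CPV). The states
`stt N d R F k` give a sequence `V k = VV d (stt …)` as in CPA, with `B = 2^N` and the cuts
`g k = lv d (orc …)` at the centroids (CPV; the length of `orc …` is `d`). The first part is clear
from FHV. For the second part apply CPA with the cube `y_j ≤ x_j ≤ y_j + ρ`, `ρ = 2^(-(5N+5))`; it
lies in the box since `|y_j| ≤ 2^N - 1` (`Ok.bd`), and `2d 2^N / ρ ≤ 2^(7N+6)`, so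
`8(d+1)^2 d log(…) ≤ 8 (N+1)^2 N (7N+6) < pT N`. We get `k < pT N` and a point `x` of the cube with
`0 ≤ g_k · (x - c)`, `c` the centroid. The entries of the rows `a · x ≤ b` are in `{0,1,-1}` (TU), so
`a · x ≤ a · y + d ρ ≤ b + 2^(-(4N+5))`. If a row is violated at `c` (by more than `2^(-(4N+5))`) then
`g_k = a` for such a row and `a · x < a · c`, a contradiction. So `c ∈ cens …`, `g_k` is the
subgradient at `c`, and by PLW `plF c ≤ plF x`. Finally `plF x ≤ fv y + 1/4`: `⌊x_j⌋ = y_j`, and by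
PLW (3), (4) `pl x_j = q y_j^2 + h y_j + sl x_j (x_j - y_j)` with
`∑ |sl| ρ ≤ d 2^(2N+3) 2^(-(5N+5)) ≤ 1/4`. -/
def OpaStmt : Prop := ∀ (N d : ℕ) (R : List Row) (F : Obj), Ok N d R F →
  (∀ x ∈ cens N d R F, x.length = d ∧ Near d R (1 / 2 ^ pD N) (lv d x)) ∧
  ∀ y ∈ Sol d R, ∃ x ∈ cens N d R F, plF d F (lv d x) ≤ fv d F y + 1 / 4

/-- OPB. Rounding. Proof (may assume RND, PLW): RND with `δ = 2^(-(4N+5))`, `c_j = sl (z_j)` and the
matrix `MR d R`. `|z_j| ≤ 2^N` by `Ok.bd` (`δ ≤ 1`). By PLW (3)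
`fv y = plF z + ∑ sl (z_j) (y_j - z_j) ≤ plF z + d δ ∑ |sl| ≤ plF z + d^2 δ 2^(2N+3) ≤ plF z + 1/4`. -/
def OpbStmt : Prop := ∀ (N d : ℕ) (R : List Row) (F : Obj), Ok N d R F →
  ∀ z : Fin d → ℝ, Near d R (1 / 2 ^ pD N) z →
  ∃ y ∈ Sol d R, (∀ j, ⌊z j⌋ ≤ y j ∧ y j ≤ ⌊z j⌋ + 1) ∧ (fv d F y : ℝ) ≤ plF d F z + 1 / 4

/-- OPT. The optimal value and the box. Proof (may assume OPA, OPB, FHV). If `y ∈ Sol` then `cens`
is nonempty, so the search for the element with the smallest `fh` succeeds. Let `bst = some x`. By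
OPB there is `y ∈ Sol` in the box of `x` with `fv y ≤ plF x + 1/4`; for every `y' ∈ Sol` by OPA
`plF x ≤ fv y' + 1/4`, so `fv y ≤ fv y' + 1/2`, and these are integers. With `y' = y`:
`|plF x - fv y| ≤ 1/4`, so `rnd (fh F x)` has the value `⌊plF x + 1/2⌋ = fv y`. -/
def OptStmt : Prop := ∀ (N d : ℕ) (R : List Row) (F : Obj), Ok N d R F →
  (bst N d R F = none → Sol d R = ∅) ∧
  ∀ x, bst N d R F = some x → x.length = d ∧ ∃ y ∈ Sol d R,
    (∀ y' ∈ Sol d R, fv d F y ≤ fv d F y') ∧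
    (∀ j, ⌊lv d x j⌋ ≤ y j ∧ y j ≤ ⌊lv d x j⌋ + 1) ∧ Zn.val (rnd (fh F x)) = fv d F y

/-- BXO. Adding rows. Proof (may assume TUR): unfold. `Near` for a larger system implies `Near` for
the smaller one. The rows of `MR d (R ++ …)` are rows of `MR d R` and `±` unit vectors. -/
def BxoStmt : Prop := ∀ (N d : ℕ) (R : List Row) (F : Obj), Ok N d R F →
  (∀ b : List Zn × List Zn, Ok N d (R ++ boxR d b) F ∧ ∀ x, x ∈ Sol d (R ++ boxR d b) ↔
    x ∈ Sol d R ∧ ∀ j : Fin d, lz d b.1 j ≤ x j ∧ x j ≤ lz d b.2 j) ∧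
  ∀ (i : ℕ) (t : Zn) (hi : i < d),
    (Ok N d (R ++ fixR d i t) F ∧ ∀ x, x ∈ Sol d (R ++ fixR d i t) ↔
      x ∈ Sol d R ∧ x ⟨i, hi⟩ = Zn.val t) ∧
    (|Zn.val t| ≤ 1 → Ok N d R (eobj d i t) ∧
      ∀ x, fv d (eobj d i t) x = Zn.val t * x ⟨i, hi⟩)

/-- SLV. The exact solver. Proof (may assume OPT, BXO). Let `v` be the optimal value (the value of
`rnd (fh F x)`, OPT). Invariant of the fold after the coordinates `0, …, i-1`: both lists `lo`, `hi` of
the state have the length `d`, `lo_j = hi_j` for `j < i` and `hi_j = lo_j + 1` for `j ≥ i` (values),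
and there is `y ∈ Sol d R` with `fv y = v` and `lo ≤ y ≤ hi`. At the beginning this is OPT. Step `i`:
let `R'` be `R` with the rows of the box `lowb`. If the test succeeds then by OPT (for `R'`, which is
`Ok` by BXO) there is a `y' ∈ Sol d R'` with `fv y' ≤ v`, so `fv y' = v`; take `lowb`. If it fails then
the old `y` has `y_i ≠ lo_i` (otherwise `y ∈ Sol d R'` and the optimal value of `R'` is at most `v`), so
`y_i = hi_i`; take `uppb`. At the end `lo = y = hi`. -/
def SlvStmt : Prop := ∀ (N d : ℕ) (R : List Row) (F : Obj), Ok N d R F →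
  (solve N d R F = none → Sol d R = ∅) ∧
  ∀ x, solve N d R F = some x → x.length = d ∧ lz d x ∈ Sol d R ∧
    ∀ y ∈ Sol d R, fv d F (lz d x) ≤ fv d F y

/-- SPL. The slices of one variable. Proof (may assume SLV, BXO, GRD). By SLV with the objectives
`± x_i` (BXO) `cmin` and `cmax` are `some l`, `some u` with the smallest and the largest value of
`x_i` on `Sol d R` if this is nonempty. The value of `grdv K k l u` is
`l + ⌊k (u - l) / K⌋` if `l ≤ u`. Then GRD (with `W = MR d R`) and BXO. (If `split` is not empty then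
`cmin` and `cmax` are `some`, but the first part does not need this.) -/
def SplStmt : Prop := ∀ (N d K i : ℕ) (R : List Row) (F : Obj), Ok N d R F → ∀ hi : i < d, 4 ≤ K →
  (∀ R' ∈ split N d K i R, Ok N d R' F ∧ Sol d R' ⊆ Sol d R ∧
    ∃ t : ℤ, ∀ x ∈ Sol d R', x ⟨i, hi⟩ = t) ∧
  ∀ (κ h : Fin d → ℝ) (Rg : ℝ),
    (∀ x ∈ Sol d R, ∀ y ∈ Sol d R, gq κ h x - gq κ h y ≤ Rg) →
    ∀ a ∈ Sol d R, ∃ R' ∈ split N d K i R, ∃ a' ∈ Sol d R',
      gq κ h a' ≤ gq κ h a + 20 * Rg / K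

/-- LVS. The slices. Proof (may assume SPL): induction on `j` for `leaves … j`: the systems are `Ok`,
with smaller solution sets, on which `x_{V[j']}` is constant for `j' < j`, and there is a slice with
a point `a'` with `gq a' ≤ gq a + j (20 Rg / K)` (the range of `gq` on a slice is at most `Rg`). -/
def LvsStmt : Prop := ∀ (N d K p : ℕ) (V : List ℕ) (R : List Row) (F : Obj), Ok N d R F →
  (∀ i ∈ V, i < d) → V.length ≤ p → 4 ≤ K →
  (∀ R' ∈ leaves N d K V R p, Ok N d R' F ∧ Sol d R' ⊆ Sol d R ∧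
    ∀ i : Fin d, i.val ∈ V → ∀ x ∈ Sol d R', ∀ y ∈ Sol d R', x i = y i) ∧
  ∀ (κ h : Fin d → ℝ) (Rg : ℝ),
    (∀ x ∈ Sol d R, ∀ y ∈ Sol d R, gq κ h x - gq κ h y ≤ Rg) →
    ∀ a ∈ Sol d R, ∃ R' ∈ leaves N d K V R p, ∃ a' ∈ Sol d R',
      gq κ h a' ≤ gq κ h a + p * (20 * Rg / K)

/-- The coefficients of the squares of `G`. -/
def kG (d : ℕ) (G : List (Zn × Zn)) : Fin d → ℝ := fun j => (Zn.val (G.getD j (Zn.zero, Zn.zero)).1 : ℝ)

/-- The linear coefficients of `G`. -/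
def hG (d : ℕ) (G : List (Zn × Zn)) : Fin d → ℝ := fun j => (Zn.val (G.getD j (Zn.zero, Zn.zero)).2 : ℝ)

/-- APR. The approximation algorithm. Proof (may assume LVS, SLV). The value of `gv G x` is
`gq (kG d G) (hG d G) (lz d x)` (for lists `x` of length `d`). Let `R' ∈ leaves`. On `Sol d R'` the
difference `gq (kG) (hG) x - fv F x = ∑_{j ∈ V} (kG j) x_j^2` is constant (LVS), so the point which
`solve N d R' F` returns (it exists if `Sol d R' ≠ ∅`, SLV) minimises `gq` over `Sol d R'`. If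
`Sol d R ≠ ∅` then by LVS some `Sol d R'` is nonempty, so the list of the candidates is nonempty and
`bestc` returns its best element; all candidates are in `Sol d R`. The estimate is that of LVS. -/
def AprStmt : Prop := ∀ (N d K p : ℕ) (V : List ℕ) (R : List Row) (F : Obj) (G : List (Zn × Zn)),
  Ok N d R F → (∀ i ∈ V, i < d) → V.length ≤ p → 4 ≤ K → G.length = d →
  (∀ j : Fin d, hG d G j = hF d F j ∧ (j.val ∈ V → qF d F j = 0) ∧
    (j.val ∉ V → kG d G j = qF d F j)) →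
  (appr N d K p V R F G = none → Sol d R = ∅) ∧
  ∀ x, appr N d K p V R F G = some x → x.length = d ∧ lz d x ∈ Sol d R ∧
    ∀ Rg : ℝ, (∀ x ∈ Sol d R, ∀ y ∈ Sol d R,
      gq (kG d G) (hG d G) x - gq (kG d G) (hG d G) y ≤ Rg) →
    ∀ a ∈ Sol d R, gq (kG d G) (hG d G) (lz d x) ≤
      gq (kG d G) (hG d G) a + p * (20 * Rg / K)

/-- CDA. The code of an instance: the truncated system. Proof (may assume TUR). The value of
`zof (intCode z)` is `z` (`bval_bits`), so the row `i` of `rowsC` has the coefficients `I.W i` and the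
right hand side `I.w i`, and `trcC` adds the rows `± x_j ≤ 2^s`, `s = szC I.code`. A solution of the
relaxed system has `|x_j| ≤ 2^s + 1 ≤ 2^(s+2) - 1`. With `l_i` the number of the bits of `w_i` one has
`|w_i| ≤ 2^(l_i)`, `∑_i 2^(l_i) ≤ ∏_i 2^(l_i + 1)` (at least one factor, all factors `≥ 2`). -/
def CdaStmt : Prop := ∀ I : Inst, I.W.IsTotallyUnimodular →
  I.code.2.length = I.n ∧ Ok (szC I.code + 2) I.n (trcC I.code) (fobC I.code) ∧
  (∀ x, x ∈ Sol I.n (trcC I.code) ↔ x ∈ I.feasible ∧ ∀ j, |x j| ≤ 2 ^ szC I.code) ∧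
  ∑ i, |I.w i| ≤ 2 ^ szC I.code

/-- CDB. The code of an instance: the objective. Proof: unfold. -/
def CdbStmt : Prop := ∀ I : Inst,
  (gobC I.code).length = I.n ∧ (∀ i ∈ vinC I.code, i < I.n) ∧ (vinC I.code).length = I.V.card ∧
  (∀ j : Fin I.n, j.val ∈ vinC I.code ↔ j ∈ I.V) ∧
  (∀ j : Fin I.n, hG I.n (gobC I.code) j = hF I.n (fobC I.code) j ∧
    (j.val ∈ vinC I.code → qF I.n (fobC I.code) j = 0) ∧
    (j.val ∉ vinC I.code → kG I.n (gobC I.code) j = qF I.n (fobC I.code) j)) ∧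
  ∀ x : Fin I.n → ℤ, gq (kG I.n (gobC I.code)) (hG I.n (gobC I.code)) x = (I.f x : ℝ)

/-- COR. The algorithm is correct. Proof (may assume APR, CDA, CDB, TRC). By TRC and CDA: if
`I.feasible ≠ ∅` then the truncated system has a solution, so `alg = none` implies that `I` is
infeasible. Let `alg = some x`. Then `x` (its values) is feasible. Since `f` is integer valued and not
unbounded below there is an optimal `y`. Let `M` be an upper bound of `f` on the feasible set. By TRC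
there is a feasible `y0` with `|y0_j| ≤ 2^s` and `W (y - y0) ≤ 0`; so all `y0 + k (y - y0)`, `k ≥ 0`,
are feasible, `f` at these points is a polynomial in `k` of degree `≤ 2` with values in
`[f y, M]`, so it is constant: `f y0 = f y`. APR with `a = y0`, `Rg = M - f y` gives
`f x ≤ f y + p (20 (M - f y) / K)`. -/
def CorStmt : Prop := ∀ (p K : ℕ), 4 ≤ K → ∀ I : TUInst p, ¬ I.1.UnboundedBelow →
  Correct (20 * p / K) I.1 (out (alg p K I.1.code))

end

end Pool.Agent.Helper84.SQ
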