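import Pool.Agent.Helper92.FR.Alg
import Pool.Agent.Helper45.SQP.Defs

/-!
# Separable indefinite quadratic integer programs: the algorithm

All functions below are computed in polynomial time; natural numbers of the type `ℕ` are in unary,
`BN` in binary, `Qn` are exact rational numbers, `Zn` integers (differences of two `BN`).

* `solve`: the exact minimum of a separable convex quadratic function over the integer points of a
  bounded totally unimodular system (cutting planes with simplices for the piecewise linear
  interpolation, then a self-reduction);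
* `leaves`: the slices, `K + 1` for each concave variable;
* `alg`: the approximation algorithm.
-/

namespace Pool.Agent.Helper84.SQ

open Pool.Agent.Helper81.CC Pool.Agent.Bin
open Pool.Agent.Helper92.FR (Qn Cst dot cut cini cen)

/-- Integers, as differences of binary natural numbers. -/
abbrev Zn := BN × BN

namespace Zn

/-- The value. -/
def val (z : Zn) : ℤ := (z.1.val : ℤ) - z.2.val
/-- Zero. -/
def zero : Zn := (⟨0⟩, ⟨0⟩)
/-- One. -/
def one : Zn := (⟨1⟩, ⟨0⟩)
/-- Addition. -/
def add (x y : Zn) : Zn := (x.1 + y.1, x.2 + y.2)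
/-- Negation. -/
def neg (x : Zn) : Zn := (x.2, x.1)
/-- Multiplication. -/
def mul (x y : Zn) : Zn := (x.1 * y.1 + x.2 * y.2, x.1 * y.2 + x.2 * y.1)
/-- Comparison. -/
def le (x y : Zn) : Bool := decide (x.1 + y.2 ≤ y.1 + x.2)
/-- Sum of a list. -/
def sum (l : List Zn) : Zn := (BN.sum (l.map Prod.fst), BN.sum (l.map Prod.snd))
/-- As a rational number. -/
def q (z : Zn) : Qn := (z.1, z.2, ⟨0⟩)

end Zn

/-- A linear inequality `a · x ≤ b`. -/
abbrev Row := List Zn × Zn

/-- A separable convex objective: the pairs `(q j, h j)` for `∑ q j x j ^ 2 + h j x j`. -/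
abbrev Obj := List (BN × Zn)

/-- The floor. -/
def flz (x : Qn) : Zn :=
  if x.2.1 ≤ x.1 then ((x.1 - x.2.1) / (x.2.2 + ⟨1⟩), ⟨0⟩)
  else (⟨0⟩, (x.2.1 - x.1 + x.2.2) / (x.2.2 + ⟨1⟩))

/-- The nearest integer. -/
def rnd (x : Qn) : Zn := flz (Qn.add x (⟨1⟩, ⟨0⟩, ⟨1⟩))

/-- The slope `q (2 ⌊x⌋ + 1) + h`. -/
def slp (c : BN × Zn) (x : Qn) : Zn :=
  Zn.add (Zn.mul (c.1, ⟨0⟩) (Zn.add (Zn.add (flz x) (flz x)) Zn.one)) c.2

/-- The offset `q ⌊x⌋ (⌊x⌋ + 1)`. -/
def off (c : BN × Zn) (x : Qn) : Zn :=
  Zn.mul (c.1, ⟨0⟩) (Zn.mul (flz x) (Zn.add (flz x) Zn.one))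

/-- The piecewise linear interpolation of the objective. -/
def fh (F : Obj) (x : List Qn) : Qn :=
  Qn.sum (List.zipWith (fun c y => Qn.sub (Qn.mul (Zn.q (slp c y)) y) (Zn.q (off c y))) F x)

/-- A subgradient. -/
def grd (F : Obj) (x : List Qn) : List Qn := List.zipWith (fun c y => Zn.q (slp c y)) F x

/-- Does `x` satisfy the row, up to `1 / 2 ^ D`? -/
def okr (D : ℕ) (x : List Qn) (r : Row) : Bool :=
  Qn.le (dot (r.1.map Zn.q) x) (Qn.add (Zn.q r.2) (⟨1⟩, ⟨0⟩, BN.pow2 D - ⟨1⟩))

/-- The cut at the point `x`: a violated row or a subgradient. -/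
def orc (D : ℕ) (R : List Row) (F : Obj) (x : List Qn) : List Qn :=
  ((R.find? fun r => !okr D x r).map fun r => r.1.map Zn.q).getD (grd F x)

/-- The tolerance is `1 / 2 ^ (pD N)`. -/
def pD (N : ℕ) : ℕ := 4 * N + 5

/-- The number of the steps. -/
def pT (N : ℕ) : ℕ := 8 * (N + 1) ^ 2 * N * (7 * N + 6) + 1

/-- The state after `k` cutting plane steps. -/
def stt (N d : ℕ) (R : List Row) (F : Obj) (k : ℕ) : Cst :=
  (fun st => cut d st (orc (pD N) R F (cen d st)))^[k] (cini d N)

/-- The almost feasible centroids. -/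
def cens (N d : ℕ) (R : List Row) (F : Obj) : List (List Qn) :=
  ((List.range (pT N)).map fun k => cen d (stt N d R F k)).filter fun x => R.all (okr (pD N) x)

/-- The best almost feasible centroid. -/
def bst (N d : ℕ) (R : List Row) (F : Obj) : Option (List Qn) :=
  (cens N d R F).find? fun x => (cens N d R F).all fun y => Qn.le (fh F x) (fh F y)

/-- The optimal value over the integer points. -/
def optv (N d : ℕ) (R : List Row) (F : Obj) : Option Zn :=
  (bst N d R F).map fun x => rnd (fh F x)

/-- The vector `s e_i`. -/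
def unitR (d i : ℕ) (s : Zn) : List Zn := (List.range d).map fun j => if j = i then s else Zn.zero

/-- The rows of the box `b.1 ≤ x ≤ b.2`. -/
def boxR (d : ℕ) (b : List Zn × List Zn) : List Row :=
  ((List.range d).map fun i => (unitR d i Zn.one, b.2.getD i Zn.zero)) ++
    (List.range d).map fun i => (unitR d i (Zn.neg Zn.one), Zn.neg (b.1.getD i Zn.zero))

/-- The rows of `x i = t`. -/
def fixR (d i : ℕ) (t : Zn) : List Row :=
  [(unitR d i Zn.one, t), (unitR d i (Zn.neg Zn.one), Zn.neg t)]

/-- Replacement of the entry `i`. -/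
def setl (l : List Zn) (i : ℕ) (a : Zn) : List Zn :=
  (List.range l.length).map fun j => if j = i then a else l.getD j Zn.zero

/-- Is the optional value at most `v`? -/
def hasv (o : Option Zn) (v : Zn) : Bool := (o.map fun u => Zn.le u v).getD false

/-- The box with the coordinate `i` fixed at its lower bound. -/
def lowb (b : List Zn × List Zn) (i : ℕ) : List Zn × List Zn :=
  (b.1, setl b.2 i (b.1.getD i Zn.zero))

/-- The box with the coordinate `i` fixed at its upper bound. -/
def uppb (b : List Zn × List Zn) (i : ℕ) : List Zn × List Zn :=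
  (setl b.1 i (b.2.getD i Zn.zero), b.2)

/-- One step of the self-reduction. -/
def redS (N d : ℕ) (R : List Row) (F : Obj) (v : Zn) (b : List Zn × List Zn) (i : ℕ) :
    List Zn × List Zn :=
  if hasv (optv N d (R ++ boxR d (lowb b i)) F) v = true then lowb b i else uppb b i

/-- An optimal solution. -/
def solve (N d : ℕ) (R : List Row) (F : Obj) : Option (List Zn) :=
  (bst N d R F).map fun x => ((List.range d).foldl (redS N d R F (rnd (fh F x)))
    (x.map flz, x.map fun y => Zn.add (flz y) Zn.one)).1

/-- The objective `s x_i`. -/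
def eobj (d i : ℕ) (s : Zn) : Obj := (unitR d i s).map fun a => (⟨0⟩, a)

/-- The smallest value of `x i`. -/
def cmin (N d : ℕ) (R : List Row) (i : ℕ) : Option Zn :=
  (solve N d R (eobj d i Zn.one)).map fun x => x.getD i Zn.zero

/-- The largest value of `x i`. -/
def cmax (N d : ℕ) (R : List Row) (i : ℕ) : Option Zn :=
  (solve N d R (eobj d i (Zn.neg Zn.one))).map fun x => x.getD i Zn.zero

/-- The grid value `l + ⌊k (u - l) / K⌋`. -/
def grdv (K k : ℕ) (l u : Zn) : Zn :=
  Zn.add l (BN.ofNat k * (u.1 + l.2 - (u.2 + l.1)) / BN.ofNat K, ⟨0⟩)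

/-- The slices of the variable `i`. -/
def split (N d K i : ℕ) (R : List Row) : List (List Row) :=
  ((cmin N d R i).bind fun l => (cmax N d R i).map fun u =>
    (List.range (K + 1)).map fun k => R ++ fixR d i (grdv K k l u)).getD []

/-- The slices of the first `p` variables of the list `V`. -/
def leaves (N d K : ℕ) (V : List ℕ) (R : List Row) : ℕ → List (List Row)
  | 0 => [R]
  | j + 1 => if j < V.length then (leaves N d K V R j).flatMap (split N d K (V.getD j 0))
    else leaves N d K V R j

/-- The value of the objective `∑ c_j.1 x_j ^ 2 + c_j.2 x_j`. -/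
def gv (G : List (Zn × Zn)) (x : List Zn) : Zn :=
  Zn.sum (List.zipWith (fun c y => Zn.add (Zn.mul c.1 (Zn.mul y y)) (Zn.mul c.2 y)) G x)

/-- The best point of a list. -/
def bestc (G : List (Zn × Zn)) (l : List (List Zn)) : Option (List Zn) :=
  l.find? fun x => l.all fun y => Zn.le (gv G x) (gv G y)

/-- The approximate minimum of the objective `G` with the convex part `F` and the concave variables
`V`. -/
def appr (N d K p : ℕ) (V : List ℕ) (R : List Row) (F : Obj) (G : List (Zn × Zn)) :
    Option (List Zn) :=
  bestc G ((leaves N d K V R p).filterMap fun R' => solve N d R' F)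

/-! ### From the code of the instance -/

open Pool.Agent.Helper45.SQP (Code)

/-- An integer of the input. -/
def zof (c : Bool × List Bool) : Zn :=
  if c.1 = true then (⟨0⟩, BN.ofBits c.2) else (BN.ofBits c.2, ⟨0⟩)

/-- The rows of the instance. -/
def rowsC (c : Code) : List Row := c.1.map fun r => (r.1.map zof, zof r.2)

/-- The objective of the instance. -/
def gobC (c : Code) : List (Zn × Zn) := c.2.map fun e =>
  (if e.2.1.1 = true then (BN.ofBits e.2.2, ⟨0⟩)
    else if e.2.1.2 = true then (⟨0⟩, BN.ofBits e.2.2) else Zn.zero, zof e.1)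

/-- The convex part of the objective. -/
def fobC (c : Code) : Obj := c.2.map fun e =>
  (if e.2.1.1 = true then BN.ofBits e.2.2 else ⟨0⟩, zof e.1)

/-- The concave variables. -/
def vinC (c : Code) : List ℕ :=
  (List.range c.2.length).filter fun i => ((c.2.map fun e => e.2.1.2).getD i false)

/-- The size of the truncation (the logarithm). -/
def szC (c : Code) : ℕ := c.2.length + (c.1.map fun r => r.2.2.length + 1).sum +
  (c.2.map fun e => e.1.2.length + e.2.2.length).sum

/-- The truncated system. -/
def trcC (c : Code) : List Row := rowsC c ++ boxR c.2.length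
  (List.replicate c.2.length (⟨0⟩, BN.pow2 (szC c)), List.replicate c.2.length (BN.pow2 (szC c), ⟨0⟩))

/-- The approximation algorithm on codes. -/
def alg (p K : ℕ) (c : Code) : Option (List Zn) :=
  appr (szC c + 2) c.2.length K p (vinC c) (trcC c) (fobC c) (gobC c)

/-- The code of an integer. -/
def icode (z : Zn) : Bool × List Bool := (decide (z.1 < z.2), (z.1 - z.2 + (z.2 - z.1)).bits)

/-- The code of the output. -/
def outC (o : Option (List Zn)) : Option (Option (List (Bool × List Bool))) :=
  o.map fun l => some (l.map icode)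

/-- The output. -/
def out (o : Option (List Zn)) : Pool.Agent.Helper45.SQP.Output :=
  match o with
  | none => .infeasible
  | some l => .point (l.map Zn.val)

end Pool.Agent.Helper84.SQ
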