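import Pool.Agent.Helper84.SQ.GoalsB

/-!
# Packet SQ-COR: the algorithm is correct (fallback)
-/

namespace Pool.Agent.Helper84.SQ

open Pool.Agent.Helper81.CC Pool.Agent.Bin
open Pool.Agent.Helper45.SQP (Inst TUInst Correct Code Output)

theorem quad_zero (a b B : ℝ) (h : ∀ k : ℕ, |a * (k : ℝ) ^ 2 + b * k| ≤ B) : a = 0 ∧ b = 0 := by
  have hb : b = 0 := by
    by_contra hb
    have hb' : 0 < |b| := abs_pos.2 hb
    obtain ⟨k, hk⟩ := exists_nat_gt (5 * B / (2 * |b|))
    rw [div_lt_iff₀ (by positivity)] at hk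
    have h1 := h k
    have h2 := h (2 * k)
    push_cast at h2
    have e : -2 * b * (k : ℝ) =
        (a * (2 * (k : ℝ)) ^ 2 + b * (2 * k)) - 4 * (a * (k : ℝ) ^ 2 + b * k) := by ring
    have h3 : |-2 * b * (k : ℝ)| ≤ 5 * B := by
      rw [e]
      refine (abs_sub _ _).trans ?_
      rw [abs_mul 4 (a * (k : ℝ) ^ 2 + b * k), abs_of_pos (by norm_num : (0 : ℝ) < 4)]
      linarith
    have h4 : |-2 * b * (k : ℝ)| = 2 * |b| * k := by
      rw [abs_mul, abs_mul, abs_of_nonneg (Nat.cast_nonneg k : (0 : ℝ) ≤ k)]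
      norm_num
    rw [h4] at h3
    linarith
  refine ⟨?_, hb⟩
  by_contra ha
  have ha' : 0 < |a| := abs_pos.2 ha
  obtain ⟨k, hk⟩ := exists_nat_gt (B / |a|)
  rw [div_lt_iff₀ ha'] at hk
  have h1 := h (k + 1)
  rw [hb, zero_mul, add_zero, abs_mul] at h1
  have h2 : (k : ℝ) ≤ |(((k + 1 : ℕ) : ℝ)) ^ 2| := by
    rw [abs_of_nonneg (by positivity)]
    push_cast
    nlinarith [(Nat.cast_nonneg k : (0 : ℝ) ≤ k)]
  nlinarith

theorem gq_line {n : ℕ} (κ h : Fin n → ℝ) (y g : Fin n → ℤ) (k : ℕ) :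
    gq κ h (fun j => y j + (k : ℤ) * g j) = gq κ h y + (∑ j, κ j * (g j : ℝ) ^ 2) * (k : ℝ) ^ 2 +
      (∑ j, (2 * κ j * y j * g j + h j * g j)) * k := by
  unfold gq
  rw [Finset.sum_mul, Finset.sum_mul, ← Finset.sum_add_distrib, ← Finset.sum_add_distrib]
  refine Finset.sum_congr rfl fun j _ => ?_
  push_cast
  ring

theorem cor' (hapr : AprStmt) (hcda : CdaStmt) (hcdb : CdbStmt) (htrc : TrcStmt) : CorStmt := by
  intro p K hK I hI
  obtain ⟨hlen, hok, hsol, hw⟩ := hcda I.1 I.2.1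
  obtain ⟨hGl, hVlt, hVl, hVm, hcoef, hf⟩ := hcdb I.1
  have hfea : ∀ x : Fin I.1.n → ℤ, x ∈ I.1.feasible ↔ x ∈ Fea I.1.W I.1.w := fun x => Iff.rfl
  have hA := hapr (szC I.1.code + 2) I.1.n K p (vinC I.1.code) (trcC I.1.code) (fobC I.1.code)
    (gobC I.1.code) hok hVlt (by rw [hVl]; exact I.2.2) hK hGl hcoef
  have hal : alg p K I.1.code = appr (szC I.1.code + 2) I.1.n K p (vinC I.1.code)
    (trcC I.1.code) (fobC I.1.code) (gobC I.1.code) := by
    unfold alg
    rw [hlen]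
  rw [hal]
  cases hx : appr (szC I.1.code + 2) I.1.n K p (vinC I.1.code)
      (trcC I.1.code) (fobC I.1.code) (gobC I.1.code) with
  | none =>
    show I.1.feasible = ∅
    have h0 := hA.1 hx
    rw [Set.eq_empty_iff_forall_notMem]
    intro x hx
    obtain ⟨y, hy, hyb, -⟩ := htrc I.1.m I.1.n I.1.W I.1.w I.2.1 x ((hfea x).1 hx)
    have h1 : y ∈ Sol I.1.n (trcC I.1.code) :=
      (hsol y).2 ⟨(hfea y).2 hy, fun j => (hyb j).trans hw⟩
    rw [h0] at h1
    exact h1
  | some x =>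
    obtain ⟨hxl, hxS, hest⟩ := hA.2 x hx
    have hxF := ((hsol _).1 hxS).1
    show ∃ x' : Fin I.1.n → ℤ, x.map Zn.val = List.ofFn x' ∧ I.1.IsApprox (20 * p / K) x'
    refine ⟨lz I.1.n x, ?_, hxF, ?_⟩
    · apply List.ext_getElem
      · rw [List.length_map, List.length_ofFn, hxl]
      · intro i h1 h2
        rw [List.getElem_map, List.getElem_ofFn]
        unfold lz
        rw [List.length_map] at h1
        rw [List.getD_eq_getElem _ _ h1]
    · have hbd : ∃ b : ℤ, ∀ z : ℤ, (∃ u ∈ I.1.feasible, I.1.f u = z) → b ≤ z := by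
        unfold Inst.UnboundedBelow at hI
        push Not at hI
        obtain ⟨M, hM⟩ := hI
        refine ⟨M, ?_⟩
        rintro z ⟨u, hu, rfl⟩
        exact hM u hu
      obtain ⟨v, ⟨y, hy, hyv⟩, hmin⟩ := Int.exists_least_of_bdd hbd ⟨_, _, hxF, rfl⟩
      have hopt : ∀ z ∈ I.1.feasible, I.1.f y ≤ I.1.f z := by
        intro z hz
        rw [hyv]
        exact hmin _ ⟨z, hz, rfl⟩
      refine ⟨y, ⟨hy, hopt⟩, fun M hM => ?_⟩
      obtain ⟨y0, hy0, hyb, hyW⟩ := htrc I.1.m I.1.n I.1.W I.1.w I.2.1 y ((hfea y).1 hy)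
      have hline : ∀ k : ℕ, (fun j => y0 j + (k : ℤ) * (y j - y0 j)) ∈ I.1.feasible := by
        intro k
        rw [hfea]
        intro i
        have e : ∑ j, I.1.W i j * (y0 j + (k : ℤ) * (y j - y0 j)) =
            ∑ j, I.1.W i j * y0 j + (k : ℤ) * ∑ j, I.1.W i j * (y j - y0 j) := by
          rw [Finset.mul_sum, ← Finset.sum_add_distrib]
          exact Finset.sum_congr rfl fun j _ => by ring
        show ∑ j, I.1.W i j * (y0 j + (k : ℤ) * (y j - y0 j)) ≤ I.1.w i
        rw [e]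
        have h1 : ∑ j, I.1.W i j * y0 j ≤ I.1.w i := hy0 i
        have h2 := mul_nonpos_of_nonneg_of_nonpos (Int.natCast_nonneg k) (hyW i)
        linarith
      have hzero := quad_zero
        (∑ j, kG I.1.n (gobC I.1.code) j * ((fun j => y j - y0 j) j : ℤ) ^ 2)
        (∑ j, (2 * kG I.1.n (gobC I.1.code) j * y0 j * ((fun j => y j - y0 j) j : ℤ) +
          hG I.1.n (gobC I.1.code) j * ((fun j => y j - y0 j) j : ℤ)))
        (M - I.1.f y) (by
          intro k
          have h1 := gq_line (kG I.1.n (gobC I.1.code)) (hG I.1.n (gobC I.1.code)) y0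
            (fun j => y j - y0 j) k
          rw [hf, hf] at h1
          have h2 := hM _ (hline k)
          have h3 : (I.1.f y : ℝ) ≤ I.1.f (fun j => y0 j + (k : ℤ) * (y j - y0 j)) := by
            exact_mod_cast hopt _ (hline k)
          have h4 := hM _ ((hfea _).2 hy0)
          have h5 : (I.1.f y : ℝ) ≤ I.1.f y0 := by exact_mod_cast hopt _ ((hfea _).2 hy0)
          rw [abs_le]
          constructor <;> linarith)
      have hy0v : (I.1.f y0 : ℝ) = I.1.f y := by
        have h1 := gq_line (kG I.1.n (gobC I.1.code)) (hG I.1.n (gobC I.1.code)) y0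
          (fun j => y j - y0 j) 1
        rw [hf, hf, hzero.1, hzero.2] at h1
        have e : (fun j => y0 j + ((1 : ℕ) : ℤ) * (fun j => y j - y0 j) j) = y := by
          funext j
          simp
        rw [e] at h1
        linarith
      have hy0S : y0 ∈ Sol I.1.n (trcC I.1.code) :=
        (hsol y0).2 ⟨(hfea y0).2 hy0, fun j => (hyb j).trans hw⟩
      have hR := hest (M - I.1.f y) (by
        intro u hu u' hu'
        rw [hf, hf]
        have h1 := hM u ((hsol u).1 hu).1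
        have h2 : (I.1.f y : ℝ) ≤ I.1.f u' := by exact_mod_cast hopt _ ((hsol u').1 hu').1
        linarith) y0 hy0S
      rw [hf, hf, hy0v] at hR
      have e : (p : ℝ) * (20 * (M - I.1.f y) / K) = 20 * p / K * (M - I.1.f y) := by ring
      rw [e] at hR
      linarith

end Pool.Agent.Helper84.SQ
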