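import Pool.Agent.Helper84.SQ.GoalsB

namespace Pool.Agent.Helper84.SQ

theorem opb' (hR : RndStmt) (hP : PlwStmt) : OpbStmt := by
  intro N d R F hok z hz
  have hδ0 : (0 : ℝ) < 1 / 2 ^ pD N := by positivity
  have hδ1 : (1 : ℝ) / 2 ^ pD N ≤ 1 := by
    rw [div_le_one (by positivity)]
    exact one_le_pow₀ (by norm_num)
  have hz1 : Near d R 1 z := fun r hr => (hz r hr).trans (by linarith)
  have hzb := hok.bd z hz1
  have hdN : (d : ℝ) ≤ 2 ^ N := by
    have h1 : d ≤ 2 ^ N := hok.dN.trans Nat.lt_two_pow_self.le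
    exact_mod_cast h1
  have hP1 : (1 : ℝ) ≤ 2 ^ N := one_le_pow₀ (by norm_num)
  have hpD : (2 : ℝ) ^ pD N = 32 * (2 ^ N * 2 ^ N * (2 ^ N * 2 ^ N)) := by
    unfold pD; ring
  have hd0 : (0 : ℝ) ≤ d := Nat.cast_nonneg _
  set P : ℝ := 2 ^ N with hPd
  have hPP : (1 : ℝ) ≤ P * P := by nlinarith
  have hdd : (d : ℝ) ^ 2 ≤ P * P := by nlinarith
  have hsm : ((d : ℝ) ^ 2 + 1) * (1 / 2 ^ pD N) < 1 := by
    rw [hpD, mul_one_div, div_lt_one (by positivity)]
    nlinarith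
  set c : Fin d → ℝ := fun j => sl (qF d F j) (hF d F j) (z j) with hc
  have hsl : ∀ j, |c j| ≤ 8 * (P * P) := by
    intro j
    have hq0 : 0 ≤ qF d F j := by unfold qF; positivity
    have h1 := (hP (qF d F j) (hF d F j) (z j) hq0).2.2.2 N (hok.cq j) (hok.ch j)
      ((hzb j).trans (by linarith))
    have h2 : (2 : ℝ) ^ (2 * N + 3) = 8 * (P * P) := by rw [hPd]; ring
    rw [h2] at h1
    exact h1
  obtain ⟨y, hy, hbox, hobj⟩ := hR R.length d (MR d R) (fun i => Zn.val (R.get i).2) c z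
    (1 / 2 ^ pD N) hok.tu hδ0.le hsm (fun i => hz _ (List.get_mem _ _))
  refine ⟨y, ?_, hbox, ?_⟩
  · intro r hr
    obtain ⟨i, hi⟩ := List.get_of_mem hr
    have h1 := hy i
    simp only [MR] at h1
    rw [hi] at h1
    exact h1
  · have e : (fv d F y : ℝ) = plF d F z + (∑ j, c j * (y j : ℝ) - ∑ j, c j * z j) := by
      unfold fv plF
      push_cast
      rw [← Finset.sum_sub_distrib, ← Finset.sum_add_distrib]
      refine Finset.sum_congr rfl fun j _ => ?_
      have hq0 : 0 ≤ qF d F j := by unfold qF; positivity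
      have h1 := (hP (qF d F j) (hF d F j) (z j) hq0).2.2.1 (y j) (hbox j).1 (hbox j).2
      rw [h1, hc]
      ring
    have h2 : ∑ j, |c j| ≤ d * (8 * (P * P)) := by
      calc ∑ j, |c j| ≤ ∑ _j : Fin d, 8 * (P * P) := Finset.sum_le_sum fun j _ => hsl j
        _ = d * (8 * (P * P)) := by simp
    have h3 : (d : ℝ) * (1 / 2 ^ pD N) * ∑ j, |c j| ≤ 1 / 4 := by
      have h4 : (d : ℝ) * (1 / 2 ^ pD N) * ∑ j, |c j| ≤
          (d : ℝ) * (1 / 2 ^ pD N) * (d * (8 * (P * P))) :=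
        mul_le_mul_of_nonneg_left h2 (by positivity)
      refine h4.trans ?_
      have h5 : (d : ℝ) * (1 / 2 ^ pD N) * (d * (8 * (P * P))) =
          (d ^ 2 * (8 * (P * P))) / 2 ^ pD N := by ring
      rw [h5, hpD, div_le_div_iff₀ (by positivity) (by norm_num)]
      have h6 : (d : ℝ) ^ 2 * (P * P) ≤ (P * P) * (P * P) :=
        mul_le_mul_of_nonneg_right hdd (by positivity)
      nlinarith
    linarith

end Pool.Agent.Helper84.SQ
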