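import Pool.Agent.Helper84.SQ.GoalsB

/-!
# Packet SQ-SLV: the exact solver (fallback)
-/

namespace Pool.Agent.Helper84.SQ

open Pool.Agent.Helper81.CC Pool.Agent.Bin
open Pool.Agent.Helper92.FR (Qn Cst dot cut cini cen lv)

theorem lz_setl {d : ℕ} {l : List Zn} (hl : l.length = d) (i : ℕ) (a : Zn) (j : Fin d) :
    lz d (setl l i a) j = if j.val = i then Zn.val a else lz d l j := by
  have hj : j.val < (setl l i a).length := by
    simp only [setl, List.length_map, List.length_range, hl]
    exact j.2
  unfold lz
  rw [List.getD_eq_getElem _ _ hj]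
  unfold setl
  rw [List.getElem_map, List.getElem_range]
  split_ifs <;> rfl

theorem length_setl {d : ℕ} {l : List Zn} (hl : l.length = d) (i : ℕ) (a : Zn) :
    (setl l i a).length = d := by
  simp only [setl, List.length_map, List.length_range, hl]

theorem lz_map {d : ℕ} {x : List Qn} (hx : x.length = d) (f : Qn → Zn) (j : Fin d) :
    lz d (x.map f) j = Zn.val (f (x.getD j Qn.zero)) := by
  have hj : j.val < x.length := by rw [hx]; exact j.2
  have hj' : j.val < (x.map f).length := by rw [List.length_map]; exact hj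
  unfold lz
  rw [List.getD_eq_getElem _ _ hj', List.getElem_map, List.getD_eq_getElem _ _ hj]

/-- The invariant of the self-reduction. -/
def SInv (d : ℕ) (R : List Row) (F : Obj) (v : ℤ) (k : ℕ) (b : List Zn × List Zn) : Prop :=
  b.1.length = d ∧ b.2.length = d ∧ (∀ j : Fin d, j.val < k → lz d b.2 j = lz d b.1 j) ∧
  (∀ j : Fin d, k ≤ j.val → lz d b.2 j = lz d b.1 j + 1) ∧
  ∃ y ∈ Sol d R, fv d F y = v ∧ ∀ j, lz d b.1 j ≤ y j ∧ y j ≤ lz d b.2 j

theorem sinv_step (hO : OptStmt) (hB : BxoStmt) {N d : ℕ} {R : List Row} {F : Obj}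
    (hok : Ok N d R F) {v : Zn} (hv : ∀ y ∈ Sol d R, Zn.val v ≤ fv d F y) {i : ℕ} (hi : i < d)
    {b : List Zn × List Zn} (h : SInv d R F (Zn.val v) i b) :
    SInv d R F (Zn.val v) (i + 1) (redS N d R F v b i) := by
  obtain ⟨h1, h2, h3, h4, y, hy, hyv, hyb⟩ := h
  obtain ⟨hok', hsol⟩ := (hB N d R F hok).1 (lowb b i)
  obtain ⟨o1, o2⟩ := hO N d _ F hok'
  have hlow2 : ∀ j : Fin d, lz d (lowb b i).2 j = if j.val = i then lz d b.1 j else lz d b.2 j := by
    intro j
    unfold lowb
    rw [lz_setl h2]
    split_ifs with hj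
    · subst hj; rfl
    · rfl
  have hupp1 : ∀ j : Fin d, lz d (uppb b i).1 j = if j.val = i then lz d b.2 j else lz d b.1 j := by
    intro j
    unfold uppb
    rw [lz_setl h1]
    split_ifs with hj
    · subst hj; rfl
    · rfl
  unfold redS
  by_cases ht : hasv (optv N d (R ++ boxR d (lowb b i)) F) v = true
  · rw [if_pos ht]
    unfold hasv optv at ht
    cases hb : bst N d (R ++ boxR d (lowb b i)) F with
    | none => rw [hb] at ht; simp at ht
    | some x' =>
      rw [hb] at ht
      simp only [Option.map_some, Option.getD_some] at ht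
      rw [Zn.le_iff] at ht
      obtain ⟨-, y', hy', -, -, hval⟩ := o2 x' hb
      rw [hval] at ht
      obtain ⟨hyR, hybox⟩ := (hsol y').1 hy'
      refine ⟨h1, ?_, ?_, ?_, y', hyR, le_antisymm ht (hv y' hyR), hybox⟩
      · exact length_setl h2 _ _
      · intro j hj
        rw [hlow2]
        split_ifs with hji
        · rfl
        · exact h3 j (by omega)
      · intro j hj
        rw [hlow2, if_neg (by omega)]
        exact h4 j (by omega)
  · rw [if_neg ht]
    have hyi : y ⟨i, hi⟩ = lz d b.2 ⟨i, hi⟩ := by
      by_contra hne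
      have hlo : y ⟨i, hi⟩ = lz d b.1 ⟨i, hi⟩ := by
        have e1 := h4 ⟨i, hi⟩ le_rfl
        have e2 := hyb ⟨i, hi⟩
        omega
      have hyS : y ∈ Sol d (R ++ boxR d (lowb b i)) := by
        refine (hsol y).2 ⟨hy, fun j => ⟨(hyb j).1, ?_⟩⟩
        rw [hlow2]
        split_ifs with hji
        · have : j = ⟨i, hi⟩ := Fin.ext hji
          rw [this, hlo]
        · exact (hyb j).2
      apply ht
      cases hb : bst N d (R ++ boxR d (lowb b i)) F with
      | none =>
        have := o1 hb
        rw [this] at hyS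
        exact absurd hyS (Set.notMem_empty _)
      | some x' =>
        obtain ⟨-, y', hy', hmin, -, hval⟩ := o2 x' hb
        unfold hasv optv
        rw [hb]
        simp only [Option.map_some, Option.getD_some]
        rw [Zn.le_iff, hval, ← hyv]
        exact hmin y hyS
    refine ⟨length_setl h1 _ _, h2, ?_, ?_, y, hy, hyv, ?_⟩
    · intro j hj
      rw [hupp1]
      split_ifs with hji
      · rfl
      · exact h3 j (by omega)
    · intro j hj
      rw [hupp1, if_neg (by omega)]
      exact h4 j (by omega)
    · intro j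
      rw [hupp1]
      refine ⟨?_, (hyb j).2⟩
      split_ifs with hji
      · have : j = ⟨i, hi⟩ := Fin.ext hji
        rw [this, hyi]
      · exact (hyb j).1

theorem slv' (hO : OptStmt) (hB : BxoStmt) : SlvStmt := by
  intro N d R F hok
  obtain ⟨o1, o2⟩ := hO N d R F hok
  refine ⟨fun h => ?_, fun x h => ?_⟩
  · apply o1
    unfold solve at h
    exact Option.map_eq_none_iff.1 h
  · unfold solve at h
    rw [Option.map_eq_some_iff] at h
    obtain ⟨z, hz, hx⟩ := h
    obtain ⟨hlen, y, hy, hmin, hbox, hval⟩ := o2 z hz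
    have hv : ∀ y' ∈ Sol d R, Zn.val (rnd (fh F z)) ≤ fv d F y' := by
      intro y' hy'
      rw [hval]
      exact hmin y' hy'
    have h0 : SInv d R F (Zn.val (rnd (fh F z))) 0
        (z.map flz, z.map fun y => Zn.add (flz y) Zn.one) := by
      refine ⟨by rw [List.length_map, hlen], by rw [List.length_map, hlen],
        fun j hj => absurd hj (Nat.not_lt_zero _), ?_, y, hy, hval.symm, ?_⟩
      · intro j _
        rw [lz_map hlen, lz_map hlen, Zn.val_add, Zn.val_one]
      · intro j
        rw [lz_map hlen, lz_map hlen, Zn.val_add, Zn.val_one, val_flz]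
        exact hbox j
    have hk : ∀ k ≤ d, SInv d R F (Zn.val (rnd (fh F z))) k
        ((List.range k).foldl (redS N d R F (rnd (fh F z)))
          (z.map flz, z.map fun y => Zn.add (flz y) Zn.one)) := by
      intro k
      induction k with
      | zero => intro _; exact h0
      | succ k ih =>
        intro hk
        rw [List.range_succ, List.foldl_append]
        exact sinv_step hO hB hok hv (by omega) (ih (by omega))
    obtain ⟨g1, g2, g3, -, y', hy', hyv, hyb⟩ := hk d le_rfl
    rw [hx] at g1 g3 hyb
    have he : lz d x = y' := by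
      funext j
      have e1 := g3 j j.2
      have e2 := hyb j
      omega
    refine ⟨g1, by rw [he]; exact hy', fun y'' hy'' => ?_⟩
    rw [he, hyv, hval]
    exact hmin y'' hy''

end Pool.Agent.Helper84.SQ
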