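import Pool.Agent.Helper77.SQ.RND

/-!
# Packet SQ-TRC: truncation (fallback)
-/

namespace Pool.Agent.Helper84.SQ

open Matrix

theorem tuI (hT : TurStmt) {ι : Type} [Fintype ι] {m n : ℕ} (W : Matrix (Fin m) (Fin n) ℤ)
    (hW : W.IsTotallyUnimodular) (A : Matrix ι (Fin n) ℤ)
    (h : ∀ i, (∃ i', A i = W i') ∨ (∃ i', A i = -W i') ∨ (∃ j, A i = Pi.single j 1) ∨
      (∃ j, A i = Pi.single j (-1)) ∨ A i = 0) : A.IsTotallyUnimodular := by
  classical
  set e := Fintype.equivFin ι with he
  have h1 := hT m n (Fintype.card ι) W (A.submatrix e.symm id) hW (fun i => h (e.symm i))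
  have h2 := h1.submatrix e id
  have e1 : (A.submatrix e.symm id).submatrix e id = A := by
    ext i j
    simp
  rwa [e1] at h2

theorem rndI (hR : RndStmt) (hT : TurStmt) {ι : Type} [Fintype ι] {m n : ℕ}
    (W : Matrix (Fin m) (Fin n) ℤ) (hW : W.IsTotallyUnimodular) (A : Matrix ι (Fin n) ℤ)
    (b : ι → ℤ) (h : ∀ i, (∃ i', A i = W i') ∨ (∃ i', A i = -W i') ∨ (∃ j, A i = Pi.single j 1) ∨
      (∃ j, A i = Pi.single j (-1)) ∨ A i = 0) (c z : Fin n → ℝ)
    (hz : ∀ i, ∑ j, (A i j : ℝ) * z j ≤ b i) :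
    ∃ y : Fin n → ℤ, (∀ i, ∑ j, A i j * y j ≤ b i) ∧ ∑ j, c j * (y j : ℝ) ≤ ∑ j, c j * z j := by
  classical
  set e := Fintype.equivFin ι with he
  have h1 := hT m n (Fintype.card ι) W (A.submatrix e.symm id) hW (fun i => h (e.symm i))
  obtain ⟨y, hy, -, hc⟩ := hR (Fintype.card ι) n (A.submatrix e.symm id) (fun i => b (e.symm i)) c z
    0 h1 le_rfl (by rw [mul_zero]; exact zero_lt_one) (fun i => by
      rw [add_zero]
      exact hz (e.symm i))
  refine ⟨y, fun i => ?_, ?_⟩
  · have h2 := hy (e i)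
    simpa using h2
  · simpa using hc

theorem bnd {ι : Type} {n : ℕ} [DecidableEq ι] (A : Matrix ι (Fin n) ℤ)
    (hA : A.IsTotallyUnimodular)
    (row : Fin n → ι) (hrow : ∀ j, A (row j) = Pi.single j 1) (f : Fin n → ι)
    (hf : (A.submatrix f id).det ≠ 0) (x b : Fin n → ℝ)
    (hx : ∀ k, ∑ j, (A (f k) j : ℝ) * x j = b k) (j : Fin n) : |x j| ≤ ∑ k, |b k| := by
  set B := A.submatrix f id with hB
  have hTU := (isTotallyUnimodular_iff A).1 hA
  have hdet : B.det * B.det = 1 := by
    obtain ⟨s, hs⟩ := hTU n f id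
    rw [← hB] at hs
    cases s
    · exfalso; apply hf; rw [← hs]; rfl
    · rw [← hs]; rfl
    · rw [← hs]; rfl
  have hadj : ∀ i k, |(B.adjugate i k : ℝ)| ≤ 1 := by
    intro i k
    rw [Matrix.adjugate_apply]
    have h1 : B.updateRow k (Pi.single i 1) = A.submatrix (Function.update f k (row i)) id := by
      ext a b
      rw [Matrix.updateRow_apply, Matrix.submatrix_apply, Function.update_apply]
      by_cases h : a = k
      · rw [if_pos h, if_pos h, hrow]; rfl
      · rw [if_neg h, if_neg h]; rfl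
    rw [h1]
    obtain ⟨s, hs⟩ := hTU n (Function.update f k (row i)) id
    rw [← hs]
    cases s <;> simp
  have hBx : (B.map (Int.castRingHom ℝ)) *ᵥ x = b := by
    funext k
    rw [← hx k]
    rfl
  have h2 : ((B.map (Int.castRingHom ℝ)).adjugate) *ᵥ ((B.map (Int.castRingHom ℝ)) *ᵥ x) =
      (B.map (Int.castRingHom ℝ)).det • x := by
    rw [Matrix.mulVec_mulVec, Matrix.adjugate_mul, Matrix.smul_mulVec, Matrix.one_mulVec]
  have h3 : (B.map (Int.castRingHom ℝ)).det = (B.det : ℝ) :=
    ((Int.castRingHom ℝ).map_det B).symm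
  have h4 : (B.map (Int.castRingHom ℝ)).adjugate = (B.adjugate).map (Int.castRingHom ℝ) :=
    ((Int.castRingHom ℝ).map_adjugate B).symm
  rw [h3, h4, hBx] at h2
  have h5 := congrFun h2 j
  have h6 : ((B.adjugate).map (Int.castRingHom ℝ) *ᵥ b) j =
      ∑ k, (B.adjugate j k : ℝ) * b k := by
    simp only [Matrix.mulVec, dotProduct, Matrix.map_apply, eq_intCast]
  rw [h6] at h5
  simp only [Pi.smul_apply, smul_eq_mul] at h5
  have hdr : (B.det : ℝ) * B.det = 1 := by exact_mod_cast hdet
  have hdabs : |(B.det : ℝ)| = 1 := by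
    have h7 : |(B.det : ℝ)| * |(B.det : ℝ)| = 1 := by rw [← abs_mul, hdr, abs_one]
    nlinarith [abs_nonneg (B.det : ℝ)]
  have h8 : |x j| = |∑ k, (B.adjugate j k : ℝ) * b k| := by
    rw [h5, abs_mul, hdabs, one_mul]
  rw [h8]
  refine (Finset.abs_sum_le_sum_abs _ _).trans (Finset.sum_le_sum fun k _ => ?_)
  rw [abs_mul]
  have h10 := hadj j k
  nlinarith [abs_nonneg (B.adjugate j k : ℝ), abs_nonneg (b k)]

/-- The coefficients of the auxiliary system. -/
def AA {m n : ℕ} (W : Matrix (Fin m) (Fin n) ℤ) (s : Fin n → ℤ) (T : Fin m → Prop)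
    (Z : Fin n → Prop) [DecidablePred T] [DecidablePred Z] :
    Matrix (Fin m ⊕ Fin m ⊕ Fin n ⊕ Fin n) (Fin n) ℤ
  | .inl i => W i
  | .inr (.inl i) => if T i then -W i else 0
  | .inr (.inr (.inl j)) => Pi.single j (-s j)
  | .inr (.inr (.inr j)) => if Z j then Pi.single j (s j) else 0

theorem AA_rows {m n : ℕ} (W : Matrix (Fin m) (Fin n) ℤ) (s : Fin n → ℤ) (T : Fin m → Prop)
    (Z : Fin n → Prop) [DecidablePred T] [DecidablePred Z] (hs : ∀ j, s j = 1 ∨ s j = -1)
    (i : Fin m ⊕ Fin m ⊕ Fin n ⊕ Fin n) :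
    (∃ i', AA W s T Z i = W i') ∨ (∃ i', AA W s T Z i = -W i') ∨
    (∃ j, AA W s T Z i = Pi.single j 1) ∨ (∃ j, AA W s T Z i = Pi.single j (-1)) ∨
    AA W s T Z i = 0 := by
  rcases i with i | i | j | j
  · exact Or.inl ⟨i, rfl⟩
  · by_cases h : T i
    · exact Or.inr (Or.inl ⟨i, if_pos h⟩)
    · exact Or.inr (Or.inr (Or.inr (Or.inr (if_neg h))))
  · rcases hs j with h | h
    · refine Or.inr (Or.inr (Or.inr (Or.inl ⟨j, ?_⟩)))
      show (Pi.single j (-s j) : Fin n → ℤ) = _
      rw [h]
    · refine Or.inr (Or.inr (Or.inl ⟨j, ?_⟩))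
      show (Pi.single j (-s j) : Fin n → ℤ) = _
      rw [h, neg_neg]
  · by_cases hZ : Z j
    · rcases hs j with h | h
      · refine Or.inr (Or.inr (Or.inl ⟨j, ?_⟩))
        show (if Z j then Pi.single j (s j) else 0 : Fin n → ℤ) = _
        rw [if_pos hZ, h]
      · refine Or.inr (Or.inr (Or.inr (Or.inl ⟨j, ?_⟩)))
        show (if Z j then Pi.single j (s j) else 0 : Fin n → ℤ) = _
        rw [if_pos hZ, h]
    · exact Or.inr (Or.inr (Or.inr (Or.inr (if_neg hZ))))

theorem sum_single {n : ℕ} (j : Fin n) (a : ℤ) (v : Fin n → ℝ) :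
    ∑ k, (((Pi.single j a : Fin n → ℤ) k : ℤ) : ℝ) * v k = a * v j := by
  rw [Finset.sum_eq_single j]
  · rw [Pi.single_eq_same]
  · intro k _ hk
    rw [Pi.single_eq_of_ne hk]
    simp
  · intro h
    exact absurd (Finset.mem_univ _) h

theorem sum_singleZ {n : ℕ} (j : Fin n) (a : ℤ) (v : Fin n → ℤ) :
    ∑ k, (Pi.single j a : Fin n → ℤ) k * v k = a * v j := by
  rw [Finset.sum_eq_single j]
  · rw [Pi.single_eq_same]
  · intro k _ hk
    rw [Pi.single_eq_of_ne hk]
    simp
  · intro h
    exact absurd (Finset.mem_univ _) h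

theorem trc' (hR : RndStmt) (hT : TurStmt) : TrcStmt := by
  classical
  intro m n W w hW x hx
  set s : Fin n → ℤ := fun j => if 0 ≤ x j then 1 else -1 with hs
  have hs1 : ∀ j, s j = 1 ∨ s j = -1 := by
    intro j
    by_cases h : 0 ≤ x j
    · exact Or.inl (if_pos h)
    · exact Or.inr (if_neg h)
  have hsx : ∀ j, s j * x j = |x j| := by
    intro j
    by_cases h : 0 ≤ x j
    · simp only [hs, if_pos h, one_mul, abs_of_nonneg h]
    · simp only [hs, if_neg h]
      rw [abs_of_neg (not_le.1 h)]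
      ring
  set Cand : (Fin n → ℤ) → Prop := fun y => y ∈ Fea W w ∧ (∀ j, 0 ≤ s j * y j) ∧
    ∀ i, ∑ j, W i j * (x j - y j) ≤ 0 with hCand
  have hex : ∃ k : ℕ, ∃ y, Cand y ∧ (∑ j, s j * y j).toNat = k := by
    refine ⟨_, x, ⟨hx, fun j => by rw [hsx]; exact abs_nonneg _, fun i => ?_⟩, rfl⟩
    simp
  obtain ⟨y, hy, hyk⟩ := Nat.find_spec hex
  have hmin : ∀ y', Cand y' → ∑ j, s j * y j ≤ ∑ j, s j * y' j := by
    intro y' hy'
    have h1 := Nat.find_min' hex ⟨y', hy', rfl⟩
    rw [← hyk] at h1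
    have h2 : 0 ≤ ∑ j, s j * y' j := Finset.sum_nonneg fun j _ => hy'.2.1 j
    omega
  obtain ⟨hyF, hys, hyW⟩ := hy
  have hyabs : ∀ j, s j * y j = |y j| := by
    intro j
    rcases hs1 j with h | h
    · have := hys j
      rw [h, one_mul] at this ⊢
      rw [abs_of_nonneg this]
    · have := hys j
      rw [h] at this ⊢
      rw [abs_of_nonpos (by linarith)]
      ring
  -- the recession cone
  have hrec : ∀ g : Fin n → ℝ, (∀ i, ∑ j, (W i j : ℝ) * g j ≤ 0) →
      (∀ i, ∑ j, W i j * y j = w i → ∑ j, (W i j : ℝ) * g j = 0) →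
      (∀ j, 0 ≤ (s j : ℝ) * g j) → (∀ j, y j = 0 → g j = 0) → g = 0 := by
    intro g g1 g2 g3 g4
    by_contra hg
    have hpos : 0 < ∑ j, (s j : ℝ) * g j := by
      obtain ⟨j, hj⟩ := Function.ne_iff.1 hg
      refine Finset.sum_pos' (fun j _ => g3 j) ⟨j, Finset.mem_univ _, ?_⟩
      refine lt_of_le_of_ne (g3 j) (Ne.symm (mul_ne_zero ?_ hj))
      rcases hs1 j with h | h <;> rw [h] <;> norm_num
    set B : ℝ := 1 + ∑ i, |∑ j, (W i j : ℝ) * g j| + ∑ j, |g j| with hB
    have hB1 : ∀ i, |∑ j, (W i j : ℝ) * g j| ≤ B := by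
      intro i
      have h1 : |∑ j, (W i j : ℝ) * g j| ≤ ∑ i, |∑ j, (W i j : ℝ) * g j| :=
        Finset.single_le_sum (f := fun i => |∑ j, (W i j : ℝ) * g j|)
          (fun i _ => abs_nonneg _) (Finset.mem_univ i)
      have h2 : 0 ≤ ∑ j, |g j| := Finset.sum_nonneg fun j _ => abs_nonneg _
      linarith
    have hB2 : ∀ j, |g j| ≤ B := by
      intro j
      have h1 : |g j| ≤ ∑ j, |g j| := Finset.single_le_sum (f := fun j => |g j|)
        (fun i _ => abs_nonneg _) (Finset.mem_univ j)
      have h2 : 0 ≤ ∑ i, |∑ j, (W i j : ℝ) * g j| := Finset.sum_nonneg fun j _ => abs_nonneg _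
      linarith
    have hBp : 0 < B := by
      have h1 : 0 ≤ ∑ j, |g j| := Finset.sum_nonneg fun j _ => abs_nonneg _
      have h2 : 0 ≤ ∑ i, |∑ j, (W i j : ℝ) * g j| := Finset.sum_nonneg fun j _ => abs_nonneg _
      linarith
    set t : ℝ := 1 / B with ht
    have htp : 0 < t := by positivity
    have htB : t * B = 1 := by rw [ht]; field_simp
    have hlin : ∀ a : Fin n → ℝ, ∑ j, a j * (t * g j) = t * ∑ j, a j * g j := by
      intro a
      rw [Finset.mul_sum]
      exact Finset.sum_congr rfl fun j _ => by ring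
    obtain ⟨g', hg', hc⟩ := rndI hR hT W hW (AA W s (fun _ => True) (fun _ => True))
      (fun i => match i with
        | .inl _ => 0
        | .inr (.inl i) => w i - ∑ j, W i j * y j
        | .inr (.inr (.inl _)) => 0
        | .inr (.inr (.inr j)) => s j * y j)
      (AA_rows W s _ _ hs1) (fun j => -(s j : ℝ)) (fun j => t * g j) (by
        rintro (i | i | j | j)
        · show ∑ j, (W i j : ℝ) * (t * g j) ≤ ((0 : ℤ) : ℝ)
          rw [hlin, Int.cast_zero]
          exact mul_nonpos_of_nonneg_of_nonpos htp.le (g1 i)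
        · show ∑ j, (((if True then -W i else 0 : Fin n → ℤ) j : ℤ) : ℝ) * (t * g j) ≤
            ((w i - ∑ j, W i j * y j : ℤ) : ℝ)
          rw [if_pos trivial]
          have e : ∑ j, (((-W i : Fin n → ℤ) j : ℤ) : ℝ) * (t * g j) =
              -(t * ∑ j, (W i j : ℝ) * g j) := by
            rw [← hlin, ← Finset.sum_neg_distrib]
            refine Finset.sum_congr rfl fun j _ => ?_
            rw [Pi.neg_apply]
            push_cast
            ring
          rw [e]
          have h1 : ∑ j, W i j * y j ≤ w i := hyF i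
          by_cases h2 : ∑ j, W i j * y j = w i
          · rw [g2 i h2, h2]
            simp
          · have h3 : (1 : ℝ) ≤ ((w i - ∑ j, W i j * y j : ℤ) : ℝ) := by
              have : (1 : ℤ) ≤ w i - ∑ j, W i j * y j := by omega
              exact_mod_cast this
            refine le_trans ?_ h3
            have h4 := neg_abs_le (∑ j, (W i j : ℝ) * g j)
            have h5 := hB1 i
            nlinarith
        · show ∑ k, (((Pi.single j (-s j) : Fin n → ℤ) k : ℤ) : ℝ) * (t * g k) ≤ ((0 : ℤ) : ℝ)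
          rw [sum_single j (-s j) (fun k => t * g k)]
          push_cast
          have := mul_nonneg htp.le (g3 j)
          linarith
        · show ∑ k, (((if True then Pi.single j (s j) else 0 : Fin n → ℤ) k : ℤ) : ℝ) *
            (t * g k) ≤ ((s j * y j : ℤ) : ℝ)
          rw [if_pos trivial, sum_single j (s j) (fun k => t * g k)]
          by_cases h2 : y j = 0
          · rw [g4 j h2, h2]
            simp
          · have h3 : (1 : ℝ) ≤ ((s j * y j : ℤ) : ℝ) := by
              have h4 := Int.one_le_abs h2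
              rw [← hyabs j] at h4
              exact_mod_cast h4
            refine le_trans ?_ h3
            have h5 : (s j : ℝ) * (t * g j) ≤ t * |g j| := by
              have h6 : (s j : ℝ) * g j ≤ |g j| := by
                rcases hs1 j with h | h
                · rw [h]; simpa using le_abs_self (g j)
                · rw [h]; simpa using neg_le_abs (g j)
              calc (s j : ℝ) * (t * g j) = t * ((s j : ℝ) * g j) := by ring
                _ ≤ t * |g j| := mul_le_mul_of_nonneg_left h6 htp.le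
            refine h5.trans ?_
            rw [← htB]
            exact mul_le_mul_of_nonneg_left (hB2 j) htp.le)
    have q1 : ∀ i, ∑ j, W i j * g' j ≤ 0 := fun i => hg' (.inl i)
    have q2 : ∀ i, -∑ j, W i j * g' j ≤ w i - ∑ j, W i j * y j := by
      intro i
      have h1 := hg' (.inr (.inl i))
      have e : ∑ j, (AA W s (fun _ => True) (fun _ => True)) (.inr (.inl i)) j * g' j =
          -∑ j, W i j * g' j := by
        show ∑ j, (if True then -W i else 0 : Fin n → ℤ) j * g' j = _
        rw [if_pos trivial, ← Finset.sum_neg_distrib]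
        refine Finset.sum_congr rfl fun j _ => ?_
        rw [Pi.neg_apply]
        ring
      rw [e] at h1
      exact h1
    have q3 : ∀ j, 0 ≤ s j * g' j := by
      intro j
      have h1 := hg' (.inr (.inr (.inl j)))
      have e : ∑ k, (AA W s (fun _ => True) (fun _ => True)) (.inr (.inr (.inl j))) k * g' k =
          (-s j) * g' j := sum_singleZ j (-s j) g'
      rw [e] at h1
      have h2 : -s j * g' j ≤ 0 := h1
      linarith
    have q4 : ∀ j, s j * g' j ≤ s j * y j := by
      intro j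
      have h1 := hg' (.inr (.inr (.inr j)))
      have e : ∑ k, (AA W s (fun _ => True) (fun _ => True)) (.inr (.inr (.inr j))) k * g' k =
          s j * g' j := by
        show ∑ k, (if True then Pi.single j (s j) else 0 : Fin n → ℤ) k * g' k = _
        rw [if_pos trivial]
        exact sum_singleZ j (s j) g'
      rw [e] at h1
      exact h1
    have h7 : 0 < ∑ j, s j * g' j := by
      have h8 : ∑ j, -(s j : ℝ) * (g' j : ℝ) ≤ -(t * ∑ j, (s j : ℝ) * g j) := by
        refine hc.trans (le_of_eq ?_)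
        rw [← hlin, ← Finset.sum_neg_distrib]
        exact Finset.sum_congr rfl fun j _ => by ring
      have h9 : ∑ j, -(s j : ℝ) * (g' j : ℝ) = -((∑ j, s j * g' j : ℤ) : ℝ) := by
        push_cast
        rw [← Finset.sum_neg_distrib]
        exact Finset.sum_congr rfl fun j _ => by ring
      rw [h9] at h8
      have h10 := mul_pos htp hpos
      have h11 : (0 : ℝ) < ((∑ j, s j * g' j : ℤ) : ℝ) := by linarith
      exact_mod_cast h11
    have hsub : ∀ a : Fin n → ℤ, ∑ j, a j * (y j - g' j) = ∑ j, a j * y j - ∑ j, a j * g' j := by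
      intro a
      rw [← Finset.sum_sub_distrib]
      exact Finset.sum_congr rfl fun j _ => by ring
    have h12 := hmin (fun j => y j - g' j) ⟨by
        intro i
        show ∑ j, W i j * (y j - g' j) ≤ w i
        rw [hsub (W i)]
        have := q2 i
        linarith, by
        intro j
        show 0 ≤ s j * (y j - g' j)
        have := q4 j
        rw [mul_sub]
        linarith, by
        intro i
        show ∑ j, W i j * (x j - (y j - g' j)) ≤ 0
        have e : ∑ j, W i j * (x j - (y j - g' j)) =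
            ∑ j, W i j * (x j - y j) + ∑ j, W i j * g' j := by
          rw [← Finset.sum_add_distrib]
          exact Finset.sum_congr rfl fun j _ => by ring
        rw [e]
        have h1 := hyW i
        have h2 := q1 i
        linarith⟩
    rw [hsub s] at h12
    linarith
  refine ⟨y, hyF, fun j0 => ?_, hyW⟩
  -- the vertex
  set T : Fin m → Prop := fun i => ∑ j, W i j * y j = w i with hTd
  set Z : Fin n → Prop := fun j => y j = 0 with hZd
  set A := AA W s T Z with hA
  set β : Fin m ⊕ Fin m ⊕ Fin n ⊕ Fin n → ℝ := fun i => match i with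
    | .inl i => w i
    | .inr (.inl i) => if T i then -(w i : ℝ) else 0
    | .inr (.inr _) => 0 with hβ
  have eW : ∀ (i : Fin m) (v : Fin n → ℝ), ∑ j, (A (.inl i) j : ℝ) * v j =
      ∑ j, (W i j : ℝ) * v j := fun i v => rfl
  have eT : ∀ (i : Fin m) (v : Fin n → ℝ), T i → ∑ j, (A (.inr (.inl i)) j : ℝ) * v j =
      -∑ j, (W i j : ℝ) * v j := by
    intro i v hi
    show ∑ j, (((if T i then -W i else 0 : Fin n → ℤ) j : ℤ) : ℝ) * v j = _
    rw [if_pos hi, ← Finset.sum_neg_distrib]
    refine Finset.sum_congr rfl fun j _ => ?_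
    rw [Pi.neg_apply]
    push_cast
    ring
  have eT' : ∀ (i : Fin m) (v : Fin n → ℝ), ¬ T i → ∑ j, (A (.inr (.inl i)) j : ℝ) * v j = 0 := by
    intro i v hi
    show ∑ j, (((if T i then -W i else 0 : Fin n → ℤ) j : ℤ) : ℝ) * v j = _
    rw [if_neg hi]
    simp
  have eS : ∀ (j : Fin n) (v : Fin n → ℝ), ∑ k, (A (.inr (.inr (.inl j))) k : ℝ) * v k =
      -(s j : ℝ) * v j := by
    intro j v
    have := sum_single j (-s j) v
    push_cast at this
    exact this
  have eZ : ∀ (j : Fin n) (v : Fin n → ℝ), Z j → ∑ k, (A (.inr (.inr (.inr j))) k : ℝ) * v k =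
      (s j : ℝ) * v j := by
    intro j v hj
    show ∑ k, (((if Z j then Pi.single j (s j) else 0 : Fin n → ℤ) k : ℤ) : ℝ) * v k = _
    rw [if_pos hj]
    exact sum_single j (s j) v
  have eZ' : ∀ (j : Fin n) (v : Fin n → ℝ), ¬ Z j →
      ∑ k, (A (.inr (.inr (.inr j))) k : ℝ) * v k = 0 := by
    intro j v hj
    show ∑ k, (((if Z j then Pi.single j (s j) else 0 : Fin n → ℤ) k : ℤ) : ℝ) * v k = _
    rw [if_neg hj]
    simp
  have hsne : ∀ j, (s j : ℝ) ≠ 0 := by
    intro j
    rcases hs1 j with h | h <;> rw [h] <;> norm_num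
  have hb : ∀ v : Fin n → ℝ, v ≠ 0 → ∃ i, 0 < ∑ j, (A i j : ℝ) * v j := by
    intro v hv
    by_contra hn
    push Not at hn
    apply hv
    apply hrec v
    · intro i
      have := hn (.inl i)
      rwa [eW] at this
    · intro i hi
      have h1 := hn (.inl i)
      rw [eW] at h1
      have h2 := hn (.inr (.inl i))
      rw [eT i v hi] at h2
      linarith
    · intro j
      have := hn (.inr (.inr (.inl j)))
      rw [eS] at this
      linarith
    · intro j hj
      have h1 := hn (.inr (.inr (.inl j)))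
      rw [eS] at h1
      have h2 := hn (.inr (.inr (.inr j)))
      rw [eZ j v hj] at h2
      have h3 : (s j : ℝ) * v j = 0 := by linarith
      exact (mul_eq_zero.1 h3).resolve_left (hsne j)
  have hyA : ∀ i, ∑ j, (A i j : ℝ) * (y j : ℝ) ≤ β i := by
    rintro (i | i | j | j)
    · rw [eW]
      show _ ≤ (w i : ℝ)
      have : ∑ j, W i j * y j ≤ w i := hyF i
      exact_mod_cast this
    · show _ ≤ (if T i then -(w i : ℝ) else 0)
      by_cases hi : T i
      · rw [eT i _ hi, if_pos hi]
        have : ∑ j, (W i j : ℝ) * (y j : ℝ) = w i := by exact_mod_cast hi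
        rw [this]
      · rw [eT' i _ hi, if_neg hi]
    · rw [eS]
      show _ ≤ (0 : ℝ)
      have : (0 : ℝ) ≤ ((s j * y j : ℤ) : ℝ) := by exact_mod_cast hys j
      push_cast at this
      linarith
    · show _ ≤ (0 : ℝ)
      by_cases hj : Z j
      · rw [eZ j _ hj]
        have : y j = 0 := hj
        rw [this]
        simp
      · rw [eZ' j _ hj]
  obtain ⟨x', hx1, hx2, hx3⟩ := Pool.Agent.Helper77.SQ.vertex A β
    (fun j => if j = j0 then -(s j : ℝ) else 0) hb _ (fun j => (y j : ℝ)) hyA le_rfl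
  simp only [ite_mul, zero_mul, Finset.sum_ite_eq', Finset.mem_univ, if_true] at hx2
  obtain ⟨f, hf1, hf2⟩ := Pool.Agent.Helper77.SQ.select A
    (fun i => ∑ j, (A i j : ℝ) * x' j = β i ∧ ∀ i', i ≠ .inr (.inl i')) (by
      intro v hv
      apply hx3
      rintro (i | i | j) ht
      · exact hv _ ⟨ht, fun i' => by simp⟩
      · by_cases hi : T i
        · rw [eT i _ hi] at ht ⊢
          have h1 : β (.inr (.inl i)) = -(w i : ℝ) := if_pos hi
          rw [h1] at ht
          have h2 := hv (.inl i) ⟨by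
            rw [eW]
            show _ = (w i : ℝ)
            linarith, fun i' => by simp⟩
          rw [eW] at h2
          rw [h2, neg_zero]
        · exact eT' i _ hi
      · exact hv _ ⟨ht, fun i' => by simp⟩)
  have hinj : Function.Injective f := by
    intro a b hab
    by_contra hne
    apply hf2
    refine Matrix.det_zero_of_row_eq hne ?_
    funext j
    show A (f a) j = A (f b) j
    rw [hab]
  have hTU3 : (Matrix.of (Sum.elim A (fun j => (Pi.single j 1 : Fin n → ℤ))) :
      Matrix ((Fin m ⊕ Fin m ⊕ Fin n ⊕ Fin n) ⊕ Fin n) (Fin n) ℤ).IsTotallyUnimodular := by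
    apply tuI hT W hW
    rintro (i | j)
    · exact AA_rows W s T Z hs1 i
    · exact Or.inr (Or.inr (Or.inl ⟨j, rfl⟩))
  have hbd := bnd _ hTU3 Sum.inr (fun j => rfl) (Sum.inl ∘ f) hf2 x' (fun k => β (f k))
    (fun k => (hf1 k).1) j0
  have hsum : ∑ k, |β (f k)| ≤ ∑ i, |(w i : ℝ)| := by
    set β' : Fin m ⊕ Fin m ⊕ Fin n ⊕ Fin n → ℝ := fun i => match i with
      | .inl i => |(w i : ℝ)|
      | .inr _ => 0 with hβ'
    have h1 : ∀ k, |β (f k)| = β' (f k) := by
      intro k
      have h2 := (hf1 k).2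
      rcases hk : f k with i | i | j
      · rfl
      · exact absurd hk (h2 i)
      · show |(0 : ℝ)| = 0
        simp
    rw [Finset.sum_congr rfl fun k _ => h1 k]
    have h3 : ∑ k, β' (f k) = ∑ a ∈ Finset.univ.map ⟨f, hinj⟩, β' a := by
      rw [Finset.sum_map]
      rfl
    rw [h3]
    have h4 : ∀ a, 0 ≤ β' a := by
      rintro (i | i)
      · exact abs_nonneg _
      · exact le_rfl
    refine (Finset.sum_le_univ_sum_of_nonneg h4).trans (le_of_eq ?_)
    rw [Fintype.sum_sum_type]
    have h5 : ∑ i : Fin m ⊕ Fin n ⊕ Fin n, β' (.inr i) = 0 := Finset.sum_eq_zero fun i _ => rfl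
    rw [h5, add_zero]
  have h9 : (|y j0| : ℝ) ≤ |x' j0| := by
    have h10 : ((s j0 * y j0 : ℤ) : ℝ) = ((|y j0| : ℤ) : ℝ) := by rw [hyabs]
    push_cast at h10
    have h11 : (s j0 : ℝ) * x' j0 ≤ |x' j0| := by
      rcases hs1 j0 with h | h
      · rw [h]; simpa using le_abs_self (x' j0)
      · rw [h]; simpa using neg_le_abs (x' j0)
    linarith
  have h13 : (|y j0| : ℝ) ≤ ∑ i, |(w i : ℝ)| := h9.trans (hbd.trans hsum)
  exact_mod_cast h13

end Pool.Agent.Helper84.SQ
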