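import Pool.Agent.Helper84.SQ.GoalsA

namespace Pool.Agent.Helper84.SQ

open Matrix

/-- Multiplying the rows by signs. -/
theorem tu_smul {m n : Type*} {A : Matrix m n ℤ} (hA : A.IsTotallyUnimodular) (s : m → ℤ)
    (hs : ∀ i, s i = 1 ∨ s i = -1) : (Matrix.of fun i => s i • A i).IsTotallyUnimodular := by
  intro k f g hf hg
  have h1 := hA k f g hf hg
  have e : ((Matrix.of fun i => s i • A i).submatrix f g) =
      Matrix.diagonal (fun i => s (f i)) * A.submatrix f g := by
    ext i j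
    simp [Matrix.diagonal_mul]
  rw [e, det_mul, det_diagonal]
  have h2 : (∏ i, s (f i)) = 1 ∨ (∏ i, s (f i)) = -1 := by
    refine Finset.prod_induction (fun i => s (f i)) (fun x => x = 1 ∨ x = -1) ?_ (Or.inl rfl) ?_
    · rintro a b (rfl | rfl) (rfl | rfl) <;> simp
    · intro i _
      exact hs (f i)
  obtain ⟨t, ht⟩ := h1
  rw [← ht]
  rcases h2 with h | h
  · exact ⟨t, by rw [h]; simp⟩
  · exact ⟨-t, by rw [h]; cases t <;> simp⟩

theorem tur' : TurStmt := by
  classical
  intro m n m' W A hW hA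
  -- the matrix with the rows of `W`, the unit vectors and zero
  have hB : (fromRows (fromRows W (1 : Matrix (Fin n) (Fin n) ℤ))
      (replicateRow Unit (0 : Fin n → ℤ))).IsTotallyUnimodular := by
    rw [fromRows_replicateRow0_isTotallyUnimodular_iff, fromRows_one_isTotallyUnimodular_iff]
    exact hW
  set B := fromRows (fromRows W (1 : Matrix (Fin n) (Fin n) ℤ))
      (replicateRow Unit (0 : Fin n → ℤ)) with hBd
  have key : ∀ i, ∃ (s : ℤ) (r : (Fin m ⊕ Fin n) ⊕ Unit), (s = 1 ∨ s = -1) ∧ A i = s • B r := by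
    intro i
    rcases hA i with ⟨i', h⟩ | ⟨i', h⟩ | ⟨j, h⟩ | ⟨j, h⟩ | h
    · exact ⟨1, Sum.inl (Sum.inl i'), Or.inl rfl, by rw [h, one_smul]; rfl⟩
    · exact ⟨-1, Sum.inl (Sum.inl i'), Or.inr rfl, by rw [h, neg_smul, one_smul]; rfl⟩
    · refine ⟨1, Sum.inl (Sum.inr j), Or.inl rfl, ?_⟩
      rw [h, one_smul]
      ext l
      simp [hBd, Matrix.one_apply, Pi.single_apply, eq_comm]
    · refine ⟨-1, Sum.inl (Sum.inr j), Or.inr rfl, ?_⟩
      rw [h, neg_smul, one_smul]
      ext l
      simp [hBd, Matrix.one_apply, Pi.single_apply, eq_comm]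
      split_ifs <;> simp
    · refine ⟨1, Sum.inr (), Or.inl rfl, ?_⟩
      rw [h, one_smul]
      ext l
      simp [hBd]
  choose s r hs hr using key
  have h3 := tu_smul (hB.submatrix r id) s hs
  have e : A = Matrix.of (fun i => s i • (B.submatrix r id) i) := by
    ext i j
    rw [hr i]
    rfl
  rw [e]
  exact h3

end Pool.Agent.Helper84.SQ
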