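import Pool.Agent.Helper84.SQ.Scheme
import Pool.Agent.Helper84.SQ.TUR
import Pool.Agent.Helper84.SQ.OPB
import Pool.Agent.Helper84.SQ.SLV
import Pool.Agent.Helper84.SQ.COR
import Pool.Agent.Helper84.SQ.TRC
import Pool.Agent.Helper67.SQ.IDP
import Pool.Agent.Helper45.SQP.Hard
import Pool.Agent.Helper77.SQ.RND
import Pool.Agent.Helper49.SQ.STP
import Pool.Agent.Helper9.SQ.GRD
import Pool.Agent.Helper7.SQ.PLW
import Pool.Agent.Helper46.SQ.FHV
import Pool.Agent.Helper93.SQ.OPA
import Pool.Agent.Helper56.SQ.OPT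
import Pool.Agent.Helper22.SQ.BXO
import Pool.Agent.Helper40.SQ.SPL
import Pool.Agent.Helper17.SQ.LVS
import Pool.Agent.Helper13.SQ.APR
import Pool.Agent.Helper81.SQ.CDA
import Pool.Agent.Helper32.SQ.CDB
import Pool.Agent.Helper16.SQ.PTA
import Pool.Agent.Helper8.SQ.PTB
import Pool.Agent.Helper85.SQ.PTC
import Pool.Agent.Helper38.SQ.LIN
import Pool.Agent.Helper12.SQ.FAC
import Pool.Agent.Helper97.SQ.KKF
import Pool.Agent.Helper33.SQ.TAI
import Pool.Agent.Helper16.SQ.QUD
import Pool.Agent.Helper35.SQ.RRD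
import Pool.Agent.Helper35.SQ.UNA
import Pool.Agent.Helper30.SQ.UNB
import Pool.Agent.Helper77.SQ.UTA
import Pool.Agent.Helper8.SQ.UTB
import Pool.Agent.Helper46.SQ.ALN
import Pool.Agent.Helper82.SQ.COX
import Pool.Agent.Helper40.SQ.PTX
import Pool.Agent.Helper93.SQ.FWR
import Pool.Agent.Helper41.FR.CPA
import Pool.Agent.Helper60.FR.CPV
import Pool.Agent.Helper61.FR.CUT

/-!
# Separable indefinite quadratic integer programs: the complete positive part
-/

namespace Pool.Agent.Helper84.SQ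

open Pool.Agent.Helper45.SQP (Inst TUInst Correct Code Output HasAlgorithm)

theorem tur_all : TurStmt := tur'

theorem rnd_all : RndStmt := Pool.Agent.Helper77.SQ.rnd

theorem plw_all : PlwStmt := Pool.Agent.Helper7.SQ.plw

theorem stp_all : StpStmt := Pool.Agent.Helper49.SQ.stp (Pool.Agent.Helper67.SQ.idp rnd_all tur_all)

theorem grd_all : GrdStmt := Pool.Agent.Helper9.SQ.grd stp_all

theorem fhv_all : FhvStmt := Pool.Agent.Helper46.SQ.fhv

theorem bxo_all : BxoStmt := Pool.Agent.Helper22.SQ.bxo tur_all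

theorem cpv_all : Pool.Agent.Helper92.FR.CpvStmt := Pool.Agent.Helper60.FR.cpv

theorem cpa_all : Pool.Agent.Helper92.FR.CpaStmt :=
  Pool.Agent.Helper41.FR.cpa Pool.Agent.Helper61.FR.cut

theorem opa_all : OpaStmt := Pool.Agent.Helper93.SQ.opa fhv_all plw_all cpa_all cpv_all

theorem opb_all : OpbStmt := opb' rnd_all plw_all

theorem opt_all : OptStmt := Pool.Agent.Helper56.SQ.opt fhv_all opa_all opb_all

theorem slv_all : SlvStmt := slv' opt_all bxo_all

theorem spl_all : SplStmt := Pool.Agent.Helper40.SQ.spl slv_all bxo_all grd_all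

theorem lvs_all : LvsStmt := Pool.Agent.Helper17.SQ.lvs spl_all

theorem apr_all : AprStmt := Pool.Agent.Helper13.SQ.apr lvs_all slv_all

theorem cda_all : CdaStmt := Pool.Agent.Helper81.SQ.cda tur_all

theorem cdb_all : CdbStmt := Pool.Agent.Helper32.SQ.cdb

theorem trc_all : TrcStmt := trc' rnd_all tur_all

theorem cor_all : CorStmt := cor' apr_all cda_all cdb_all trc_all

theorem ptb_all : PtbStmt := Pool.Agent.Helper8.SQ.ptb Pool.Agent.Helper16.SQ.pta

theorem ptc_all : PtcStmt := Pool.Agent.Helper85.SQ.ptc ptb_all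

theorem ptx_all : PtxStmt := Pool.Agent.Helper40.SQ.ptx ptb_all ptc_all

theorem fwr_all : FwrStmt := Pool.Agent.Helper93.SQ.fwr

theorem kkf_all : KkfStmt :=
  Pool.Agent.Helper97.SQ.kkf (Pool.Agent.Helper12.SQ.fac fwr_all) Pool.Agent.Helper38.SQ.lin

theorem rrd_all : RrdStmt := Pool.Agent.Helper35.SQ.rrd rnd_all tur_all

theorem una_all : UnaStmt :=
  Pool.Agent.Helper35.SQ.una kkf_all Pool.Agent.Helper33.SQ.tai Pool.Agent.Helper16.SQ.qud rrd_all

theorem unb_all : UnbStmt :=
  Pool.Agent.Helper30.SQ.unb fwr_all kkf_all Pool.Agent.Helper33.SQ.tai Pool.Agent.Helper16.SQ.qud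
    rrd_all

theorem uta_all : UtaStmt := Pool.Agent.Helper77.SQ.uta slv_all tur_all rnd_all

theorem utb_all : UtbStmt := Pool.Agent.Helper8.SQ.utb slv_all tur_all cda_all cdb_all

theorem aln_all : AlnStmt := Pool.Agent.Helper46.SQ.aln apr_all cda_all cdb_all trc_all

theorem cox_all : CoxStmt :=
  Pool.Agent.Helper82.SQ.cox cor_all aln_all uta_all utb_all una_all unb_all fwr_all

/-- The scheme for at most one concave variable. -/
theorem scheme_one (p : ℕ) (hp : p ≤ 1) : HasScheme p fun _ => True :=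
  scheme1 cox_all ptb_all p hp

/-- The scheme for all instances which are not unbounded below. -/
theorem scheme_all (p : ℕ) : HasScheme p fun I => ¬ I.UnboundedBelow :=
  scheme cor_all ptb_all p

/-- The algorithm for at most one concave variable. -/
theorem algorithm_one (p : ℕ) (hp : p ≤ 1) (ε : ℝ) (hε : 0 < ε) : HasAlgorithm p ε :=
  main1 cox_all ptx_all p hp ε hε

end Pool.Agent.Helper84.SQ
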