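import Pool.Agent.Helper84.SQ.GoalsB
import Pool.Agent.Helper84.SQ.GoalsC

/-!
# Separable indefinite quadratic integer programs: the assembly
-/

namespace Pool.Agent.Helper84.SQ

open Pool.Agent.Helper81.CC Pool.Agent.Bin
open Pool.Agent.Helper45.SQP (Inst TUInst Correct Code Output)

theorem correct_mono {ε ε' : ℝ} (h : ε ≤ ε') {I : Inst} {o : Output} (ho : Correct ε I o) :
    Correct ε' I o := by
  cases o with
  | infeasible => exact ho
  | unbounded => exact ho
  | point l =>
    obtain ⟨x, hx, hf, y, hy, hM⟩ := ho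
    refine ⟨x, hx, hf, y, hy, fun M hM' => (hM M hM').trans ?_⟩
    have h1 : (0 : ℝ) ≤ M - I.f y := sub_nonneg.mpr (hM' y hy.1)
    exact mul_le_mul_of_nonneg_right h h1

/-- The main theorem, from the goals. -/
theorem main (hcor : CorStmt) (hpte : PteStmt) (p : ℕ) (ε : ℝ) (hε : 0 < ε) :
    ∃ A : TUInst p → Output,
      PolyTimeComputable (fun I : TUInst p => I.1.enc) Output.enc A ∧
        ∀ I : TUInst p, ¬ I.1.UnboundedBelow → Correct ε I.1 (A I) := by
  obtain ⟨K0, hK0⟩ := exists_nat_ge (20 * p / ε)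
  refine ⟨fun I => out (alg p (K0 + 4) I.1.code), hpte p (K0 + 4), fun I hI => ?_⟩
  refine correct_mono ?_ (hcor p (K0 + 4) (by omega) I hI)
  rw [div_le_iff₀ hε] at hK0
  have h1 : (0 : ℝ) < ((K0 + 4 : ℕ) : ℝ) := by positivity
  rw [div_le_iff₀ h1]
  push_cast
  nlinarith

end Pool.Agent.Helper84.SQ
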