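import Pool.Agent.Helper84.SQ.Fin
import Pool.Agent.Helper84.SQ.GoalsD

/-!
# Separable indefinite quadratic integer programs: the assembly, at most one concave variable
-/

namespace Pool.Agent.Helper84.SQ

open Pool.Agent.Helper81.CC Pool.Agent.Bin
open Pool.Agent.Helper45.SQP (Inst TUInst Correct Code Output HasAlgorithm)

/-- The complete algorithm for at most one concave variable, from the goals. -/
theorem main1 (hcox : CoxStmt) (hptx : PtxStmt) (p : ℕ) (hp : p ≤ 1) (ε : ℝ) (hε : 0 < ε) :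
    HasAlgorithm p ε := by
  obtain ⟨K0, hK0⟩ := exists_nat_ge (20 / ε)
  refine ⟨fun I => out1 (alg1 (K0 + 4) I.1.code), hptx p (K0 + 4), fun I => ?_⟩
  refine correct_mono ?_ (hcox p (K0 + 4) hp (by omega) I)
  rw [div_le_iff₀ hε] at hK0
  have h1 : (0 : ℝ) < ((K0 + 4 : ℕ) : ℝ) := by positivity
  rw [div_le_iff₀ h1]
  push_cast
  nlinarith

end Pool.Agent.Helper84.SQ
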