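import Pool.Agent.Helper84.SQ.Fin1
import Pool.Agent.Helper40.SQ.PTX
import Pool.Agent.Helper85.SQ.PTC

/-!
# The algorithms as fully polynomial-time approximation schemes

The accuracy `1 / k` is part of the input, with `k` in unary.
-/

namespace Pool.Agent.Helper84.SQ

open Pool.Agent.Helper81.CC Pool.Agent.Bin
open Pool.Agent.Helper45.SQP (Inst TUInst Correct Code Output HasAlgorithm)
open Pool.Agent.Helper40.SQ Pool.Agent.Helper85.SQ

variable {α : Type} [ToData α]

theorem PV_grdv {K k : α → ℕ} {l u : α → Zn} (hK : PolyTime K) (hk : PolyTime k)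
    (hl : PolyTime l) (hu : PolyTime u) :
    PolyTime (fun a => grdv (K a) (k a) (l a) (u a)) := by unfold grdv; fun_prop

theorem PV_split (hb : PtbStmt) {K N d i : α → ℕ} {R : α → List Row} (hK : PolyTime K)
    (hN : PolyTime N) (hd : PolyTime d) (hi : PolyTime i) (hR : PolyTime R) :
    PolyTime (fun a => split (N a) (d a) (K a) (i a) (R a)) := by
  obtain ⟨-, h1, h2⟩ := hb α N d i R (fun _ => []) hN hd hi hR (by fun_prop)
  have h2' : PolyTime (fun z : α × Zn => cmax (N z.1) (d z.1) (R z.1) (i z.1)) :=
    PolyTime.comp (g := fun a => cmax (N a) (d a) (R a) (i a)) (f := fun z : α × Zn => z.1) h2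
      (by fun_prop)
  unfold split
  refine PolyTime.option_getD (PolyTime.option_bind (g := fun a l =>
    (cmax (N a) (d a) (R a) (i a)).map fun u =>
      (List.range (K a + 1)).map fun k => R a ++ fixR (d a) (i a) (grdv (K a) k l u)) h1 ?_)
    (by fun_prop)
  refine PolyTime.option_map (g := fun (z : α × Zn) u =>
    (List.range (K z.1 + 1)).map fun k => R z.1 ++ fixR (d z.1) (i z.1) (grdv (K z.1) k z.2 u))
    h2' ?_
  have h3 : PolyTime (fun z : ((α × Zn) × Zn) × ℕ => grdv (K z.1.1.1) z.2 z.1.1.2 z.1.2) :=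
    PV_grdv (by fun_prop) (by fun_prop) (by fun_prop) (by fun_prop)
  fun_prop

theorem PV_leaves (hb : PtbStmt) {K N d : α → ℕ} {V : α → List ℕ} {R : α → List Row}
    (hK : PolyTime K) (hN : PolyTime N) (hd : PolyTime d) (hV : PolyTime V) (hR : PolyTime R)
    (p : ℕ) : PolyTime (fun a => leaves (N a) (d a) (K a) (V a) (R a) p) := by
  induction p with
  | zero =>
    simp only [leaves]
    fun_prop
  | succ j ih =>
    simp only [leaves]
    refine PolyTime.itep (c := fun a => j < (V a).length) (by fun_prop) ?_ ih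
    refine PolyTime.flatMap (f := fun a R' => split (N a) (d a) (K a) ((V a).getD j 0) R') ih ?_
    exact PV_split hb (α := α × List Row) (K := fun z => K z.1) (N := fun z => N z.1)
      (d := fun z => d z.1) (i := fun z => (V z.1).getD j 0) (R := fun z => z.2) (by fun_prop)
      (by fun_prop) (by fun_prop) (by fun_prop) (by fun_prop)

theorem PV_appr (hb : PtbStmt) (p : ℕ) {K N d : α → ℕ} {V : α → List ℕ} {R : α → List Row}
    {F : α → Obj} {G : α → List (Zn × Zn)}
    (hK : PolyTime K) (hN : PolyTime N) (hd : PolyTime d) (hV : PolyTime V) (hR : PolyTime R)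
    (hF : PolyTime F) (hG : PolyTime G) :
    PolyTime (fun a => appr (N a) (d a) (K a) p (V a) (R a) (F a) (G a)) := by
  unfold appr
  refine PT_bestc hG (PolyTime.filterMap (f := fun a R' => solve (N a) (d a) R' (F a))
    (PV_leaves hb hK hN hd hV hR p) ?_)
  exact (hb (α × List Row) (fun z => N z.1) (fun z => d z.1) (fun z => 0) (fun z => z.2)
    (fun z => F z.1) (by fun_prop) (by fun_prop) (by fun_prop) (by fun_prop)
    (by fun_prop)).1

theorem PV_alg (hb : PtbStmt) (p : ℕ) {K : α → ℕ} {c : α → Code} (hK : PolyTime K)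
    (hc : PolyTime c) : PolyTime (fun a => alg p (K a) (c a)) := by
  unfold alg
  have h1 : PolyTime (fun a => szC (c a)) := pt_szC' hc
  exact PV_appr hb p hK (by fun_prop) (by fun_prop) (PolyTime.comp pt_vinC hc)
    (PolyTime.comp pt_trcC hc) (PolyTime.comp pt_fobC hc) (PolyTime.comp pt_gobC hc)

theorem PV_alg1 (hb : PtbStmt) {K : α → ℕ} {c : α → Code} (hK : PolyTime K)
    (hc : PolyTime c) : PolyTime (fun a => alg1 (K a) (c a)) := by
  unfold alg1
  refine PolyTime.option_map (PV_alg hb 1 hK hc) ?_
  have h1 : PolyTime (fun z : α × List Zn => unb1 (c z.1)) :=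
    PolyTime.comp (pt_unb1 hb) (by fun_prop)
  have h2 : PolyTime (fun z : α × List Zn => unb2 (c z.1)) :=
    PolyTime.comp (pt_unb2 hb) (by fun_prop)
  fun_prop

/-- The input of a scheme: an instance and the accuracy `1 / k`, `k` in unary. -/
def encIn (p : ℕ) (x : TUInst p × ℕ) : List Bool := encOf (Code × ℕ) (x.1.1.code, x.2)

/-- There is a fully polynomial-time approximation scheme which is correct on all instances `I` with
`W` totally unimodular, at most `p` concave variables and the property `P`. -/
def HasScheme (p : ℕ) (P : Inst → Prop) : Prop :=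
  ∃ A : TUInst p × ℕ → Output, PolyTimeComputable (encIn p) Output.enc A ∧
    ∀ (I : TUInst p) (k : ℕ), 1 ≤ k → P I.1 → Correct (1 / k) I.1 (A (I, k))

theorem out_eq_out1 (o : Option (List Zn)) : out o = out1 (o.map some) := by
  cases o <;> rfl

/-- The scheme for all instances which are not unbounded below, from the goals. -/
theorem scheme (hcor : CorStmt) (hb : PtbStmt) (p : ℕ) :
    HasScheme p fun I => ¬ I.UnboundedBelow := by
  refine ⟨fun x => out (alg p (20 * p * x.2 + 4) x.1.1.code), ?_, ?_⟩
  · apply SComp.computable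
    have h0 : PolyTime (fun z : Code × ℕ => outC1 ((alg p (20 * p * z.2 + 4) z.1).map some)) := by
      refine PolyTime.comp pt_outC1 (PolyTime.option_map (PV_alg hb p ?_ ?_) ?_)
      · fun_prop
      · fun_prop
      · fun_prop
    obtain ⟨q, Q, h⟩ := h0.scomp
    refine ⟨q, Q, fun x => ?_⟩
    have e : Output.enc (out (alg p (20 * p * x.2 + 4) x.1.1.code)) =
        encOf (Option (Option (List (Bool × List Bool))))
          (outC1 ((alg p (20 * p * x.2 + 4) x.1.1.code).map some)) := by
      rw [out_eq_out1, Output.enc, out1_code]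
    rw [e]
    exact h (x.1.1.code, x.2)
  · intro I k hk hI
    refine correct_mono ?_ (hcor p (20 * p * k + 4) (by omega) I hI)
    have h1 : (0 : ℝ) < ((20 * p * k + 4 : ℕ) : ℝ) := by positivity
    have h2 : (1 : ℝ) ≤ k := by exact_mod_cast hk
    rw [div_le_div_iff₀ h1 (by linarith)]
    push_cast
    nlinarith

/-- The scheme for all instances with at most one concave variable, from the goals. -/
theorem scheme1 (hcox : CoxStmt) (hb : PtbStmt) (p : ℕ) (hp : p ≤ 1) :
    HasScheme p fun _ => True := by
  refine ⟨fun x => out1 (alg1 (20 * x.2 + 4) x.1.1.code), ?_, ?_⟩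
  · apply SComp.computable
    have h0 : PolyTime (fun z : Code × ℕ => outC1 (alg1 (20 * z.2 + 4) z.1)) := by
      refine PolyTime.comp pt_outC1 (PV_alg1 hb ?_ ?_)
      · fun_prop
      · fun_prop
    obtain ⟨q, Q, h⟩ := h0.scomp
    refine ⟨q, Q, fun x => ?_⟩
    have e : Output.enc (out1 (alg1 (20 * x.2 + 4) x.1.1.code)) =
        encOf (Option (Option (List (Bool × List Bool))))
          (outC1 (alg1 (20 * x.2 + 4) x.1.1.code)) := by
      rw [Output.enc, out1_code]
    rw [e]
    exact h (x.1.1.code, x.2)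
  · intro I k hk _
    refine correct_mono ?_ (hcox p (20 * k + 4) hp (by omega) I)
    have h1 : (0 : ℝ) < ((20 * k + 4 : ℕ) : ℝ) := by positivity
    have h2 : (1 : ℝ) ≤ k := by exact_mod_cast hk
    rw [div_le_div_iff₀ h1 (by linarith)]
    push_cast
    nlinarith

end Pool.Agent.Helper84.SQ
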