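import Pool.Agent.Helper84.SQ.Alg
import Pool.Agent.Helper92.FR.GoalsB

/-!
# Separable indefinite quadratic integer programs: values of the basic operations
-/

namespace Pool.Agent.Helper84.SQ

open Pool.Agent.Helper81.CC Pool.Agent.Bin
open Pool.Agent.Helper92.FR (Qn Cst dot cut cini cen lv)

namespace Zn

@[simp] theorem val_zero : val zero = 0 := by simp [val, zero]
@[simp] theorem val_one : val one = 1 := by simp [val, one]
@[simp] theorem val_add (x y : Zn) : val (add x y) = val x + val y := by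
  simp only [val, add, BN.val_add]; push_cast; ring
@[simp] theorem val_neg (x : Zn) : val (neg x) = - val x := by
  simp only [val, neg]; ring
@[simp] theorem val_mul (x y : Zn) : val (mul x y) = val x * val y := by
  simp only [val, mul, BN.val_add, BN.val_mul]; push_cast; ring
theorem le_iff (x y : Zn) : le x y = true ↔ val x ≤ val y := by
  simp only [le, decide_eq_true_eq, BN.le_def, BN.val_add, val]
  omega
@[simp] theorem val_sum (l : List Zn) : val (sum l) = (l.map val).sum := by
  simp only [val, sum, BN.val_sum, List.map_map]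
  induction l with
  | nil => simp
  | cons a l ih =>
    simp only [List.map_cons, List.sum_cons, Nat.cast_add, Function.comp_apply] at ih ⊢
    rw [← ih, val]
    ring
@[simp] theorem val_q (z : Zn) : Qn.val (q z) = (val z : ℝ) := by
  simp [Qn.val, q, val]
@[simp] theorem val_bn (n : BN) : val (n, ⟨0⟩) = n.val := by simp [val]
@[simp] theorem val_bn' (n : BN) : val (⟨0⟩, n) = -n.val := by simp [val]

end Zn

theorem val_flz (x : Qn) : Zn.val (flz x) = ⌊Qn.val x⌋ := by
  obtain ⟨p, p', r⟩ := x
  unfold flz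
  simp only [BN.le_def]
  split_ifs with h
  · have h1 : Qn.val (p, p', r) = ((p.val - p'.val : ℕ) : ℝ) / ((r.val + 1 : ℕ) : ℝ) := by
      simp only [Qn.val]
      rw [Nat.cast_sub h]
      push_cast
      rfl
    rw [h1]
    simp only [Zn.val_bn, BN.val_div, BN.val_sub, BN.val_add]
    rw [← Int.natCast_floor_eq_floor (by positivity), Nat.floor_div_eq_div]
  · rw [not_le] at h
    simp only [Zn.val_bn', BN.val_div, BN.val_sub, BN.val_add]
    symm
    rw [Int.floor_eq_iff]
    have hr : (0 : ℝ) < (r.val : ℝ) + 1 := by positivity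
    set a : ℕ := p'.val - p.val with ha
    have hq : Qn.val (p, p', r) = -((a : ℝ) / (r.val + 1)) := by
      simp only [Qn.val]
      have : (a : ℝ) = (p'.val : ℝ) - p.val := by
        rw [ha, Nat.cast_sub h.le]
      rw [this]
      ring
    rw [hq]
    have h1 := Nat.div_add_mod (a + r.val) (r.val + 1)
    have h2 := Nat.mod_lt (a + r.val) (Nat.succ_pos r.val)
    set t : ℕ := (a + r.val) / (r.val + 1) with ht
    set s : ℕ := (a + r.val) % (r.val + 1) with hs
    have h3 : ((r.val : ℝ) + 1) * t + s = a + r.val := by exact_mod_cast h1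
    have h4 : (s : ℝ) ≤ r.val := by exact_mod_cast Nat.lt_succ_iff.mp h2
    push_cast
    constructor
    · rw [neg_le_neg_iff, div_le_iff₀ hr]
      nlinarith
    · rw [neg_lt, neg_add, neg_neg, ← sub_eq_add_neg, lt_div_iff₀ hr]
      have : (0 : ℝ) ≤ s := Nat.cast_nonneg _
      nlinarith

theorem val_rnd (x : Qn) : Zn.val (rnd x) = ⌊Qn.val x + 1 / 2⌋ := by
  unfold rnd
  rw [val_flz, Qn.val_add]
  congr 2
  simp [Qn.val]
  norm_num

/-- The integer values of a list. -/
def lz (d : ℕ) (l : List Zn) : Fin d → ℤ := fun j => Zn.val (l.getD j Zn.zero)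

/-- The coefficients `q j` of an objective. -/
def qF (d : ℕ) (F : Obj) : Fin d → ℤ := fun j => ((F.getD j (⟨0⟩, Zn.zero)).1.val : ℤ)

/-- The coefficients `h j` of an objective. -/
def hF (d : ℕ) (F : Obj) : Fin d → ℤ := fun j => Zn.val (F.getD j (⟨0⟩, Zn.zero)).2

/-- The objective at an integer point. -/
def fv (d : ℕ) (F : Obj) (x : Fin d → ℤ) : ℤ := ∑ j, (qF d F j * x j ^ 2 + hF d F j * x j)

/-- The integer solutions of a system. -/
def Sol (d : ℕ) (R : List Row) : Set (Fin d → ℤ) :=
  {x | ∀ r ∈ R, ∑ j, lz d r.1 j * x j ≤ Zn.val r.2}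

/-- The matrix of a system. -/
def MR (d : ℕ) (R : List Row) : Matrix (Fin R.length) (Fin d) ℤ := fun i => lz d (R.get i).1

/-- The slope of the piecewise linear interpolation of `q x ^ 2 + h x` at `x`. -/
noncomputable def sl (q h : ℤ) (x : ℝ) : ℝ := q * (2 * ⌊x⌋ + 1) + h

/-- The piecewise linear interpolation of `q x ^ 2 + h x`. -/
noncomputable def pl (q h : ℤ) (x : ℝ) : ℝ := sl q h x * x - q * (⌊x⌋ * (⌊x⌋ + 1))

/-- The piecewise linear interpolation of the objective. -/
noncomputable def plF (d : ℕ) (F : Obj) (x : Fin d → ℝ) : ℝ := ∑ j, pl (qF d F j) (hF d F j) (x j)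

/-- A real point is almost a solution. -/
def Near (d : ℕ) (R : List Row) (δ : ℝ) (x : Fin d → ℝ) : Prop :=
  ∀ r ∈ R, ∑ j, (lz d r.1 j : ℝ) * x j ≤ Zn.val r.2 + δ

/-- The system `R` with the objective `F` in dimension `d` is well formed, totally unimodular and
bounded, and all data are bounded by `2 ^ N`. -/
structure Ok (N d : ℕ) (R : List Row) (F : Obj) : Prop where
  d1 : 1 ≤ d
  dN : d ≤ N
  len : ∀ r ∈ R, r.1.length = d
  lenF : F.length = d
  tu : (MR d R).IsTotallyUnimodular
  bd : ∀ x : Fin d → ℝ, Near d R 1 x → ∀ j, |x j| ≤ 2 ^ N - 1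
  cq : ∀ j, qF d F j ≤ 2 ^ N
  ch : ∀ j, |hF d F j| ≤ 2 ^ N

end Pool.Agent.Helper84.SQ
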